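import Mathlib

/-!
# Words in two alternating blocks (for MP_b02441_al, undecidability)
-/

set_option autoImplicit false
set_option linter.unusedVariables false

namespace Pool.Agent.Lib.MP_b02441_al.U

/-- powers of a list -/
def rep (n : ℕ) (X : List ℕ) : List ℕ := (List.replicate n X).flatten

@[simp] theorem rep_zero (X : List ℕ) : rep 0 X = [] := rfl

theorem rep_succ (n : ℕ) (X : List ℕ) : rep (n + 1) X = X ++ rep n X := by
  rw [rep, rep, List.replicate_succ, List.flatten_cons]

theorem rep_add (m n : ℕ) (X : List ℕ) : rep (m + n) X = rep m X ++ rep n X := by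
  rw [rep, rep, rep, List.replicate_add, List.flatten_append]

theorem rep_singleton (n c : ℕ) : rep n [c] = List.replicate n c := by
  induction n with
  | zero => rfl
  | succ n ih => rw [rep_succ, ih, List.replicate_succ]; rfl

theorem rep_replicate (n i c : ℕ) : rep n (List.replicate i c) = List.replicate (i * n) c := by
  induction n with
  | zero => simp
  | succ n ih =>
    rw [rep_succ, ih, ← List.replicate_add]
    congr 1
    ring

/-- alternating blocks `(σ s) ^ z₀ (σ !s) ^ z₁ (σ s) ^ z₂ ⋯` -/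
def blk (σ : Bool → List ℕ) : Bool → List ℕ → List ℕ
  | _, [] => []
  | s, n :: z => rep n (σ s) ++ blk σ (!s) z

/-- the letter after `k` blocks -/
def tog (s : Bool) : ℕ → Bool
  | 0 => s
  | k + 1 => tog (!s) k

theorem tog_add (s : Bool) (j k : ℕ) : tog s (j + k) = tog (tog s j) k := by
  induction j generalizing s with
  | zero => simp [tog]
  | succ j ih => rw [Nat.add_right_comm, tog, ih, tog]

theorem tog_not (s : Bool) (k : ℕ) : tog (!s) k = !(tog s k) := by
  induction k generalizing s with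
  | zero => rfl
  | succ k ih => rw [tog, tog, ih]

theorem tog_two (s : Bool) (k : ℕ) : tog s (k + 2) = tog s k := by
  rw [tog, tog, Bool.not_not]

theorem tog_mod (s : Bool) (k : ℕ) : tog s k = tog s (k % 2) := by
  induction k using Nat.strong_induction_on with
  | _ k ih =>
    rcases Nat.lt_or_ge k 2 with h | h
    · rw [Nat.mod_eq_of_lt h]
    · obtain ⟨j, rfl⟩ : ∃ j, k = j + 2 := ⟨k - 2, by omega⟩
      rw [tog_two, ih j (by omega), Nat.add_mod_right]

theorem tog_congr (s : Bool) {j k : ℕ} (h : j % 2 = k % 2) : tog s j = tog s k := by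
  rw [tog_mod s j, tog_mod s k, h]

theorem blk_append (σ : Bool → List ℕ) (s : Bool) (a b : List ℕ) :
    blk σ s (a ++ b) = blk σ s a ++ blk σ (tog s a.length) b := by
  induction a generalizing s with
  | nil => rfl
  | cons n a ih => rw [List.cons_append, blk, blk, ih, List.length_cons, tog, List.append_assoc]

theorem blk_singleton (σ : Bool → List ℕ) (s : Bool) (n : ℕ) : blk σ s [n] = rep n (σ s) := by
  simp [blk]

theorem rep_flatMap (n : ℕ) (X : List ℕ) (φ : ℕ → List ℕ) :
    (rep n X).flatMap φ = rep n (X.flatMap φ) := by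
  induction n with
  | zero => rfl
  | succ n ih => rw [rep_succ, List.flatMap_append, ih, rep_succ]

theorem blk_flatMap (σ : Bool → List ℕ) (s : Bool) (z : List ℕ) (φ : ℕ → List ℕ) :
    (blk σ s z).flatMap φ = blk (fun b => (σ b).flatMap φ) s z := by
  induction z generalizing s with
  | nil => rfl
  | cons n z ih => rw [blk, List.flatMap_append, ih, rep_flatMap, blk]

/-- the letters `0`, `1` -/
def lt : Bool → List ℕ := fun b => [b.toNat]

theorem blk_congr {σ τ : Bool → List ℕ} (h : ∀ b, σ b = τ b) (s : Bool) (z : List ℕ) :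
    blk σ s z = blk τ s z := by
  have : σ = τ := funext h
  rw [this]

theorem blk_swap (σ : Bool → List ℕ) (s : Bool) (z : List ℕ) :
    blk (fun b => σ (!b)) s z = blk σ (!s) z := by
  induction z generalizing s with
  | nil => rfl
  | cons n z ih => rw [blk, ih, blk]

theorem blk_lt_cons (s : Bool) (n : ℕ) (z : List ℕ) :
    blk lt s (n :: z) = List.replicate n s.toNat ++ blk lt (!s) z := by
  rw [blk, lt, rep_singleton]

theorem mem_blk_lt {s : Bool} {z : List ℕ} {x : ℕ} (h : x ∈ blk lt s z) : ∃ b : Bool, x = b.toNat := by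
  induction z generalizing s with
  | nil => simp [blk] at h
  | cons n z ih =>
    rw [blk_lt_cons, List.mem_append] at h
    rcases h with h | h
    · exact ⟨s, (List.mem_replicate.1 h).2⟩
    · exact ih h

theorem toNat_not_ne (s : Bool) : (!s).toNat ≠ s.toNat := by cases s <;> decide

theorem toNat_inj {s t : Bool} (h : s.toNat = t.toNat) : s = t := by
  revert h; cases s <;> cases t <;> decide

/-- cutting a word between two different letters -/
theorem cut {z : List ℕ} (hz : ∀ n ∈ z, 1 ≤ n) {s : Bool} {w1 w2 : List ℕ} {a b : ℕ}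
    (h : blk lt s z = (w1 ++ [a]) ++ (b :: w2)) (hab : a ≠ b) :
    ∃ z1 z2, z = z1 ++ z2 ∧ z1 ≠ [] ∧ z2 ≠ [] ∧ w1 ++ [a] = blk lt s z1 ∧
      b :: w2 = blk lt (tog s z1.length) z2 := by
  induction z generalizing s w1 with
  | nil => simp [blk] at h
  | cons n z ih =>
    rw [blk_lt_cons] at h
    have hn : 1 ≤ n := hz n List.mem_cons_self
    have hz' : ∀ m ∈ z, 1 ≤ m := fun m hm => hz m (List.mem_cons_of_mem _ hm)
    rcases List.append_eq_append_iff.1 h with ⟨t, h1, h2⟩ | ⟨t, h1, h2⟩
    · -- `w1 ++ [a] = replicate ++ t`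
      rcases List.eq_nil_or_concat t with rfl | ⟨t', y, rfl⟩
      · rw [List.append_nil] at h1
        rw [List.nil_append] at h2
        refine ⟨[n], z, rfl, by simp, ?_, ?_, ?_⟩
        · rintro rfl
          simp [blk] at h2
        · rw [h1, blk_lt_cons]; simp [blk]
        · rw [← h2]; rfl
      · rw [List.concat_eq_append] at h1 h2
        have h3 : w1 = List.replicate n s.toNat ++ t' ∧ a = y := by
          rw [← List.append_assoc] at h1
          exact List.append_inj' h1 rfl |>.imp id (by simp)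
        obtain ⟨h3, rfl⟩ := h3
        obtain ⟨z1, z2, e, e1, e2, e3, e4⟩ := ih hz' h2
        refine ⟨n :: z1, z2, by rw [e]; rfl, by simp, e2, ?_, ?_⟩
        · rw [blk_lt_cons, ← e3, h1]
        · rw [e4]; rfl
    · -- `replicate = (w1 ++ [a]) ++ t`
      cases t with
      | nil =>
        rw [List.append_nil] at h1
        rw [List.nil_append] at h2
        refine ⟨[n], z, rfl, by simp, ?_, ?_, ?_⟩
        · rintro rfl
          simp [blk] at h2
        · rw [← h1, blk_lt_cons]; simp [blk]
        · rw [h2]; rfl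
      | cons y t =>
        exfalso
        have h3 : b = y := by
          rw [List.cons_append, List.cons.injEq] at h2
          exact h2.1
        subst h3
        apply hab
        have ha : a ∈ List.replicate n s.toNat := by rw [h1]; simp
        have hb : b ∈ List.replicate n s.toNat := by rw [h1]; simp
        rw [(List.mem_replicate.1 ha).2, (List.mem_replicate.1 hb).2]

theorem blk_lt_ne {s : Bool} {z : List ℕ} (hz : ∀ n ∈ z, 1 ≤ n) (h : z ≠ []) :
    ∃ w, blk lt s z = s.toNat :: w := by
  cases z with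
  | nil => exact absurd rfl h
  | cons n z =>
    obtain ⟨k, rfl⟩ : ∃ k, n = k + 1 := ⟨n - 1, by have := hz n List.mem_cons_self; omega⟩
    exact ⟨_, by rw [blk_lt_cons, List.replicate_succ]; rfl⟩

theorem replicate_append_inj {m n c : ℕ} {u v : List ℕ}
    (h : List.replicate m c ++ u = List.replicate n c ++ v)
    (hu : ∀ w, u ≠ c :: w) (hv : ∀ w, v ≠ c :: w) : m = n ∧ u = v := by
  induction m generalizing n with
  | zero =>
    cases n with
    | zero => exact ⟨rfl, h⟩
    | succ n =>
      rw [List.replicate_zero, List.nil_append, List.replicate_succ, List.cons_append] at h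
      exact absurd h (hu _)
  | succ m ih =>
    cases n with
    | zero =>
      rw [List.replicate_zero, List.nil_append, List.replicate_succ, List.cons_append] at h
      exact absurd h.symm (hv _)
    | succ n =>
      rw [List.replicate_succ, List.replicate_succ, List.cons_append, List.cons_append,
        List.cons.injEq] at h
      obtain ⟨h1, h2⟩ := ih h.2
      exact ⟨by rw [h1], h2⟩

theorem blk_not_head {s : Bool} {z : List ℕ} (hz : ∀ n ∈ z, 1 ≤ n) (w : List ℕ) :
    blk lt (!s) z ≠ s.toNat :: w := by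
  intro h
  rcases eq_or_ne z [] with rfl | hne
  · simp [blk] at h
  · obtain ⟨w', hw'⟩ := blk_lt_ne (s := !s) hz hne
    rw [hw', List.cons.injEq] at h
    exact toNat_not_ne s h.1

/-- the exponents are determined by the word -/
theorem blk_lt_inj {s : Bool} {z z' : List ℕ} (hz : ∀ n ∈ z, 1 ≤ n) (hz' : ∀ n ∈ z', 1 ≤ n)
    (h : blk lt s z = blk lt s z') : z = z' := by
  induction z generalizing s z' with
  | nil =>
    rcases eq_or_ne z' [] with rfl | hne
    · rfl
    · obtain ⟨w', hw'⟩ := blk_lt_ne (s := s) hz' hne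
      rw [hw'] at h
      simp [blk] at h
  | cons n z ih =>
    cases z' with
    | nil =>
      obtain ⟨w', hw'⟩ := blk_lt_ne (s := s) hz (by simp)
      rw [hw'] at h
      simp [blk] at h
    | cons n' z' =>
      have h1 : ∀ m ∈ z, 1 ≤ m := fun m hm => hz m (List.mem_cons_of_mem _ hm)
      have h2 : ∀ m ∈ z', 1 ≤ m := fun m hm => hz' m (List.mem_cons_of_mem _ hm)
      rw [blk_lt_cons, blk_lt_cons] at h
      obtain ⟨h3, h4⟩ := replicate_append_inj h (blk_not_head h1) (blk_not_head h2)
      rw [h3, ih h1 h2 h4]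

theorem blk_lt_start {s s' : Bool} {z z' : List ℕ} (hz : ∀ n ∈ z, 1 ≤ n)
    (hz' : ∀ n ∈ z', 1 ≤ n) (hne : z ≠ []) (h : blk lt s z = blk lt s' z') : s = s' := by
  obtain ⟨w, hw⟩ := blk_lt_ne (s := s) hz hne
  have hne' : z' ≠ [] := by
    rintro rfl
    rw [hw] at h
    simp [blk] at h
  obtain ⟨w', hw'⟩ := blk_lt_ne (s := s') hz' hne'
  rw [hw, hw', List.cons.injEq] at h
  exact toNat_inj h.1

/-- a long run lies in one block -/
theorem run_le {z : List ℕ} (hz : ∀ n ∈ z, 1 ≤ n) {s : Bool} {p q : List ℕ} {n c : ℕ}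
    (hn : 1 ≤ n) (h : blk lt s z = p ++ List.replicate n c ++ q) : ∃ m ∈ z, n ≤ m := by
  induction z generalizing s p n with
  | nil =>
    exfalso
    have := congrArg List.length h
    simp [blk] at this
    omega
  | cons m z ih =>
    have hz' : ∀ m ∈ z, 1 ≤ m := fun k hk => hz k (List.mem_cons_of_mem _ hk)
    rw [blk_lt_cons, List.append_assoc] at h
    rcases List.append_eq_append_iff.1 h with ⟨t, h1, h2⟩ | ⟨t, h1, h2⟩
    · obtain ⟨k, hk, hk2⟩ := ih hz' hn (by rw [h2, List.append_assoc])
      exact ⟨k, List.mem_cons_of_mem _ hk, hk2⟩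
    · -- the run begins in the first block
      by_cases hlen : n ≤ t.length
      · refine ⟨m, List.mem_cons_self, hlen.trans ?_⟩
        have := congrArg List.length h1
        simp at this
        omega
      · push Not at hlen
        rcases eq_or_ne t [] with rfl | ht
        · obtain ⟨k, hk, hk2⟩ := ih (p := []) hz' hn (by simpa using h2.symm)
          exact ⟨k, List.mem_cons_of_mem _ hk, hk2⟩
        · exfalso
          have h3 : t = List.replicate t.length s.toNat := by
            rw [List.eq_replicate_iff]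
            refine ⟨rfl, fun x hx => ?_⟩
            have : x ∈ List.replicate m s.toNat := by rw [h1]; exact List.mem_append_right _ hx
            exact (List.mem_replicate.1 this).2
          have hc : c = s.toNat := by
            have h4 : t.head ht ∈ List.replicate m s.toNat := by
              rw [h1]; exact List.mem_append_right _ (List.head_mem ht)
            have h5 : t.head ht = s.toNat := (List.mem_replicate.1 h4).2
            have h6 := congrArg List.head? h2
            rw [List.head?_append, List.head?_append] at h6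
            rw [List.head?_eq_some_head ht] at h6
            obtain ⟨k, rfl⟩ : ∃ k, n = k + 1 := ⟨n - 1, by omega⟩
            simp [List.replicate_succ] at h6
            rw [h6, h5]
          subst hc
          have h4 : List.replicate n s.toNat = t ++ List.replicate (n - t.length) s.toNat := by
            conv_rhs => rw [h3]
            rw [List.length_replicate, ← List.replicate_add]
            congr 1
            omega
          rw [h4, List.append_assoc, List.append_cancel_left_eq] at h2
          obtain ⟨k, hk⟩ : ∃ k, n - t.length = k + 1 := ⟨n - t.length - 1, by omega⟩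
          rw [hk, List.replicate_succ, List.cons_append] at h2
          exact blk_not_head hz' _ h2.symm

theorem const_or_boundary (Y : List ℕ) (hY : Y ≠ []) :
    (∃ c n, 1 ≤ n ∧ Y = List.replicate n c) ∨
      ∃ Y1 a b Y2, a ≠ b ∧ Y = (Y1 ++ [a]) ++ (b :: Y2) := by
  induction Y with
  | nil => exact absurd rfl hY
  | cons x Y ih =>
    rcases eq_or_ne Y [] with rfl | hne
    · exact Or.inl ⟨x, 1, le_rfl, rfl⟩
    · rcases ih hne with ⟨c, n, hn, rfl⟩ | ⟨Y1, a, b, Y2, hab, rfl⟩
      · by_cases hxc : x = c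
        · subst hxc
          exact Or.inl ⟨x, n + 1, by omega, by rw [List.replicate_succ]⟩
        · obtain ⟨k, rfl⟩ : ∃ k, n = k + 1 := ⟨n - 1, by omega⟩
          exact Or.inr ⟨[], x, c, List.replicate k c, hxc, by rw [List.replicate_succ]; rfl⟩
      · exact Or.inr ⟨x :: Y1, a, b, Y2, hab, by simp⟩

/-- no cube in a list -/
def CubeFree {α : Type} (z : List α) : Prop :=
  ∀ a b c : List α, z = a ++ (b ++ b ++ b) ++ c → b = []

/-- a fourth power of a word which is not constant gives a cube of exponents -/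
theorem const_of_pow4 {z : List ℕ} (hz : ∀ n ∈ z, 1 ≤ n) (hc : CubeFree z) {s : Bool}
    {p q Y : List ℕ} (hY : Y ≠ []) (h : blk lt s z = p ++ (Y ++ Y ++ Y ++ Y) ++ q) :
    ∃ c n, 1 ≤ n ∧ Y = List.replicate n c := by
  rcases const_or_boundary Y hY with h1 | ⟨Y1, a, b, Y2, hab, rfl⟩
  · exact h1
  · exfalso
    have e0 : blk lt s z = (p ++ Y1 ++ [a]) ++ (b :: (Y2 ++ ((Y1 ++ [a]) ++ (b :: Y2)) ++
        ((Y1 ++ [a]) ++ (b :: Y2)) ++ ((Y1 ++ [a]) ++ (b :: Y2)) ++ q)) := by
      rw [h]; simp
    obtain ⟨z1, y1, ez1, -, hy1, e1, f1⟩ := cut hz e0 hab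
    have hy1' : ∀ n ∈ y1, 1 ≤ n := fun n hn => hz n (by rw [ez1]; exact List.mem_append_right _ hn)
    have e2 : blk lt (tog s z1.length) y1 = ((b :: Y2) ++ Y1 ++ [a]) ++ (b :: (Y2 ++
        ((Y1 ++ [a]) ++ (b :: Y2)) ++ ((Y1 ++ [a]) ++ (b :: Y2)) ++ q)) := by
      rw [← f1]; simp
    obtain ⟨z2, y2, ez2, hz2, -, e3, f2⟩ := cut hy1' e2 hab
    have hy2' : ∀ n ∈ y2, 1 ≤ n := fun n hn =>
      hy1' n (by rw [ez2]; exact List.mem_append_right _ hn)
    have e4 : blk lt (tog (tog s z1.length) z2.length) y2 = ((b :: Y2) ++ Y1 ++ [a]) ++ (b :: (Y2 ++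
        ((Y1 ++ [a]) ++ (b :: Y2)) ++ q)) := by
      rw [← f2]; simp
    obtain ⟨z3, y3, ez3, hz3, -, e5, f3⟩ := cut hy2' e4 hab
    have hy3' : ∀ n ∈ y3, 1 ≤ n := fun n hn =>
      hy2' n (by rw [ez3]; exact List.mem_append_right _ hn)
    have e6 : blk lt (tog (tog (tog s z1.length) z2.length) z3.length) y3 =
        ((b :: Y2) ++ Y1 ++ [a]) ++ (b :: (Y2 ++ q)) := by
      rw [← f3]; simp
    obtain ⟨z4, y4, ez4, hz4, -, e7, f4⟩ := cut hy3' e6 hab
    have g1 : ∀ n ∈ z2, 1 ≤ n := fun n hn => hy1' n (by rw [ez2]; exact List.mem_append_left _ hn)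
    have g2 : ∀ n ∈ z3, 1 ≤ n := fun n hn => hy2' n (by rw [ez3]; exact List.mem_append_left _ hn)
    have g3 : ∀ n ∈ z4, 1 ≤ n := fun n hn => hy3' n (by rw [ez4]; exact List.mem_append_left _ hn)
    have k1 := e3.symm.trans e5
    have k2 := e5.symm.trans e7
    have s1 := blk_lt_start g1 g2 hz2 k1
    have s2 := blk_lt_start g2 g3 hz3 k2
    rw [← s1] at k1 k2 s2
    rw [← s2] at k2
    have t1 := blk_lt_inj g1 g2 k1
    have t2 := blk_lt_inj g2 g3 k2
    apply hz2
    refine hc z1 z2 y4 ?_
    rw [ez1, ez2, ez3, ez4, ← t2, ← t1]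
    simp

theorem rep_four (n : ℕ) (hn : 4 ≤ n) (X : List ℕ) :
    rep n X = (X ++ X ++ X ++ X) ++ rep (n - 4) X := by
  obtain ⟨k, rfl⟩ : ∃ k, n = 4 + k := ⟨n - 4, by omega⟩
  rw [rep_add, Nat.add_sub_cancel_left]
  congr 1
  rw [show (4 : ℕ) = 0 + 1 + 1 + 1 + 1 from rfl, rep_succ, rep_succ, rep_succ, rep_succ]
  simp

/-- a high power in a word is a power of a letter -/
theorem letter_of_rep {J : ℕ} (hJ : 4 ≤ J) {z : List ℕ} (hz : ∀ n ∈ z, J ≤ n ∧ n < 2 * J)
    (hc : CubeFree z) {s : Bool} {p q Y : List ℕ} {n : ℕ} (hn : J ≤ n) (hY : Y ≠ [])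
    (h : blk lt s z = p ++ rep n Y ++ q) : ∃ b : Bool, Y = lt b := by
  have hz1 : ∀ n ∈ z, 1 ≤ n := fun n hn => by have := hz n hn; omega
  have h1 := h
  rw [rep_four n (by omega) Y] at h1
  obtain ⟨c, i, hi, rfl⟩ := const_of_pow4 (p := p) (q := rep (n - 4) Y ++ q) hz1 hc hY (by
    rw [h1]; simp)
  rw [rep_replicate] at h
  obtain ⟨m, hm, hm2⟩ := run_le hz1 (by
    have : 1 * 1 ≤ i * n := Nat.mul_le_mul hi (by omega)
    omega) h
  have hi1 : i = 1 := by
    have h2 := (hz m hm).2
    have h3 : i * J ≤ i * n := Nat.mul_le_mul_left i hn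
    have h4 : i * J < 2 * J := by omega
    have h5 : i < 2 := lt_of_mul_lt_mul_right h4 (Nat.zero_le _)
    omega
  subst hi1
  have hc' : c ∈ blk lt s z := by
    rw [h]
    refine List.mem_append_left _ (List.mem_append_right _ ?_)
    rw [List.mem_replicate]
    exact ⟨by omega, rfl⟩
  obtain ⟨b, hb⟩ := mem_blk_lt hc'
  exact ⟨b, by rw [hb]; rfl⟩

/-- an instance of a word with at least two blocks is literal up to renaming the letters -/
theorem letters_of_match {J : ℕ} (hJ : 4 ≤ J) {z : List ℕ} (hz : ∀ n ∈ z, J ≤ n ∧ n < 2 * J)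
    (hc : CubeFree z) {s s' : Bool} {p q : List ℕ} {σ : Bool → List ℕ} (hσ : ∀ b, σ b ≠ [])
    {n1 n2 : ℕ} {r : List ℕ} (hn1 : J ≤ n1) (hn2 : J ≤ n2)
    (h : blk lt s z = p ++ blk σ s' (n1 :: n2 :: r) ++ q) :
    ∃ e : Bool, ∀ b, σ b = lt (xor b e) := by
  have hz1 : ∀ n ∈ z, 1 ≤ n := fun n hn => by have := hz n hn; omega
  rw [blk, blk] at h
  obtain ⟨b1, hb1⟩ := letter_of_rep (p := p) (q := rep n2 (σ (!s')) ++ blk σ (!!s') r ++ q)
    hJ hz hc hn1 (hσ s') (by rw [h]; simp)
  obtain ⟨b2, hb2⟩ := letter_of_rep (p := p ++ rep n1 (σ s')) (q := blk σ (!!s') r ++ q)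
    hJ hz hc hn2 (hσ (!s')) (by rw [h]; simp)
  have hne : b1 ≠ b2 := by
    rintro rfl
    rw [hb1, hb2] at h
    have h2 : rep n1 (lt b1) ++ (rep n2 (lt b1) ++ blk σ (!!s') r) =
        List.replicate (n1 + n2) b1.toNat ++ blk σ (!!s') r := by
      rw [lt, rep_singleton, rep_singleton, List.replicate_add, List.append_assoc]
    rw [h2] at h
    obtain ⟨m, hm, hm2⟩ := run_le (p := p) (q := blk σ (!!s') r ++ q) (n := n1 + n2)
      (c := b1.toNat) hz1 (by omega) (by rw [h]; simp)
    have := (hz m hm).2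
    omega
  refine ⟨xor s' b1, fun b => ?_⟩
  have h3 : b = s' ∨ b = !s' := by cases b <;> cases s' <;> simp
  rcases h3 with rfl | rfl
  · rw [hb1]; congr 1; cases b <;> cases b1 <;> rfl
  · rw [hb2]
    congr 1
    revert hne
    cases s' <;> cases b1 <;> cases b2 <;> decide

theorem getLast_blk {s : Bool} {z : List ℕ} (hz : ∀ n ∈ z, 1 ≤ n) (h : z ≠ []) :
    ∃ w, blk lt s z = w ++ [(!(tog s z.length)).toNat] := by
  rcases List.eq_nil_or_concat z with rfl | ⟨z', n, rfl⟩
  · exact absurd rfl h
  · rw [List.concat_eq_append] at hz ⊢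
    obtain ⟨k, rfl⟩ : ∃ k, n = k + 1 := ⟨n - 1, by have := hz n (by simp); omega⟩
    refine ⟨blk lt s z' ++ List.replicate k (tog s z'.length).toNat, ?_⟩
    rw [blk_append, blk_singleton, lt, rep_singleton, List.length_append, List.length_singleton,
      tog_add, List.append_assoc]
    congr 1
    rw [show tog (tog s z'.length) 1 = !(tog s z'.length) from rfl, Bool.not_not,
      List.replicate_succ']

/-- instances of flanked words are literal: decomposition of the exponents -/
theorem match_flanked {J : ℕ} (hJ : 4 ≤ J) {z : List ℕ} (hz : ∀ n ∈ z, J ≤ n ∧ n < 2 * J)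
    {p q l : List ℕ} {e : Bool} (hl : l ≠ []) (hl2 : ∀ n ∈ l, J ≤ n)
    (h : blk lt false z = p ++ blk lt e ([J] ++ l ++ [J]) ++ q) :
    ∃ α β, α ≠ [] ∧ β ≠ [] ∧ z = α ++ l ++ β ∧ p ++ blk lt e [J] = blk lt false α ∧
      tog false α.length = !e ∧
      blk lt (tog (!e) l.length) [J] ++ q = blk lt (tog (!e) l.length) β := by
  have hz1 : ∀ n ∈ z, 1 ≤ n := fun n hn => by have := hz n hn; omega
  have hl1 : ∀ n ∈ l, 1 ≤ n := fun n hn => by have := hl2 n hn; omega
  have e0 : blk lt e ([J] ++ l ++ [J]) = blk lt e [J] ++ blk lt (!e) l ++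
      blk lt (tog (!e) l.length) [J] := by
    rw [blk_append, blk_append]; rfl
  obtain ⟨k, rfl⟩ : ∃ k, J = k + 1 := ⟨J - 1, by omega⟩
  have e1 : blk lt e [k + 1] = List.replicate k e.toNat ++ [e.toNat] := by
    rw [blk_singleton, lt, rep_singleton, List.replicate_succ']
  obtain ⟨w, hw⟩ := blk_lt_ne (s := !e) hl1 hl
  obtain ⟨w', hw'⟩ := getLast_blk (s := !e) hl1 hl
  have e2 : blk lt (tog (!e) l.length) [k + 1] =
      (tog (!e) l.length).toNat :: List.replicate k (tog (!e) l.length).toNat := by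
    rw [blk_singleton, lt, rep_singleton, List.replicate_succ]
  rw [e0] at h
  obtain ⟨α, y, ez, hα, hy, f1, f2⟩ := cut (w1 := p ++ List.replicate k e.toNat) (a := e.toNat)
    (b := (!e).toNat) (w2 := w ++ blk lt (tog (!e) l.length) [k + 1] ++ q) hz1 (by
      rw [h, e1, hw]; simp) (toNat_not_ne e).symm
  have hy1 : ∀ n ∈ y, 1 ≤ n := fun n hn => hz1 n (by rw [ez]; exact List.mem_append_right _ hn)
  have f3 : tog false α.length = !e := by
    obtain ⟨w'', hw''⟩ := blk_lt_ne (s := tog false α.length) hy1 hy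
    rw [hw'', List.cons.injEq] at f2
    exact (toNat_inj f2.1).symm
  rw [f3] at f2
  have f4 : blk lt (!e) y = (w' ++ [(!(tog (!e) l.length)).toNat]) ++
      ((tog (!e) l.length).toNat :: (List.replicate k (tog (!e) l.length).toNat ++ q)) := by
    rw [← hw', ← f2, ← List.cons_append, ← List.cons_append, ← hw, e2]
    simp
  obtain ⟨z1, β, ey, hz1', hβ, g1, g2⟩ := cut hy1 f4 (toNat_not_ne _)
  have hz2 : ∀ n ∈ z1, 1 ≤ n := fun n hn => hy1 n (by rw [ey]; exact List.mem_append_left _ hn)
  have hzl : l = z1 := blk_lt_inj hl1 hz2 (by rw [hw', g1])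
  subst hzl
  refine ⟨α, β, hα, hβ, by rw [ez, ey]; simp, ?_, f3, ?_⟩
  · rw [e1, ← f1]; simp
  · rw [e2, ← g2]; rfl

/-- replacing a flanked word -/
theorem replace_flanked {J : ℕ} {p q l r α β : List ℕ} {e : Bool}
    (hlr : l.length % 2 = r.length % 2) (h1 : p ++ blk lt e [J] = blk lt false α)
    (h2 : tog false α.length = !e)
    (h3 : blk lt (tog (!e) l.length) [J] ++ q = blk lt (tog (!e) l.length) β) :
    p ++ blk lt e ([J] ++ r ++ [J]) ++ q = blk lt false (α ++ r ++ β) := by
  have e0 : blk lt e ([J] ++ r ++ [J]) = blk lt e [J] ++ blk lt (!e) r ++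
      blk lt (tog (!e) r.length) [J] := by
    rw [blk_append, blk_append]; rfl
  have e1 : tog (!e) r.length = tog (!e) l.length := tog_congr _ hlr.symm
  rw [e0, blk_append, blk_append, List.length_append, tog_add, h2, ← h1, e1, ← h3]
  simp

end Pool.Agent.Lib.MP_b02441_al.U
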