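import Pool.Agent.Lib.MP_b02441_al.U.Sep

/-!
# The collapsing case (for MP_b02441_al, undecidability)
-/

set_option autoImplicit false
set_option linter.unusedVariables false

namespace Pool.Agent.Lib.MP_b02441_al.U

open Pool.Agent.Lib.MP_b02441_al

/-- a step of the machine, in one of the two directions -/
def Sy {α : Type} (R : Set (List α × List α)) (z z' : List α) : Prop :=
  ∃ p ∈ R, ∃ a b : List α, a ≠ [] ∧ b ≠ [] ∧
    ((z = a ++ p.1 ++ b ∧ z' = a ++ p.2 ++ b) ∨ (z = a ++ p.2 ++ b ∧ z' = a ++ p.1 ++ b))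

/-- the variety in which the word itself is zero -/
def VB (J : ℕ) (R : Set (List ℕ × List ℕ)) (H : Set (List ℕ)) (z0 : List ℕ) : Set (Word × Word) :=
  withZeros (IE J R) (HZ J H ∪ {toW (blk lt false z0)})

section

variable {J : ℕ} {E : Set (Word × Word)}

theorem blk_fl {J : ℕ} (hJ : 4 ≤ J) {a b l : List ℕ} (ha : a ≠ []) (hb : b ≠ [])
    (ha' : ∀ n ∈ a, J ≤ n) (hb' : ∀ n ∈ b, J ≤ n) (hp : ∀ (k : ℕ), k % 2 = l.length % 2 → True) :
    ∃ (e : Bool) (p : List ℕ), ∀ l' : List ℕ, l'.length % 2 = l.length % 2 →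
      ∃ q : List ℕ, (∀ l'' : List ℕ, l''.length % 2 = l.length % 2 →
        blk lt false (a ++ l'' ++ b) = p ++ (fl J l'').flatMap (fun x => lt (xor (x == 1) e)) ++ q)
      := by
  rcases List.eq_nil_or_concat a with rfl | ⟨a0, n, rfl⟩
  · exact absurd rfl ha
  rw [List.concat_eq_append] at *
  cases b with
  | nil => exact absurd rfl hb
  | cons m b0 =>
    have hn : J ≤ n := ha' n (by simp)
    have hm : J ≤ m := hb' m (by simp)
    set e : Bool := tog false a0.length with he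
    refine ⟨e, blk lt false a0 ++ rep (n - J) (lt e), fun l' hl' =>
      ⟨rep (m - J) (lt (tog (!e) l.length)) ++ blk lt (!(tog (!e) l.length)) b0,
        fun l'' hl'' => ?_⟩⟩
    have h1 : (fl J l'').flatMap (fun x => lt (xor (x == 1) e)) =
        rep J (lt e) ++ blk lt (!e) l'' ++ rep J (lt (tog (!e) l.length)) := by
      rw [fl, blk_flatMap]
      have h2 : ∀ b, (lt b).flatMap (fun x => lt (xor (x == 1) e)) = lt (xor b e) := by
        intro b; cases b <;> cases e <;> rfl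
      rw [blk_congr h2, blk_xor, Bool.false_xor, blk_append, blk_append, blk_singleton,
        blk_singleton]
      have h3 : tog e ([J] ++ l'').length = tog (!e) l.length := by
        rw [List.length_append, tog_add]
        exact tog_congr _ hl''
      rw [h3]
      rfl
    have h8 : tog false (a0 ++ [n]).length = !e := by
      rw [List.length_append, tog_add]; rfl
    have h9 : tog false (a0 ++ [n] ++ l'').length = tog (!e) l.length := by
      rw [List.length_append, tog_add, h8]; exact tog_congr _ hl''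
    rw [h1, blk_append, h9, blk_append, h8, blk_append, blk_singleton, ← he, blk]
    have h5 : rep n (lt e) = rep (n - J) (lt e) ++ rep J (lt e) := by
      rw [← rep_add]; congr 1; omega
    have h6 : rep m (lt (tog (!e) l.length)) = rep J (lt (tog (!e) l.length)) ++
        rep (m - J) (lt (tog (!e) l.length)) := by
      rw [← rep_add]; congr 1; omega
    rw [h5, h6]
    simp only [List.append_assoc]

theorem lt_sub_ne (e : Bool) (x : ℕ) : lt (xor (x == 1) e) ≠ [] := lt_ne _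

/-- a step of the machine is an identity of the variety -/
theorem RE_step (hJ : 4 ≤ J) {R : Set (List ℕ × List ℕ)}
    (hR : ∀ p ∈ R, p.1 ≠ [] ∧ p.2 ≠ [] ∧ p.1.length % 2 = p.2.length % 2 ∧
      (∀ n ∈ p.1, J ≤ n) ∧ ∀ n ∈ p.2, J ≤ n) (hE : IE J R ⊆ E)
    {a b l r : List ℕ} (hp : (l, r) ∈ R) (ha : a ≠ []) (hb : b ≠ [])
    (ha' : ∀ n ∈ a, J ≤ n) (hb' : ∀ n ∈ b, J ≤ n) :
    RE E (blk lt false (a ++ l ++ b)) (blk lt false (a ++ r ++ b)) := by
  obtain ⟨h1, h2, h3, h4, h5⟩ := hR _ hp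
  dsimp only at h1 h2 h3 h4 h5
  obtain ⟨e, p, h6⟩ := blk_fl (l := l) hJ ha hb ha' hb' fun _ _ => trivial
  obtain ⟨q, h7⟩ := h6 l rfl
  rw [h7 l rfl, h7 r h3.symm]
  refine (RE_fic E).app _ _ ((RE_fic E).sub _ (lt_sub_ne e) ?_)
  rw [← toL_toW (fl_ne hJ h4), ← toL_toW (fl_ne hJ h5), RE_toL]
  intro S _ hS
  exact hS _ (hE ⟨(l, r), hp, rfl⟩)

theorem RE_chain (hJ : 4 ≤ J) {R : Set (List ℕ × List ℕ)}
    (hR : ∀ p ∈ R, p.1 ≠ [] ∧ p.2 ≠ [] ∧ p.1.length % 2 = p.2.length % 2 ∧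
      (∀ n ∈ p.1, J ≤ n) ∧ ∀ n ∈ p.2, J ≤ n) (hE : IE J R ⊆ E) {z z' : List ℕ}
    (hz : ∀ n ∈ z, J ≤ n) (h : Relation.ReflTransGen (Sy R) z z') :
    RE E (blk lt false z) (blk lt false z') ∧ ∀ n ∈ z', J ≤ n := by
  induction h with
  | refl => exact ⟨(RE_fic E).refl _, hz⟩
  | tail _ h ih =>
    obtain ⟨ih1, ih2⟩ := ih
    obtain ⟨⟨l, r⟩, hp, a, b, ha, hb, h⟩ := h
    obtain ⟨h1, h2, h3, h4, h5⟩ := hR _ hp
    dsimp only at h1 h2 h3 h4 h5 h
    rcases h with ⟨e1, e2⟩ | ⟨e1, e2⟩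
    · rw [e1] at ih2
      have ha' : ∀ n ∈ a, J ≤ n := fun n hn => ih2 n (by simp [hn])
      have hb' : ∀ n ∈ b, J ≤ n := fun n hn => ih2 n (by simp [hn])
      refine ⟨(RE_fic E).trans ih1 ?_, ?_⟩
      · rw [e1, e2]
        exact RE_step hJ hR hE hp ha hb ha' hb'
      · rw [e2]
        intro n hn
        simp only [List.mem_append] at hn
        rcases hn with (hn | hn) | hn
        · exact ha' n hn
        · exact h5 n hn
        · exact hb' n hn
    · rw [e1] at ih2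
      have ha' : ∀ n ∈ a, J ≤ n := fun n hn => ih2 n (by simp [hn])
      have hb' : ∀ n ∈ b, J ≤ n := fun n hn => ih2 n (by simp [hn])
      refine ⟨(RE_fic E).trans ih1 ?_, ?_⟩
      · rw [e1, e2]
        exact (RE_fic E).symm (RE_step hJ hR hE hp ha hb ha' hb')
      · rw [e2]
        intro n hn
        simp only [List.mem_append] at hn
        rcases hn with (hn | hn) | hn
        · exact ha' n hn
        · exact h4 n hn
        · exact hb' n hn

end

/-- the value of the word is zero in the variety -/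
theorem value_zero {J : ℕ} (hJ : 4 ≤ J) {R : Set (List ℕ × List ℕ)} {H : Set (List ℕ)}
    {z0 : List ℕ} (hR : ∀ p ∈ R, p.1 ≠ [] ∧ p.2 ≠ [] ∧ p.1.length % 2 = p.2.length % 2 ∧
      (∀ n ∈ p.1, J ≤ n) ∧ ∀ n ∈ p.2, J ≤ n)
    (hH : ∀ h ∈ H, h ≠ [] ∧ ∀ n ∈ h, J ≤ n) (hz0 : ∀ n ∈ z0, J ≤ n)
    {a b h : List ℕ} (ha : a ≠ []) (hb : b ≠ []) (hh : h ∈ H)
    (hch : Relation.ReflTransGen (Sy R) z0 (a ++ h ++ b)) {S : Type} [Semigroup S]
    (hS : Mem (VA J R H z0) S) (φ : Word →ₙ* S) (s : S) :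
    (ev (fun i => φ (FreeSemigroup.of i)) (blk lt false z0)) * (s : WithOne S) =
      ev (fun i => φ (FreeSemigroup.of i)) (blk lt false z0) ∧
    (s : WithOne S) * (ev (fun i => φ (FreeSemigroup.of i)) (blk lt false z0)) =
      ev (fun i => φ (FreeSemigroup.of i)) (blk lt false z0) := by
  obtain ⟨h1, h2⟩ := RE_chain (E := VA J R H z0) hJ hR Set.subset_union_left hz0 hch
  have ha' : ∀ n ∈ a, J ≤ n := fun n hn => h2 n (by simp [hn])
  have hb' : ∀ n ∈ b, J ≤ n := fun n hn => h2 n (by simp [hn])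
  obtain ⟨e, p, h3⟩ := blk_fl (l := h) hJ ha hb ha' hb' fun _ _ => trivial
  obtain ⟨q, h4⟩ := h3 h rfl
  set f : ℕ → S := fun i => φ (FreeSemigroup.of i) with hf
  have hZ : toW (fl J h) ∈ HZ J H ∪ {toW (blk σ1 false z0), toW (blk σ3 false z0)} :=
    Or.inl ⟨h, hh, rfl⟩
  obtain ⟨z, hz1, hz2⟩ := exists_zero hZ hS φ
  choose g hg using fun x => ev_exists f (lt_sub_ne e x)
  have h5 : ev f ((fl J h).flatMap (fun x => lt (xor (x == 1) e))) = (z : WithOne S) := by
    rw [ev_flatMap f g _ fun x _ => hg x, ← toL_toW (fl_ne hJ (hH h hh).2), ev_lift, hz1]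
  have h6 : ∀ t : WithOne S, t * (z : WithOne S) = z ∧ (z : WithOne S) * t = z := by
    intro t
    rcases eq_or_ne t 1 with rfl | ht
    · simp
    · obtain ⟨t', rfl⟩ := WithOne.ne_one_iff_exists.1 ht
      rw [← WithOne.coe_mul, ← WithOne.coe_mul, (hz2 t').1, (hz2 t').2]
      exact ⟨rfl, rfl⟩
  have h7 : ev f (blk lt false z0) = (z : WithOne S) := by
    rw [h1 S hS f, h4 h rfl, ev_append, ev_append, h5, (h6 _).1, (h6 _).2]
  rw [h7, (h6 _).1, (h6 _).2]
  exact ⟨rfl, rfl⟩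

/-- the two varieties are equal in the collapsing case -/
theorem mem_iff {J : ℕ} (hJ : 4 ≤ J) {R : Set (List ℕ × List ℕ)} {H : Set (List ℕ)}
    {z0 : List ℕ} (hR : ∀ p ∈ R, p.1 ≠ [] ∧ p.2 ≠ [] ∧ p.1.length % 2 = p.2.length % 2 ∧
      (∀ n ∈ p.1, J ≤ n) ∧ ∀ n ∈ p.2, J ≤ n)
    (hH : ∀ h ∈ H, h ≠ [] ∧ ∀ n ∈ h, J ≤ n) (hz0 : ∀ n ∈ z0, J ≤ n) (hz0' : z0 ≠ [])
    {a b h : List ℕ} (ha : a ≠ []) (hb : b ≠ []) (hh : h ∈ H)
    (hch : Relation.ReflTransGen (Sy R) z0 (a ++ h ++ b)) (S : Type) [Semigroup S] :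
    Mem (VA J R H z0) S ↔ Mem (VB J R H z0) S := by
  have hn' : ∀ n ∈ z0, 1 ≤ n := fun n h => by have := hz0 n h; omega
  have hw0 : toL (toW (blk lt false z0)) = blk lt false z0 := toL_toW (blk_ne lt_ne hn' hz0')
  constructor
  · rintro hS e (he | ⟨w, hw | hw, y, hy, he⟩)
    · exact hS e (Or.inl he)
    · exact hS e (Or.inr ⟨w, Or.inl hw, y, hy, he⟩)
    · have hw' : w = toW (blk lt false z0) := hw
      subst hw'
      intro φ
      have h1 := value_zero hJ hR hH hz0 ha hb hh hch hS φ (φ (FreeSemigroup.of y))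
      rw [← hw0, ev_toL, ← WithOne.coe_mul, ← WithOne.coe_mul, WithOne.coe_inj, WithOne.coe_inj]
        at h1
      rcases he with rfl | rfl
      · change φ (_ * _) = φ _
        rw [map_mul, h1.1]
      · change φ (_ * _) = φ _
        rw [map_mul, h1.2]
  · intro hS
    have hZ : toW (blk lt false z0) ∈ HZ J H ∪ {toW (blk lt false z0)} := Or.inr rfl
    -- all instances of the word are zero
    have key : ∀ (φ : Word →ₙ* S) (σ : Bool → List ℕ), (∀ b, σ b ≠ []) → ∀ t : S,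
        φ (toW (blk σ false z0)) * t = φ (toW (blk σ false z0)) ∧
        t * φ (toW (blk σ false z0)) = φ (toW (blk σ false z0)) := by
      intro φ σ hσ t
      obtain ⟨z, hz1, hz2⟩ := exists_zero hZ hS φ
      set f : ℕ → S := fun i => φ (FreeSemigroup.of i) with hf
      set τ : ℕ → List ℕ := fun x => σ (x == 1) with hτ
      have hτ' : ∀ x, τ x ≠ [] := fun x => hσ _
      choose g hg using fun x => ev_exists f (hτ' x)
      have h1 : blk σ false z0 = (blk lt false z0).flatMap τ := by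
        rw [blk_flatMap]
        refine blk_congr (fun b => ?_) _ _
        cases b <;> simp [lt, hτ]
      have h2 : ev f (blk σ false z0) = (z : WithOne S) := by
        rw [h1, ev_flatMap f g _ fun x _ => hg x, ← hw0, ev_lift, hz1]
      have h3 : (φ (toW (blk σ false z0)) : WithOne S) = z := by
        rw [← ev_toL, toL_toW (blk_ne hσ hn' hz0')]
        exact h2
      rw [WithOne.coe_inj] at h3
      rw [h3]
      exact hz2 t
    rintro e (he | ⟨w, hw | hw | hw, y, hy, he⟩)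
    · exact hS e (Or.inl he)
    · exact hS e (Or.inr ⟨w, Or.inl hw, y, hy, he⟩)
    · subst hw
      intro φ
      have h1 := key φ σ1 (fun b => by cases b <;> simp [σ1]) (φ (FreeSemigroup.of y))
      rcases he with rfl | rfl
      · change φ (_ * _) = φ _
        rw [map_mul, h1.1]
      · change φ (_ * _) = φ _
        rw [map_mul, h1.2]
    · have hw' : w = toW (blk σ3 false z0) := hw
      subst hw'
      intro φ
      have h1 := key φ σ3 (fun b => by simp [σ3]) (φ (FreeSemigroup.of y))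
      rcases he with rfl | rfl
      · change φ (_ * _) = φ _
        rw [map_mul, h1.1]
      · change φ (_ * _) = φ _
        rw [map_mul, h1.2]

/-! ### locked words -/

theorem double_mem {z : List ℕ} (hz : ∀ n ∈ z, 2 ≤ n) {s : Bool} {x : ℕ} (h : x ∈ blk lt s z) :
    ∃ a b, blk lt s z = a ++ x :: x :: b := by
  induction z generalizing s with
  | nil => simp [blk] at h
  | cons n z ih =>
    obtain ⟨k, rfl⟩ : ∃ k, n = k + 2 := ⟨n - 2, by have := hz n List.mem_cons_self; omega⟩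
    rw [blk_lt_cons] at h ⊢
    rcases List.mem_append.1 h with h | h
    · rw [(List.mem_replicate.1 h).2]
      exact ⟨[], List.replicate k s.toNat ++ blk lt (!s) z, by
        rw [List.replicate_succ, List.replicate_succ]; rfl⟩
    · obtain ⟨a, b, h1⟩ := ih (fun m hm => hz m (List.mem_cons_of_mem _ hm)) h
      exact ⟨List.replicate (k + 2) s.toNat ++ a, b, by rw [h1, List.append_assoc]⟩

theorem locked_blk {z : List ℕ} (hz : ∀ n ∈ z, 2 ≤ n) (hne : z ≠ []) (s : Bool) :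
    Locked (toW (blk lt s z)) := by
  have h1 : toL (toW (blk lt s z)) = blk lt s z :=
    toL_toW (blk_ne lt_ne (fun n hn => by have := hz n hn; omega) hne)
  intro x hx
  rw [h1] at hx
  obtain ⟨a, b, h2⟩ := double_mem hz hx
  exact Relation.EqvGen.rel _ _ ⟨x, x, a, b, by rw [h1, h2], rfl, rfl⟩

theorem mem_blk_two {z : List ℕ} (hz : ∀ n ∈ z, 1 ≤ n) {n1 n2 : ℕ} {r : List ℕ}
    (h : z = n1 :: n2 :: r) (x : ℕ) : x ∈ blk lt false z ↔ x = 0 ∨ x = 1 := by
  constructor
  · intro hx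
    obtain ⟨b, rfl⟩ := mem_blk_lt hx
    cases b <;> simp
  · subst h
    obtain ⟨k, rfl⟩ : ∃ k, n1 = k + 1 := ⟨n1 - 1, by have := hz n1 (by simp); omega⟩
    obtain ⟨m, rfl⟩ : ∃ k, n2 = k + 1 := ⟨n2 - 1, by have := hz n2 (by simp); omega⟩
    rw [blk_lt_cons, blk_lt_cons]
    rintro (rfl | rfl)
    · simp
    · simp

/-- **the collapsing case** -/
theorem inclEquiv_B {J : ℕ} (hJ : 4 ≤ J) {R : Set (List ℕ × List ℕ)} {H : Set (List ℕ)}
    {z0 : List ℕ} (hR : ∀ p ∈ R, p.1 ≠ [] ∧ p.2 ≠ [] ∧ p.1.length % 2 = p.2.length % 2 ∧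
      (∀ n ∈ p.1, J ≤ n) ∧ ∀ n ∈ p.2, J ≤ n)
    (hH : ∀ h ∈ H, h ≠ [] ∧ ∀ n ∈ h, J ≤ n) (hz0 : ∀ n ∈ z0, J ≤ n)
    (hz0' : ∃ n1 n2 r, z0 = n1 :: n2 :: r)
    {a b h : List ℕ} (ha : a ≠ []) (hb : b ≠ []) (hh : h ∈ H)
    (hch : Relation.ReflTransGen (Sy R) z0 (a ++ h ++ b)) :
    ∀ m n : ℕ, 10 ≤ m → 10 ≤ n → InclEquiv (Fr (VA J R H z0) m) (Fr (VA J R H z0) n) := by
  obtain ⟨n1, n2, r, hz0''⟩ := hz0'
  have hne : z0 ≠ [] := by rw [hz0'']; simp
  have hfl : ∀ l : List ℕ, (∀ n ∈ l, J ≤ n) → ∀ n ∈ ([J] ++ l ++ [J] : List ℕ), 2 ≤ n := by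
    intro l hl n hn
    simp only [List.mem_append, List.mem_singleton] at hn
    rcases hn with (h | h) | h
    · omega
    · have := hl n h; omega
    · omega
  have hsame : ∀ l r : List ℕ, l ≠ [] → r ≠ [] → (∀ n ∈ l, J ≤ n) → (∀ n ∈ r, J ≤ n) →
      SameLetters (toW (fl J l)) (toW (fl J r)) := by
    intro l r hl hr hl' hr' i
    have h1 : ∀ l : List ℕ, l ≠ [] → (∀ n ∈ l, J ≤ n) → (i ∈ toL (toW (fl J l)) ↔ i = 0 ∨ i = 1) := by
      intro l hl hl'
      rw [toL_toW (fl_ne hJ hl')]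
      cases l with
      | nil => exact absurd rfl hl
      | cons m l =>
        exact mem_blk_two (fun n hn => by have := hfl _ hl' n hn; omega)
          (n1 := J) (n2 := m) (r := l ++ [J]) rfl i
    rw [h1 l hl hl', h1 r hr hr']
  have hsq := separated_sq_iff (E := IE J R) (Z := HZ J H ∪ {toW (blk lt false z0)}) (by
    rintro e ⟨⟨l, r⟩, hp, rfl⟩
    obtain ⟨h1, h2, h3, h4, h5⟩ := hR _ hp
    exact Or.inl ⟨locked_blk (hfl _ h4) (by simp) _, locked_blk (hfl _ h5) (by simp) _,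
      hsame _ _ h1 h2 h4 h5⟩) (by
    rintro w (⟨h, hh, rfl⟩ | hw)
    · exact locked_blk (hfl _ (hH h hh).2) (by simp) _
    · have hw' : w = toW (blk lt false z0) := hw
      subst hw'
      exact locked_blk (fun n hn => by have := hz0 n hn; omega) hne _)
  have h1 : ¬ Separated (VB J R H z0) := by
    intro h
    have h2 := (hsq.1.1 h).1
    have h3 : toW (blk lt false z0) ∈ (∅ : Set Word) := by
      rw [← h2]; exact Or.inr rfl
    exact h3
  intro m n hm hn
  exact inclEquiv_congr (fun S _ => mem_iff hJ hR hH hz0 hne ha hb hh hch S) (hsq.2 h1 m n hm hn)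

end Pool.Agent.Lib.MP_b02441_al.U
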