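import Pool.Agent.Lib.MP_b02441_al.U.SpecC

/-!
# Primitive recursion of the block words and of the start word (for MP_b02441_al)
-/

set_option autoImplicit false

namespace Pool.Agent.Lib.MP_b02441_al.U

private theorem cp_rep (c2 : List ℕ) : Primrec fun x : ℕ => rep x c2 := by
  have h : Primrec fun x : ℕ => Nat.rec (motive := fun _ => List ℕ) []
      (fun _ l => c2 ++ l) x :=
    Primrec.nat_rec₁ (f := fun _ l => c2 ++ l) []
      (Primrec.list_append.comp (Primrec.const c2) Primrec.snd)
  refine h.of_eq fun x => ?_
  induction x with
  | zero => rfl
  | succ x ih =>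
    rw [rep_succ, ← ih]

private theorem cp_fold (σ : Bool → List ℕ) (s : Bool) (z : List ℕ) :
    z.foldr (fun n p => (rep n (σ s) ++ p.2, rep n (σ !s) ++ p.1)) (([] : List ℕ), ([] : List ℕ)) =
      (blk σ s z, blk σ (!s) z) := by
  induction z with
  | nil => rfl
  | cons n z ih =>
    rw [List.foldr_cons, ih, blk, blk, Bool.not_not]

theorem primrec_blk : S_blk := by
  intro σ
  have hstep : Primrec₂ (fun (_ : List ℕ) (q : ℕ × (List ℕ × List ℕ)) =>
      ((rep q.1 (σ false) ++ q.2.2, rep q.1 (σ !false) ++ q.2.1) : List ℕ × List ℕ)) := by
    have h1 : Primrec (fun q : List ℕ × (ℕ × (List ℕ × List ℕ)) => q.2.1) :=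
      Primrec.fst.comp Primrec.snd
    have h2 : Primrec (fun q : List ℕ × (ℕ × (List ℕ × List ℕ)) => q.2.2.2) :=
      Primrec.snd.comp (Primrec.snd.comp Primrec.snd)
    have h3 : Primrec (fun q : List ℕ × (ℕ × (List ℕ × List ℕ)) => q.2.2.1) :=
      Primrec.fst.comp (Primrec.snd.comp Primrec.snd)
    exact Primrec.pair
      (Primrec.list_append.comp ((cp_rep (σ false)).comp h1) h2)
      (Primrec.list_append.comp ((cp_rep (σ !false)).comp h1) h3)
  have h := Primrec.list_foldr (f := fun z : List ℕ => z)
    (g := fun _ : List ℕ => (([] : List ℕ), ([] : List ℕ))) Primrec.id (Primrec.const _) hstep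
  refine (Primrec.fst.comp h).of_eq fun z => ?_
  exact congrArg Prod.fst (cp_fold σ false z)

private theorem cp_tt : Primrec tt := by
  have hg : Primrec₂ (fun (_ : Unit) (L : List Bool) =>
      (if L.length = 0 then some false else
        if L.length % 3 = 0 then some (L[L.length / 3]?.getD false)
        else some (decide (L.length % 3 = 2)) : Option Bool)) := by
    have hlen : Primrec (fun p : Unit × List Bool => p.2.length) :=
      Primrec.list_length.comp Primrec.snd
    have hmod : Primrec (fun p : Unit × List Bool => p.2.length % 3) :=
      Primrec.nat_mod.comp hlen (Primrec.const 3)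
    refine Primrec.ite (PrimrecRel.comp Primrec.eq hlen (Primrec.const 0)) (Primrec.const _) ?_
    refine Primrec.ite (PrimrecRel.comp Primrec.eq hmod (Primrec.const 0)) ?_ ?_
    · refine Primrec.option_some.comp ?_
      exact Primrec.option_getD.comp (Primrec.list_getElem?.comp Primrec.snd
        (Primrec.nat_div.comp hlen (Primrec.const 3))) (Primrec.const false)
    · refine Primrec.option_some.comp ?_
      exact (PrimrecRel.comp Primrec.eq hmod (Primrec.const 2)).decide
  have h := Primrec.nat_strong_rec (fun (_ : Unit) n => tt n) hg (by
    intro _ n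
    simp only [List.length_map, List.length_range]
    by_cases hn : n = 0
    · subst hn
      rw [if_pos rfl, tt_zero]
    · rw [if_neg hn]
      by_cases h3 : n % 3 = 0
      · rw [if_pos h3]
        have h1 : n / 3 < n := Nat.div_lt_self (Nat.pos_of_ne_zero hn) (by norm_num)
        rw [List.getElem?_map, List.getElem?_range h1]
        have h4 : tt n = tt (n / 3) := by
          conv_lhs => rw [show n = 3 * (n / 3) by omega]
          rw [tt_mul]
        rw [h4]
        rfl
      · rw [if_neg h3]
        rcases (by omega : n % 3 = 1 ∨ n % 3 = 2) with h5 | h5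
        · have h4 : tt n = false := by
            conv_lhs => rw [show n = 3 * (n / 3) + 1 by omega]
            rw [tt_one]
          rw [h4, h5]
          rfl
        · have h4 : tt n = true := by
            conv_lhs => rw [show n = 3 * (n / 3) + 2 by omega]
            rw [tt_two]
          rw [h4, h5]
          rfl)
  exact h.comp (Primrec.const ()) Primrec.id

theorem primrec_start : S_start := by
  intro code
  have hC : Primrec fun w : List Bool => (List.range w.length).map (fun i =>
      code (Sym.C (tt i, some (some (w.getD i false))))) := by
    refine Primrec.list_map (Primrec.list_range.comp Primrec.list_length) ?_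
    have h1 : Primrec (fun q : List Bool × ℕ => tt q.2) := cp_tt.comp Primrec.snd
    have h2 : Primrec (fun q : List Bool × ℕ => q.1.getD q.2 false) :=
      (Primrec.list_getD false).comp Primrec.fst Primrec.snd
    have h3 : Primrec₂ (fun b c : Bool => code (Sym.C (b, some (some c)))) :=
      Primrec.dom_bool₂ _
    exact h3.comp h1 h2
  have hE : Primrec fun w : List Bool => code (Sym.C (tt w.length, none)) := by
    have h3 : Primrec (fun b : Bool => code (Sym.C (b, none))) := Primrec.dom_bool _
    exact h3.comp (cp_tt.comp Primrec.list_length)
  have hall : Primrec fun w : List Bool =>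
      ([code Sym.X, code Sym.LL] ++ [code Sym.S]) ++
        (((List.range w.length).map (fun i =>
          code (Sym.C (tt i, some (some (w.getD i false))))) ++
          [code (Sym.C (tt w.length, none))]) ++ [code Sym.RR, code Sym.X]) := by
    refine Primrec.list_append.comp (Primrec.const _) ?_
    refine Primrec.list_append.comp ?_ (Primrec.const _)
    refine Primrec.list_append.comp hC ?_
    exact Primrec.list_cons.comp hE (Primrec.const [])
  refine hall.of_eq fun w => ?_
  simp [startSym, wd, startCells, List.map_append, Function.comp_def]

end Pool.Agent.Lib.MP_b02441_al.U
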