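import Pool.Agent.Lib.MP_b02441_al.U.Mach

/-!
# Statements on computability (for MP_b02441_al, undecidability)
-/

set_option autoImplicit false
set_option linter.unusedVariables false

namespace Pool.Agent.Lib.MP_b02441_al.U

open Pool.Agent.Lib.MP_b40757_lc (rule tagStep Reach Halts)

/-- the cells of the start word of the tag word `w` -/
def startCells (w : List Bool) : List Cell :=
  (List.range w.length).map (fun i => ((tt i, some (some (w.getD i false))) : Cell)) ++
    [(tt w.length, none)]

/-- the start word -/
def startSym (w : List Bool) : List Sym := wd Sym.S [] (startCells w)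

/-- PROOF. Both words of blocks are computed by one `foldr` over `z` with a pair of lists: for
`F z = z.foldr (fun n p => (rep n (σ s) ++ p.2, rep n (σ !s) ++ p.1)) ([], [])` one has
`F z = (blk σ s z, blk σ (!s) z)` (induction on `z`). `fun n => rep n X` is primitive recursive as
`Nat.rec [] (fun _ l => X ++ l) n` (`Primrec.nat_rec₁`, `rep_succ`; compare `Main_rep_primrec` in
`Pool/Agent/Lib/MP_b40757_lc/Main.lean`), then `Primrec.list_foldr`, `Primrec.list_append`,
`Primrec.pair`, `Primrec.fst`, `Primrec.snd`, `Primrec.const`. -/
def S_blk : Prop := ∀ σ : Bool → List ℕ, Primrec fun z : List ℕ => blk σ false z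

/-- PROOF. `tt` is primitive recursive by `Primrec.nat_strong_rec` (compare `primrec_f` in
`Pool/Agent/Lib/MP_b40757_lc/Source.lean`): with the list `L` of the values below `n`
(`L.length = n`) the value is `false` if `n = 0`, `L[n / 3]?.getD false` if `n % 3 = 0`, and
`decide (n % 3 = 2)` otherwise (`rw [tt]`). Then `fun w => (List.range w.length).map (fun i =>
code (Sym.C (tt i, some (some (w.getD i false)))))` is primitive recursive by `Primrec.list_map`,
`Primrec.list_range`, `Primrec.list_length`, `Primrec.list_getD`, and the finite function
`fun b c : Bool => code (Sym.C (b, some (some c)))` (`Primrec.dom_bool₂` or a case distinction with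
`Primrec.cond`); the remaining parts are constant lists and the value at `tt w.length`. -/
def S_start : Prop := ∀ code : Sym → ℕ, Primrec fun w : List Bool => (startSym w).map code

/-- PROOF. As `main` in `Pool/Agent/Lib/MP_b40757_lc/Main.lean`, with the halting predicate of
`Nat.Partrec.Code` in place of `source`. In `Source.lean` the proof of `source` gives, for the code
`c` chosen there (for the partial recursive function which halts on `n` if and only if the program
with number `n` halts on `0`): `h8 : ∀ n, M.Halts ν (q₀, start (f n)) ↔
(Nat.Partrec.Code.eval (Denumerable.ofNat Nat.Partrec.Code n) 0).Dom`, with `f` primitive recursive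
(use `Source.reduction ν hν c` as there, `ν = 3`). `main` turns this into
`Halts 3 [false] v (wd n) ↔ M.Halts 3 (q₀, start (f n))` with `wd` computable (`hH`). Compose with
`Encodable.encode : Nat.Partrec.Code → ℕ` (`Computable.encode`, `Denumerable.ofNat_encode`). Private
lemmas of `Main.lean` may be copied. -/
def S_src : Prop := ∃ (v : List Bool) (wd : Nat.Partrec.Code → List Bool), Computable wd ∧
  ∀ c : Nat.Partrec.Code, Halts 3 [false] v (wd c) ↔ (c.eval 0).Dom

end Pool.Agent.Lib.MP_b02441_al.U
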