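import Pool.Agent.Lib.MP_b02441_al.BddDefs

/-!
# Definitions for MP_b02441_al: finite lists of identities
-/

set_option autoImplicit false

namespace Pool.Agent.Lib.MP_b02441_al

/-- A semigroup identity, coded by natural numbers: the word `x_i x_{j_1} ⋯ x_{j_k}` is coded by
the pair `(i, [j_1, …, j_k])`. -/
abbrev Ident : Type := (ℕ × List ℕ) × (ℕ × List ℕ)

/-- The word with a given code. -/
def decW (c : ℕ × List ℕ) : Word := ⟨c.1, c.2⟩

/-- The set of identities in a finite list. -/
def idSet (L : List Ident) : Set (Word × Word) := {e | ∃ i ∈ L, e = (decW i.1, decW i.2)}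

/-- Only the letters `x_0, x_1, x_2, x_3` occur in the identities of the list. -/
def FourLetters (L : List Ident) : Prop :=
  ∀ i ∈ L, (∀ x ∈ i.1.1 :: i.1.2, x < 4) ∧ ∀ x ∈ i.2.1 :: i.2.2, x < 4

/-- The variety defined by the list consists of nil semigroups: for some `k`, the identities
`x ^ (k + 1) y = x ^ (k + 1) = y x ^ (k + 1)` hold. -/
def NilVar (L : List Ident) : Prop :=
  ∃ k : ℕ, Holds (idSet L) (powWord k * FreeSemigroup.of 1) (powWord k) ∧
    Holds (idSet L) (FreeSemigroup.of 1 * powWord k) (powWord k)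

end Pool.Agent.Lib.MP_b02441_al
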