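import Pool.Agent.Lib.MP_b02441_al.U.Fwd
import Pool.Agent.Lib.MP_b02441_al.U.SpecC
import Pool.Agent.Lib.MP_b02441_al.U.UDefs

/-!
# The reduction (for MP_b02441_al, undecidability)
-/

set_option autoImplicit false
set_option linter.unusedVariables false

namespace Pool.Agent.Lib.MP_b02441_al.U

open Pool.Agent.Lib.MP_b02441_al
open Pool.Agent.Lib.MP_b40757_lc (rule tagStep Reach Halts)

/-! ### exponents -/

/-- the smallest exponent -/
def JJ : ℕ := Fintype.card Sym

theorem four_le_JJ : 4 ≤ JJ := by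
  have : ∀ s ∈ ({Sym.X, Sym.LL, Sym.RR, Sym.S} : Finset Sym), s ∈ Finset.univ := fun s _ =>
    Finset.mem_univ s
  have h1 := Finset.card_le_card this
  have h2 : ({Sym.X, Sym.LL, Sym.RR, Sym.S} : Finset Sym).card = 4 := by decide
  rw [h2] at h1
  exact h1

/-- the exponent of a symbol -/
noncomputable def code (s : Sym) : ℕ := JJ + (Fintype.equivFin Sym s).val

theorem code_inj : Function.Injective code := by
  intro s t h
  unfold code at h
  have h1 : (Fintype.equivFin Sym s).val = (Fintype.equivFin Sym t).val := by omega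
  exact (Fintype.equivFin Sym).injective (Fin.ext h1)

theorem code_ge (s : Sym) : JJ ≤ code s := Nat.le_add_right _ _

theorem code_lt (s : Sym) : code s < 2 * JJ := by
  have h : (Fintype.equivFin Sym s).val < JJ := (Fintype.equivFin Sym s).isLt
  unfold code
  omega

theorem map_code_ge {l : List Sym} : ∀ n ∈ l.map code, JJ ≤ n := by
  intro n hn
  obtain ⟨s, _, rfl⟩ := List.mem_map.1 hn
  exact code_ge s

/-- the rules as lists of exponents -/
def RN (v0 : List Bool) : Set (List ℕ × List ℕ) :=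
  {p | ∃ l r, Rule v0 l r ∧ p = (l.map code, r.map code)}

/-- the halting words as lists of exponents -/
def HN : Set (List ℕ) := {h | ∃ s, Stop s ∧ h = s.map code}

/-- the good words as lists of exponents -/
def GN (v0 : List Bool) : Set (List ℕ) := {z | ∃ s ∈ GS v0, z = s.map code}

/-- the exponents of the start word -/
noncomputable def zst (w : List Bool) : List ℕ := (startSym w).map code

theorem rule_facts {v0 : List Bool} {l r : List Sym} (h : Rule v0 l r) :
    l ≠ [] ∧ r ≠ [] ∧ l.length % 2 = r.length % 2 ∧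
      l.length ≤ (prodc v0 true).length + (prodc v0 false).length + 4 ∧
      r.length ≤ (prodc v0 true).length + (prodc v0 false).length + 4 := by
  cases h with
  | wr m b μ hμ =>
    have h1 : (prodc v0 b).length ≤ (prodc v0 true).length + (prodc v0 false).length := by
      cases b <;> omega
    refine ⟨by simp, by simp, ?_, ?_, ?_⟩
    · simp only [List.length_append, List.length_map, List.length_zipWith, List.length_cons,
        List.length_nil]
      omega
    · simp only [List.length_append, List.length_map, List.length_cons, List.length_nil]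
      omega
    · simp only [List.length_append, List.length_zipWith, List.length_cons, List.length_nil]
      omega
  | _ =>
    refine ⟨by simp, by simp, ?_, ?_, ?_⟩ <;> simp only [List.length_cons, List.length_nil] <;>
      omega

theorem hRN {v0 : List Bool} : ∀ p ∈ RN v0, p.1 ≠ [] ∧ p.2 ≠ [] ∧
    p.1.length % 2 = p.2.length % 2 ∧ (∀ n ∈ p.1, JJ ≤ n) ∧ ∀ n ∈ p.2, JJ ≤ n := by
  rintro p ⟨l, r, h, rfl⟩
  obtain ⟨h1, h2, h3, -, -⟩ := rule_facts h
  refine ⟨by simpa using h1, by simpa using h2, by simpa using h3, map_code_ge, map_code_ge⟩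

theorem stop_ne {s : List Sym} (h : Stop s) : s ≠ [] := by
  cases h <;> simp

theorem split_map {z : List Sym} {α l β : List ℕ} {l' : List Sym}
    (h : α ++ l'.map code ++ β = z.map code) :
    ∃ a b, z = a ++ l' ++ b ∧ α = a.map code ∧ β = b.map code := by
  obtain ⟨z1, b, e1, e2, e3⟩ := List.map_eq_append_iff.1 h.symm
  obtain ⟨a, l2, e4, e5, e6⟩ := List.map_eq_append_iff.1 e2
  have h1 : l2 = l' := List.map_injective_iff.2 code_inj e6
  subst h1
  exact ⟨a, b, by rw [e1, e4], e5.symm, e3.symm⟩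

theorem hclN {v0 : List Bool} : ∀ p ∈ RN v0, ∀ α β : List ℕ, α ≠ [] → β ≠ [] →
    (α ++ p.1 ++ β ∈ GN v0 ↔ α ++ p.2 ++ β ∈ GN v0) := by
  rintro p ⟨l, r, h, rfl⟩ α β _ _
  dsimp only
  constructor
  · rintro ⟨z, hz, e⟩
    obtain ⟨a, b, rfl, rfl, rfl⟩ := split_map (l := []) e
    exact ⟨a ++ r ++ b, (closed_rule h a b).1 hz, by simp⟩
  · rintro ⟨z, hz, e⟩
    obtain ⟨a, b, rfl, rfl, rfl⟩ := split_map (l := []) e
    exact ⟨a ++ l ++ b, (closed_rule h a b).2 hz, by simp⟩

theorem hHN {v0 : List Bool} : ∀ h ∈ HN, h ≠ [] ∧ (∀ n ∈ h, JJ ≤ n) ∧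
    ∀ α β : List ℕ, α ≠ [] → β ≠ [] → α ++ h ++ β ∉ GN v0 := by
  rintro h ⟨s, hs, rfl⟩
  refine ⟨by simpa using stop_ne hs, map_code_ge, ?_⟩
  rintro α β _ _ ⟨z, hz, e⟩
  obtain ⟨a, b, rfl, rfl, rfl⟩ := split_map (l := []) e
  exact no_stop hs a b hz

theorem hGN {v0 : List Bool} : ∀ z ∈ GN v0, ∀ n ∈ z, JJ ≤ n ∧ n < 2 * JJ := by
  rintro z ⟨s, _, rfl⟩ n hn
  obtain ⟨t, _, rfl⟩ := List.mem_map.1 hn
  exact ⟨code_ge t, code_lt t⟩

theorem hcN {v0 : List Bool} : ∀ z ∈ GN v0, CubeFree z := by
  rintro z ⟨s, hs, rfl⟩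
  exact CubeFree.map code_inj (cubeFree_good hs)

/-! ### the start word -/

/-- the cells with the symbols -/
def symCells (w : List Bool) : List Cell :=
  (List.range w.length).map (fun i => ((tt i, some (some (w.getD i false))) : Cell))

theorem alls_symCells (w : List Bool) : alls (symCells w) := by
  intro x hx
  obtain ⟨i, _, rfl⟩ := List.mem_map.1 hx
  rfl

theorem sy_symCells (w : List Bool) : sy (symCells w) = w := by
  have h1 : sy (symCells w) = (List.range w.length).map fun i => w.getD i false := by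
    unfold sy symCells
    rw [List.filterMap_map]
    have : ((fun x : Cell => x.2.join) ∘ fun i => ((tt i, some (some (w.getD i false))) : Cell)) =
        fun i => some (w.getD i false) := rfl
    rw [this, List.filterMap_eq_map']
  rw [h1]
  apply List.ext_getElem
  · simp
  · intro i h2 h3
    simp [List.getD_eq_getElem?_getD, h3]

theorem mkr_symCells (w : List Bool) : mkr (symCells w) = seg 0 w.length := by
  unfold mkr symCells seg
  rw [List.map_map]
  refine List.map_congr_left fun i _ => ?_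
  simp

theorem start_good {v0 : List Bool} {w : List Bool} (h : ¬ Halts 3 [false] v0 w) :
    startSym w ∈ GS v0 := by
  refine ⟨Sym.S, [], startCells w, rfl, rfl, ?_, Or.inl ⟨by simp, ?_⟩, ?_⟩
  · have h1 := alls_symCells w
    change Sh ([] ++ (symCells w ++ [(tt w.length, none)]))
    rw [List.nil_append, Sh, List.pairwise_append]
    refine ⟨List.pairwise_of_forall_mem_list fun x hx y hy _ => h1 x hx, List.pairwise_singleton _ _,
      fun x hx y _ _ => h1 x hx⟩
  · change mkr [] ++ mkr (symCells w ++ [(tt w.length, none)]) = _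
    have h1 : (startCells w).length = w.length + 1 := by
      unfold startCells; simp
    rw [mkr_append, mkr_symCells, List.length_nil, Nat.zero_add, h1, seg_succ, Nat.zero_add]
    rfl
  · change NH v0 (sy [] ++ sy (symCells w ++ [(tt w.length, none)]))
    rw [sy_append, sy_symCells, sy_blank, sy_nil, List.append_nil, List.nil_append]
    exact h

theorem zst_two (w : List Bool) : ∃ n1 n2 r, zst w = n1 :: n2 :: r :=
  ⟨code Sym.X, code Sym.LL, _, rfl⟩

/-- the variety of a tag word -/
noncomputable def VV (v0 w : List Bool) : Set (Word × Word) := VA JJ (RN v0) HN (zst w)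

theorem separated_of_not_halts {v0 w : List Bool} (h : ¬ Halts 3 [false] v0 w) :
    Separated (VV v0 w) :=
  separated_A four_le_JJ (G := GN v0) ⟨startSym w, start_good h, rfl⟩ hGN hcN hRN hclN hHN
    (zst_two w)

theorem sy_map {v0 : List Bool} {z z' : List Sym} (h : Rw v0 z z') :
    Relation.ReflTransGen (Sy (RN v0)) (z.map code) (z'.map code) := by
  induction h with
  | refl => exact Relation.ReflTransGen.refl
  | tail _ h ih =>
    refine ih.tail ?_
    obtain ⟨⟨l, r⟩, hp, a, b, ha, hb, h⟩ := h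
    refine ⟨(l.map code, r.map code), ⟨l, r, hp, rfl⟩, a.map code, b.map code, by simpa using ha,
      by simpa using hb, ?_⟩
    rcases h with ⟨rfl, rfl⟩ | ⟨rfl, rfl⟩
    · exact Or.inl ⟨by simp, by simp⟩
    · exact Or.inr ⟨by simp, by simp⟩

theorem inclEquiv_of_halts {v0 w : List Bool} (h : Halts 3 [false] v0 w) :
    ∀ m n : ℕ, 10 ≤ m → 10 ≤ n → InclEquiv (Fr (VV v0 w) m) (Fr (VV v0 w) n) := by
  obtain ⟨A, s, B, hA, hB, hs, hrw⟩ := hlt_of_halts h (symCells w) [(tt w.length, none)]
    (alls_symCells w) (by intro x hx; rw [List.mem_singleton] at hx; rw [hx]) (by simp)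
    (sy_symCells w)
  have h1 := sy_map hrw
  rw [List.map_append, List.map_append] at h1
  exact inclEquiv_B four_le_JJ hRN (fun h hh => ⟨(hHN (v0 := v0) h hh).1, (hHN (v0 := v0) h hh).2.1⟩)
    (z0 := zst w) (fun n hn => map_code_ge n hn) (zst_two w) (by simpa using hA)
    (by simpa using hB) ⟨s, hs, rfl⟩ h1

/-! ### finite lists of identities -/

/-- the code of a word -/
def encW (l : List ℕ) : ℕ × List ℕ := (l.headD 0, l.tail)

theorem decW_encW (l : List ℕ) : decW (encW l) = toW l := rfl

/-- two identities which say that a word in the letters `x_0, x_1, x_2` is zero -/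
def zid (l : List ℕ) : List Ident := [(encW (l ++ [3]), encW l), (encW (3 :: l), encW l)]

/-- the identities which depend on the tag word -/
def AA (z : List ℕ) : List Ident := zid (blk σ1 false z) ++ zid (blk σ3 false z)

theorem toW_mul {l : List ℕ} (hl : l ≠ []) (x : ℕ) :
    toW (l ++ [x]) = toW l * FreeSemigroup.of x ∧ toW (x :: l) = FreeSemigroup.of x * toW l := by
  cases l with
  | nil => exact absurd rfl hl
  | cons y l => exact ⟨rfl, rfl⟩

/-- a word is zero if the two identities hold -/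
theorem zero_of_zid {l : List ℕ} (hl : l ≠ []) (h3 : 3 ∉ l) {S : Type} [Semigroup S]
    (h : ∀ i ∈ zid l, SatId S (decW i.1) (decW i.2)) (φ : Word →ₙ* S) (s : S) :
    φ (toW l) * s = φ (toW l) ∧ s * φ (toW l) = φ (toW l) := by
  classical
  let c : ℕ → S := fun j => if j = 3 then s else φ (FreeSemigroup.of j)
  have hc : FreeSemigroup.lift c (toW l) = φ (toW l) := by
    have h2 : ev c (toL (toW l)) = ev (fun j => φ (FreeSemigroup.of j)) (toL (toW l)) := by
      rw [toL_toW hl]
      refine ev_congr fun i hi => ?_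
      have hne : i ≠ 3 := by
        rintro rfl
        exact h3 hi
      exact if_neg hne
    rw [ev_lift, ev_toL, WithOne.coe_inj] at h2
    exact h2
  obtain ⟨e1, e2⟩ := toW_mul hl 3
  have g1 := h (encW (l ++ [3]), encW l) (by simp [zid]) (FreeSemigroup.lift c)
  have g2 := h (encW (3 :: l), encW l) (by simp [zid]) (FreeSemigroup.lift c)
  dsimp only at g1 g2
  rw [decW_encW, decW_encW] at g1 g2
  rw [e1, map_mul, hc, FreeSemigroup.lift_of] at g1
  rw [e2, map_mul, hc, FreeSemigroup.lift_of] at g2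
  simp only [c, if_true] at g1 g2
  exact ⟨g1, g2⟩

theorem mem_blk {σ : Bool → List ℕ} {s : Bool} {z : List ℕ} {x : ℕ} (h : x ∈ blk σ s z) :
    ∃ b, x ∈ σ b := by
  induction z generalizing s with
  | nil => simp [blk] at h
  | cons n z ih =>
    rw [blk, List.mem_append] at h
    rcases h with h | h
    · refine ⟨s, ?_⟩
      rw [rep, List.mem_flatten] at h
      obtain ⟨l, hl, hx⟩ := h
      rw [(List.mem_replicate.1 hl).2] at hx
      exact hx
    · exact ih h

theorem lt3_fl {l : List ℕ} {x : ℕ} (h : x ∈ fl JJ l) : x < 3 := by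
  obtain ⟨b, hb⟩ := mem_blk h
  cases b
  · have h1 : x = 0 := by simpa [lt] using hb
    omega
  · have h1 : x = 1 := by simpa [lt] using hb
    omega

theorem lt3_σ1 {z : List ℕ} {x : ℕ} (h : x ∈ blk σ1 false z) : x < 3 := by
  obtain ⟨b, hb⟩ := mem_blk h
  revert hb
  cases b
  · simp only [σ1, List.mem_cons, List.not_mem_nil, or_false]; omega
  · simp only [σ1, List.mem_singleton]; omega

theorem lt3_σ3 {z : List ℕ} {x : ℕ} (h : x ∈ blk σ3 false z) : x < 3 := by
  obtain ⟨b, hb⟩ := mem_blk h
  simp only [σ3, List.mem_singleton] at hb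
  omega

/-- all words of the zero identities -/
def ZL (z : List ℕ) : Set (List ℕ) :=
  {l | (∃ s, Stop s ∧ l = fl JJ (s.map code)) ∨ l = blk σ1 false z ∨ l = blk σ3 false z}

/-- the identities of the fixed part -/
def BS (v0 : List Bool) : Set Ident :=
  {i | (∃ l r, Rule v0 l r ∧ i = (encW (fl JJ (l.map code)), encW (fl JJ (r.map code)))) ∨
    ∃ s, Stop s ∧ i ∈ zid (fl JJ (s.map code))}

theorem BS_finite (v0 : List Bool) : (BS v0).Finite := by
  have h1 : {s : List Sym | s.length ≤ (prodc v0 true).length + (prodc v0 false).length + 4}.Finite :=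
    List.finite_length_le _ _
  have h2 : {s : List Sym | s.length ≤ 2}.Finite := List.finite_length_le _ _
  have h3 : BS v0 ⊆ ((fun p : List Sym × List Sym => ((encW (fl JJ (p.1.map code)),
      encW (fl JJ (p.2.map code))) : Ident)) ''
      ({s : List Sym | s.length ≤ (prodc v0 true).length + (prodc v0 false).length + 4} ×ˢ
        {s : List Sym | s.length ≤ (prodc v0 true).length + (prodc v0 false).length + 4})) ∪
      ⋃ s ∈ {s : List Sym | s.length ≤ 2}, {i | i ∈ zid (fl JJ (s.map code))} := by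
    rintro i (⟨l, r, h, rfl⟩ | ⟨s, hs, hi⟩)
    · obtain ⟨-, -, -, g1, g2⟩ := rule_facts h
      exact Or.inl ⟨(l, r), ⟨g1, g2⟩, rfl⟩
    · right
      rw [Set.mem_iUnion₂]
      refine ⟨s, ?_, hi⟩
      cases hs <;> simp
  refine Set.Finite.subset ((h1.prod h1).image _ |>.union ?_) h3
  exact h2.biUnion fun s _ => List.finite_toSet _

/-- the fixed list of identities -/
noncomputable def BL (v0 : List Bool) : List Ident := (BS_finite v0).toFinset.toList

theorem mem_BL {v0 : List Bool} {i : Ident} : i ∈ BL v0 ↔ i ∈ BS v0 := by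
  unfold BL
  rw [Finset.mem_toList, Set.Finite.mem_toFinset]

theorem zl_facts {z : List ℕ} (hz : ∀ n ∈ z, JJ ≤ n) (hne : z ≠ []) {l : List ℕ} (h : l ∈ ZL z) :
    l ≠ [] ∧ ∀ x ∈ l, x < 3 := by
  have hz1 : ∀ n ∈ z, 1 ≤ n := fun n hn => by have := hz n hn; have := four_le_JJ; omega
  rcases h with ⟨s, _, rfl⟩ | rfl | rfl
  · exact ⟨fl_ne four_le_JJ map_code_ge, fun x hx => lt3_fl hx⟩
  · exact ⟨blk_ne (fun b => by cases b <;> simp [σ1]) hz1 hne, fun x hx => lt3_σ1 hx⟩
  · exact ⟨blk_ne (fun b => by simp [σ3]) hz1 hne, fun x hx => lt3_σ3 hx⟩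

/-- the finite list defines the variety -/
theorem mem_list_iff {v0 : List Bool} {w : List Bool} (S : Type) [Semigroup S] :
    Mem (idSet (BL v0 ++ AA (zst w))) S ↔ Mem (VV v0 w) S := by
  have hz : ∀ n ∈ zst w, JJ ≤ n := map_code_ge
  have hne : zst w ≠ [] := by
    obtain ⟨n1, n2, r, h⟩ := zst_two w
    rw [h]; simp
  -- the zero words
  have hZ : ∀ u : Word, u ∈ HZ JJ HN ∪ {toW (blk σ1 false (zst w)), toW (blk σ3 false (zst w))} ↔
      ∃ l ∈ ZL (zst w), u = toW l := by
    intro u
    constructor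
    · rintro (⟨h, ⟨s, hs, rfl⟩, rfl⟩ | rfl | rfl)
      · exact ⟨_, Or.inl ⟨s, hs, rfl⟩, rfl⟩
      · exact ⟨_, Or.inr (Or.inl rfl), rfl⟩
      · exact ⟨_, Or.inr (Or.inr rfl), rfl⟩
    · rintro ⟨l, ⟨s, hs, rfl⟩ | rfl | rfl, rfl⟩
      · exact Or.inl ⟨s.map code, ⟨s, hs, rfl⟩, rfl⟩
      · exact Or.inr (Or.inl rfl)
      · exact Or.inr (Or.inr rfl)
  have hzid : ∀ l ∈ ZL (zst w), ∀ i ∈ zid l, i ∈ BL v0 ++ AA (zst w) := by
    intro l hl i hi
    rw [List.mem_append]
    rcases hl with ⟨s, hs, rfl⟩ | rfl | rfl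
    · exact Or.inl (mem_BL.2 (Or.inr ⟨s, hs, hi⟩))
    · exact Or.inr (List.mem_append_left _ hi)
    · exact Or.inr (List.mem_append_right _ hi)
  constructor
  · rintro hS e (he | ⟨u, hu, y, hy, he⟩)
    · obtain ⟨p, ⟨l, r, hr, rfl⟩, rfl⟩ := he
      exact hS _ ⟨(encW (fl JJ (l.map code)), encW (fl JJ (r.map code))),
        List.mem_append_left _ (mem_BL.2 (Or.inl ⟨l, r, hr, rfl⟩)), rfl⟩
    · obtain ⟨l, hl, rfl⟩ := (hZ u).1 hu
      obtain ⟨h1, h2⟩ := zl_facts hz hne hl
      have h3 : 3 ∉ l := fun h => by have := h2 3 h; omega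
      intro φ
      have h4 := zero_of_zid (S := S) h1 h3 (fun i hi => hS _ ⟨i, hzid l hl i hi, rfl⟩) φ
        (φ (FreeSemigroup.of y))
      rcases he with rfl | rfl
      · change φ (_ * _) = φ _
        rw [map_mul, h4.1]
      · change φ (_ * _) = φ _
        rw [map_mul, h4.2]
  · rintro hS e ⟨i, hi, rfl⟩
    -- an identity from a zero word
    have key : ∀ l ∈ ZL (zst w), ∀ i ∈ zid l, SatId S (decW i.1) (decW i.2) := by
      intro l hl i hi φ
      obtain ⟨h1, h2⟩ := zl_facts hz hne hl
      obtain ⟨e1, e2⟩ := toW_mul h1 3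
      obtain ⟨z, hz1, hz2⟩ := exists_zero ((hZ (toW l)).2 ⟨l, hl, rfl⟩) hS φ
      simp only [zid, List.mem_cons, List.not_mem_nil, or_false] at hi
      rcases hi with rfl | rfl
      · dsimp only
        rw [decW_encW, decW_encW, e1, map_mul, hz1, (hz2 _).1]
      · dsimp only
        rw [decW_encW, decW_encW, e2, map_mul, hz1, (hz2 _).2]
    rcases List.mem_append.1 hi with hi | hi
    · rcases mem_BL.1 hi with ⟨l, r, hr, rfl⟩ | ⟨s, hs, hi⟩
      · exact hS _ (Or.inl ⟨(l.map code, r.map code), ⟨l, r, hr, rfl⟩, rfl⟩)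
      · exact key _ (Or.inl ⟨s, hs, rfl⟩) i hi
    · rcases List.mem_append.1 hi with hi | hi
      · exact key _ (Or.inr (Or.inl rfl)) i hi
      · exact key _ (Or.inr (Or.inr rfl)) i hi

theorem separated_congr {E F : Set (Word × Word)}
    (h : ∀ (S : Type) [Semigroup S], Mem E S ↔ Mem F S) : Separated E ↔ Separated F := by
  constructor
  · intro hE m n hm hn hmn he
    exact hE m n hm hn hmn (inclEquiv_congr h he)
  · intro hF m n hm hn hmn he
    exact hF m n hm hn hmn (inclEquiv_congr (fun S _ => (h S).symm) he)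

theorem encW_mem {l : List ℕ} (hl : l ≠ []) : (encW l).1 :: (encW l).2 = l := by
  cases l with
  | nil => exact absurd rfl hl
  | cons x l => rfl

theorem fourLetters {v0 w : List Bool} : FourLetters (BL v0 ++ AA (zst w)) := by
  have hz : ∀ n ∈ zst w, JJ ≤ n := map_code_ge
  have hne : zst w ≠ [] := by
    obtain ⟨n1, n2, r, h⟩ := zst_two w
    rw [h]; simp
  have key : ∀ l ∈ ZL (zst w), ∀ i ∈ zid l,
      (∀ x ∈ i.1.1 :: i.1.2, x < 4) ∧ ∀ x ∈ i.2.1 :: i.2.2, x < 4 := by
    intro l hl i hi
    obtain ⟨h1, h2⟩ := zl_facts hz hne hl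
    simp only [zid, List.mem_cons, List.not_mem_nil, or_false] at hi
    rcases hi with rfl | rfl
    · dsimp only
      rw [encW_mem (by simp), encW_mem h1]
      refine ⟨fun x hx => ?_, fun x hx => by have := h2 x hx; omega⟩
      rcases List.mem_append.1 hx with hx | hx
      · have := h2 x hx; omega
      · rw [List.mem_singleton] at hx; omega
    · dsimp only
      rw [encW_mem (by simp), encW_mem h1]
      refine ⟨fun x hx => ?_, fun x hx => by have := h2 x hx; omega⟩
      rcases List.mem_cons.1 hx with hx | hx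
      · omega
      · have := h2 x hx; omega
  intro i hi
  rcases List.mem_append.1 hi with hi | hi
  · rcases mem_BL.1 hi with ⟨l, r, hr, rfl⟩ | ⟨s, hs, hi⟩
    · dsimp only
      rw [encW_mem (fl_ne four_le_JJ map_code_ge), encW_mem (fl_ne four_le_JJ map_code_ge)]
      exact ⟨fun x hx => by have := lt3_fl hx; omega, fun x hx => by have := lt3_fl hx; omega⟩
    · exact key _ (Or.inl ⟨s, hs, rfl⟩) i hi
  · rcases List.mem_append.1 hi with hi | hi
    · exact key _ (Or.inr (Or.inl rfl)) i hi
    · exact key _ (Or.inr (Or.inr rfl)) i hi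

theorem blk_σ3 (s : Bool) (z : List ℕ) : blk σ3 s z = List.replicate z.sum 0 := by
  induction z generalizing s with
  | nil => rfl
  | cons n z ih =>
    rw [blk, ih, σ3, rep_singleton, ← List.replicate_add, List.sum_cons]

theorem nilVar {v0 w : List Bool} : NilVar (BL v0 ++ AA (zst w)) := by
  have h0 := four_le_JJ
  obtain ⟨k, hk⟩ : ∃ k, (zst w).sum = k + 1 := by
    obtain ⟨n1, n2, r, h⟩ := zst_two w
    have h1 : JJ ≤ n1 := map_code_ge (l := startSym w) n1 (by
      have : (startSym w).map code = n1 :: n2 :: r := h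
      rw [this]; simp)
    refine ⟨(zst w).sum - 1, ?_⟩
    rw [h, List.sum_cons]
    omega
  have h1 : toW (blk σ3 false (zst w)) = powWord k := by
    rw [blk_σ3, hk]; rfl
  have key : ∀ (S : Type) [Semigroup S], Mem (idSet (BL v0 ++ AA (zst w))) S →
      ∀ φ : Word →ₙ* S, ∀ s : S, φ (powWord k) * s = φ (powWord k) ∧
        s * φ (powWord k) = φ (powWord k) := by
    intro S _ hS φ s
    have hS' := (mem_list_iff S).1 hS
    have hmem : powWord k ∈ HZ JJ HN ∪ {toW (blk σ1 false (zst w)), toW (blk σ3 false (zst w))} :=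
      Or.inr (Or.inr h1.symm)
    obtain ⟨z, hz1, hz2⟩ := exists_zero hmem hS' φ
    rw [hz1]
    exact hz2 s
  refine ⟨k, fun S _ hS φ => ?_, fun S _ hS φ => ?_⟩
  · rw [map_mul, (key S hS φ _).1]
  · rw [map_mul, (key S hS φ _).2]

/-! ### computability -/

theorem primrec_encW : Primrec encW := by
  refine Primrec.pair ?_ Primrec.list_tail
  have h1 : Primrec fun l : List ℕ => (l.head?).getD 0 :=
    Primrec.option_getD.comp Primrec.list_head? (Primrec.const 0)
  refine h1.of_eq fun l => ?_
  cases l <;> rfl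

theorem primrec_zid : Primrec zid := by
  have h1 : Primrec fun l : List ℕ => encW (l ++ [3]) :=
    primrec_encW.comp (Primrec.list_append.comp Primrec.id (Primrec.const [3]))
  have h2 : Primrec fun l : List ℕ => encW (3 :: l) :=
    primrec_encW.comp (Primrec.list_cons.comp (Primrec.const 3) Primrec.id)
  exact Primrec.list_cons.comp (h1.pair primrec_encW)
    (Primrec.list_cons.comp (h2.pair primrec_encW) (Primrec.const []))

theorem primrec_AA (hb : S_blk) : Primrec AA :=
  Primrec.list_append.comp (primrec_zid.comp (hb σ1)) (primrec_zid.comp (hb σ3))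

/-- **the reduction** -/
theorem reduction_of (hb : S_blk) (hst : S_start) (hsrc : S_src) :
    ∃ (B : List Ident) (f : Nat.Partrec.Code → List Ident), Computable f ∧
      ∀ c : Nat.Partrec.Code,
        (∃ A : List Ident, A.length = 4 ∧ f c = B ++ A) ∧ FourLetters (f c) ∧ NilVar (f c) ∧
        (¬ (c.eval 0).Dom → Separated (idSet (f c))) ∧
        ((c.eval 0).Dom → ∀ m n : ℕ, 10 ≤ m → 10 ≤ n →
          InclEquiv (Fr (idSet (f c)) m) (Fr (idSet (f c)) n)) := by
  obtain ⟨v0, wd, hwd, hiff⟩ := hsrc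
  refine ⟨BL v0, fun c => BL v0 ++ AA (zst (wd c)), ?_, fun c => ⟨⟨_, rfl, rfl⟩, fourLetters,
    nilVar, fun h => ?_, fun h m n hm hn => ?_⟩⟩
  · have h1 : Primrec fun w : List Bool => BL v0 ++ AA (zst w) :=
      Primrec.list_append.comp (Primrec.const _) ((primrec_AA hb).comp (hst code))
    exact h1.to_comp.comp hwd
  · rw [← hiff] at h
    exact (separated_congr fun S _ => mem_list_iff S).2 (separated_of_not_halts h)
  · rw [← hiff] at h
    exact inclEquiv_congr (fun S _ => mem_list_iff S) (inclEquiv_of_halts h m n hm hn)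

/-- **undecidability** -/
theorem undecidable_of (hb : S_blk) (hst : S_start) (hsrc : S_src) :
    (¬ ComputablePred fun L : List Ident => Separated (idSet L)) ∧
    (¬ REPred fun L : List Ident => Separated (idSet L)) := by
  obtain ⟨B, f, hf, h⟩ := reduction_of hb hst hsrc
  have hred : (fun c : Nat.Partrec.Code => ¬ (c.eval 0).Dom) ≤₀
      fun L : List Ident => Separated (idSet L) := by
    refine ⟨f, hf, fun c => ?_⟩
    obtain ⟨-, -, -, h1, h2⟩ := h c
    refine ⟨h1, fun hs hd => ?_⟩
    exact hs 10 11 (by omega) (by omega) (by omega) (h2 hd 10 11 le_rfl (by omega))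
  have hre : ¬ REPred fun L : List Ident => Separated (idSet L) := by
    intro hR
    obtain ⟨g, hg, hg2⟩ := hred
    refine ComputablePred.halting_problem_not_re 0 ?_
    have h1 : REPred fun c : Nat.Partrec.Code => Separated (idSet (g c)) := by
      exact Partrec.comp hR hg
    exact h1.of_eq fun c => (hg2 c).symm
  exact ⟨fun hc => hre hc.to_re, hre⟩

end Pool.Agent.Lib.MP_b02441_al.U
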