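import Pool.Agent.Lib.MP_b02441_al.U.Mach
import Pool.Agent.Lib.MP_b02441_al.U.Col

/-!
# The simulation of the tag system (for MP_b02441_al, undecidability)
-/

set_option autoImplicit false
set_option linter.unusedVariables false

namespace Pool.Agent.Lib.MP_b02441_al.U

open Pool.Agent.Lib.MP_b40757_lc (rule tagStep Reach Halts)

open Sym

/-- the set of rules -/
def RS (v0 : List Bool) : Set (List Sym × List Sym) := {p | Rule v0 p.1 p.2}

/-- reachability -/
def Rw (v0 : List Bool) (z z' : List Sym) : Prop := Relation.ReflTransGen (Sy (RS v0)) z z'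

section

variable {v0 : List Bool}

theorem Rw.trans {a b c : List Sym} (h : Rw v0 a b) (h' : Rw v0 b c) : Rw v0 a c :=
  Relation.ReflTransGen.trans h h'

theorem Rw.refl (a : List Sym) : Rw v0 a a := Relation.ReflTransGen.refl

theorem Rw.rule {l r : List Sym} (h : Rule v0 l r) {a b z z' : List Sym} (ha : a ≠ [])
    (hb : b ≠ []) (hz : z = a ++ l ++ b) (hz' : z' = a ++ r ++ b) : Rw v0 z z' :=
  Relation.ReflTransGen.single ⟨(l, r), h, a, b, ha, hb, Or.inl ⟨hz, hz'⟩⟩

theorem Rw.cells {h h' : Sym} {a b a' b' : List Cell}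
    (hr : Rule v0 (a.map C ++ [h] ++ b.map C) (a'.map C ++ [h'] ++ b'.map C)) (u v : List Cell) :
    Rw v0 (wd h (u ++ a) (b ++ v)) (wd h' (u ++ a') (b' ++ v)) := by
  refine Rw.rule hr (a := [X, LL] ++ u.map C) (b := v.map C ++ [RR, X]) (by simp) (by simp) ?_ ?_
  · rw [wd]; simp
  · rw [wd]; simp

theorem Rw.left {h h' : Sym} (hr : Rule v0 [LL, h] [LL, h']) (v : List Cell) :
    Rw v0 (wd h [] v) (wd h' [] v) := by
  refine Rw.rule hr (a := [X]) (b := v.map C ++ [RR, X]) (by simp) (by simp) ?_ ?_
  · rw [wd]; simp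
  · rw [wd]; simp

theorem Rw.right {h h' : Sym} (hr : Rule v0 [h, RR] [h', RR]) (u : List Cell) :
    Rw v0 (wd h u []) (wd h' u []) := by
  refine Rw.rule hr (a := [X, LL] ++ u.map C) (b := [X]) (by simp) (by simp) ?_ ?_
  · rw [wd]; simp
  · rw [wd]; simp

/-- moving one cell to the left of the head -/
theorem Rw.move {h h' : Sym} {x x' : Cell} (hr : Rule v0 [h, C x] [C x', h']) (u v : List Cell) :
    Rw v0 (wd h u (x :: v)) (wd h' (u ++ [x']) v) := by
  have := Rw.cells (v0 := v0) (h := h) (h' := h') (a := []) (b := [x]) (a' := [x']) (b' := [])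
    hr u v
  rwa [List.append_nil] at this

/-- moving one cell to the right of the head -/
theorem Rw.back {h : Sym} {x : Cell} (hr : Rule v0 [C x, h] [h, C x]) (u v : List Cell) :
    Rw v0 (wd h (u ++ [x]) v) (wd h u (x :: v)) := by
  have := Rw.cells (v0 := v0) (h := h) (h' := h) (a := [x]) (b := []) (a' := []) (b' := [x])
    hr u v
  rwa [List.append_nil] at this

theorem Rw.moves {h : Sym} {P : Cell → Prop} (hr : ∀ x, P x → Rule v0 [h, C x] [C x, h])
    (a : List Cell) (ha : ∀ x ∈ a, P x) (u v : List Cell) :
    Rw v0 (wd h u (a ++ v)) (wd h (u ++ a) v) := by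
  induction a generalizing u with
  | nil => rw [List.nil_append, List.append_nil]; exact Rw.refl _
  | cons x a ih =>
    have h1 := Rw.move (hr x (ha x List.mem_cons_self)) u (a ++ v)
    have h2 := ih (fun y hy => ha y (List.mem_cons_of_mem _ hy)) (u ++ [x])
    rw [List.append_assoc, List.singleton_append] at h2
    exact h1.trans h2

theorem Rw.backs {h : Sym} {P : Cell → Prop} (hr : ∀ x, P x → Rule v0 [C x, h] [h, C x])
    (a : List Cell) (ha : ∀ x ∈ a, P x) (u v : List Cell) :
    Rw v0 (wd h (u ++ a) v) (wd h u (a ++ v)) := by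
  induction a using List.reverseRecOn generalizing v with
  | nil => rw [List.nil_append, List.append_nil]; exact Rw.refl _
  | append_singleton a x ih =>
    have h1 := Rw.back (hr x (ha x (by simp))) (u ++ a) v
    have h2 := ih (fun y hy => ha y (by simp [hy])) (x :: v)
    rw [← List.append_assoc]
    refine h1.trans ?_
    rw [List.append_assoc, List.singleton_append]
    exact h2

/-! ### growth -/

/-- the cells after growth -/
def grow (w : List Cell) : List Cell :=
  w.flatMap fun x => [x, (false, fill x.2), (true, fill x.2)]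

theorem rw_grow (w : List Cell) : Rw v0 (wd S [] w) (wd S [] (grow w)) := by
  have h1 : ∀ (w u : List Cell), Rw v0 (wd G u w) (wd G (u ++ grow w) []) := by
    intro w
    induction w with
    | nil => intro u; rw [grow, List.flatMap_nil, List.append_nil]; exact Rw.refl _
    | cons x w ih =>
      intro u
      have h2 := Rw.cells (v0 := v0) (h := G) (h' := G) (a := []) (b := [x])
        (a' := [x, (false, fill x.2), (true, fill x.2)]) (b' := []) (Rule.gx x) u w
      rw [List.append_nil] at h2
      have h3 := ih (u ++ [x, (false, fill x.2), (true, fill x.2)])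
      rw [List.append_assoc] at h3
      exact h2.trans h3
  have h2 := h1 w []
  rw [List.nil_append] at h2
  have h3 := Rw.backs (v0 := v0) (h := K) (P := fun _ => True) (fun x _ => Rule.ck x) (grow w)
    (fun _ _ => trivial) [] []
  rw [List.nil_append, List.append_nil] at h3
  exact (Rw.left Rule.sg w).trans (h2.trans ((Rw.right Rule.gk _).trans (h3.trans
    (Rw.left Rule.ks _))))

theorem grow_append (a b : List Cell) : grow (a ++ b) = grow a ++ grow b := by
  rw [grow, List.flatMap_append]; rfl

theorem alls_grow {a : List Cell} (h : alls a) : alls (grow a) := by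
  intro x hx
  rw [grow, List.mem_flatMap] at hx
  obtain ⟨y, hy, hx⟩ := hx
  simp only [List.mem_cons, List.not_mem_nil, or_false] at hx
  rcases hx with rfl | rfl | rfl
  · exact h _ hy
  · change (fill y.2).isSome = true
    rw [isSome_fill]; exact h _ hy
  · change (fill y.2).isSome = true
    rw [isSome_fill]; exact h _ hy

/-- all cells are blank -/
def allb (u : List Cell) : Prop := ∀ x ∈ u, x.2 = none

theorem allb_grow {a : List Cell} (h : allb a) : allb (grow a) := by
  intro x hx
  rw [grow, List.mem_flatMap] at hx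
  obtain ⟨y, hy, hx⟩ := hx
  simp only [List.mem_cons, List.not_mem_nil, or_false] at hx
  rcases hx with rfl | rfl | rfl
  · exact h _ hy
  · change fill y.2 = none
    rw [h _ hy]; rfl
  · change fill y.2 = none
    rw [h _ hy]; rfl

theorem sy_grow (a : List Cell) : sy (grow a) = sy a := by
  induction a with
  | nil => rfl
  | cons x a ih =>
    have e : grow (x :: a) = [x] ++ [(false, fill x.2)] ++ [(true, fill x.2)] ++ grow a := rfl
    have e2 : sy (x :: a) = sy [x] ++ sy a := sy_append [x] a
    rw [e, sy_append, sy_append, sy_append, sy_fill, sy_fill, ih, e2]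
    simp

theorem length_grow (a : List Cell) : (grow a).length = 3 * a.length := by
  induction a with
  | nil => rfl
  | cons x a ih =>
    have e : grow (x :: a) = [x, (false, fill x.2), (true, fill x.2)] ++ grow a := rfl
    rw [e, List.length_append, ih, List.length_cons]
    simp only [List.length_cons, List.length_nil]
    ring

/-- enough blank cells -/
theorem rw_grows (n : ℕ) {p q : List Cell} (hp : alls p) (hq : allb q) (hne : q ≠ []) :
    ∃ p' q', alls p' ∧ allb q' ∧ n ≤ q'.length ∧ sy p' = sy p ∧
      Rw v0 (wd S [] (p ++ q)) (wd S [] (p' ++ q')) := by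
  induction n with
  | zero => exact ⟨p, q, hp, hq, Nat.zero_le _, rfl, Rw.refl _⟩
  | succ n ih =>
    obtain ⟨p', q', h1, h2, h3, h4, h5⟩ := ih
    by_cases h6 : n + 1 ≤ q'.length
    · exact ⟨p', q', h1, h2, h6, h4, h5⟩
    · by_cases hn : n = 0
      · refine ⟨p, q, hp, hq, ?_, rfl, Rw.refl _⟩
        have := List.length_pos_iff.2 hne
        omega
      · refine ⟨grow p', grow q', alls_grow h1, allb_grow h2, ?_, ?_, ?_⟩
        · rw [length_grow]; omega
        · rw [sy_grow, h4]
        · rw [← grow_append]
          exact h5.trans (rw_grow _)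

/-! ### reading symbols -/

theorem decomp {p : List Cell} (hp : alls p) {b : Bool} {rest : List Bool}
    (h : sy p = b :: rest) : ∃ a m p', p = a ++ (m, some (some b)) :: p' ∧ allf a ∧ alls p' ∧
      sy p' = rest := by
  induction p with
  | nil => simp [sy] at h
  | cons x p ih =>
    have hp' : alls p := fun y hy => hp y (List.mem_cons_of_mem _ hy)
    obtain ⟨m, c⟩ := x
    cases c with
    | none =>
      have := hp (m, none) List.mem_cons_self
      simp at this
    | some c =>
      cases c with
      | none =>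
        rw [sy_cons_filler] at h
        obtain ⟨a, m', p', e, h1, h2, h3⟩ := ih hp' h
        refine ⟨(m, some none) :: a, m', p', by rw [e]; rfl, ?_, h2, h3⟩
        intro y hy
        rcases List.mem_cons.1 hy with rfl | hy
        · rfl
        · exact h1 y hy
      | some b' =>
        rw [sy_cons_symbol, List.cons.injEq] at h
        obtain ⟨rfl, h⟩ := h
        exact ⟨[], m, p, rfl, fun y hy => absurd hy List.not_mem_nil, hp', h⟩

theorem allf_of_sy_nil {p : List Cell} (hp : alls p) (h : sy p = []) : allf p := by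
  intro x hx
  have h1 := hp x hx
  rw [sy, List.filterMap_eq_nil_iff] at h
  have h2 := h x hx
  obtain ⟨m, c⟩ := x
  cases c with
  | none => simp at h1
  | some c =>
    cases c with
    | none => rfl
    | some b => simp at h2

theorem skip0 {a : List Cell} (ha : allf a) (u v : List Cell) :
    Rw v0 (wd D0 u (a ++ v)) (wd D0 (u ++ a) v) :=
  Rw.moves (P := fun x => x.2 = some none) (fun x hx => by
    obtain ⟨m, c⟩ := x
    dsimp only at hx
    subst hx
    exact Rule.f0 m) a ha u v

theorem skip1 (b : Bool) {a : List Cell} (ha : allf a) (u v : List Cell) :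
    Rw v0 (wd (D1 b) u (a ++ v)) (wd (D1 b) (u ++ a) v) :=
  Rw.moves (P := fun x => x.2 = some none) (fun x hx => by
    obtain ⟨m, c⟩ := x
    dsimp only at hx
    subst hx
    exact Rule.f1 m b) a ha u v

theorem skip2 (b c : Bool) {a : List Cell} (ha : allf a) (u v : List Cell) :
    Rw v0 (wd (D2 b c) u (a ++ v)) (wd (D2 b c) (u ++ a) v) :=
  Rw.moves (P := fun x => x.2 = some none) (fun x hx => by
    obtain ⟨m, d⟩ := x
    dsimp only at hx
    subst hx
    exact Rule.f2 m b c) a ha u v

/-- reaching a halting word -/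
def Hlt (v0 : List Bool) (z : List Sym) : Prop :=
  ∃ A h B, A ≠ [] ∧ B ≠ [] ∧ Stop h ∧ Rw v0 z (A ++ h ++ B)

theorem Hlt.of_rw {z z' : List Sym} (h : Rw v0 z z') (h' : Hlt v0 z') : Hlt v0 z := by
  obtain ⟨A, s, B, h1, h2, h3, h4⟩ := h'
  exact ⟨A, s, B, h1, h2, h3, h.trans h4⟩

theorem hlt_of_stop {h : Sym} {m : Bool} (hs : Stop [h, C (m, none)]) (u v : List Cell) :
    Hlt v0 (wd h u ((m, none) :: v)) := by
  refine ⟨[X, LL] ++ u.map C, _, v.map C ++ [RR, X], by simp, by simp, hs, ?_⟩
  have : wd h u ((m, none) :: v) = [X, LL] ++ u.map C ++ [h, C (m, none)] ++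
      (v.map C ++ [RR, X]) := by
    rw [wd]; simp
  rw [this]
  exact Rw.refl _

/-- short words lead to halting words -/
theorem hlt_short {p q : List Cell} (hp : alls p) (hq : allb q) (hne : q ≠ [])
    (h : (sy p).length < 3) : Hlt v0 (wd S [] (p ++ q)) := by
  obtain ⟨m, q', rfl⟩ : ∃ m q', q = (m, none) :: q' := by
    cases q with
    | nil => exact absurd rfl hne
    | cons x q' =>
      obtain ⟨m, c⟩ := x
      have := hq (m, c) List.mem_cons_self
      dsimp only at this
      subst this
      exact ⟨m, q', rfl⟩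
  refine Hlt.of_rw (Rw.left Rule.sd _) ?_
  cases h1 : sy p with
  | nil =>
    exact Hlt.of_rw (skip0 (allf_of_sy_nil hp h1) [] _) (hlt_of_stop (Stop.s0 m) _ _)
  | cons b r =>
    obtain ⟨a, m1, p1, rfl, h2, h3, h4⟩ := decomp hp h1
    rw [List.append_assoc, List.cons_append]
    refine Hlt.of_rw (skip0 h2 [] _) (Hlt.of_rw (Rw.move (Rule.d0 m1 b) _ _) ?_)
    cases h5 : sy p1 with
    | nil =>
      exact Hlt.of_rw (skip1 b (allf_of_sy_nil h3 h5) _ _) (hlt_of_stop (Stop.s1 m b) _ _)
    | cons c r' =>
      obtain ⟨a', m2, p2, rfl, h6, h7, h8⟩ := decomp h3 h5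
      rw [List.append_assoc a', List.cons_append]
      refine Hlt.of_rw (skip1 b h6 _ _) (Hlt.of_rw (Rw.move (Rule.d1 m2 b c) _ _) ?_)
      have h9 : sy p2 = [] := by
        rw [h1, ← h4, h5, ← h8] at h
        simp only [List.length_cons] at h
        exact List.length_eq_zero_iff.1 (by omega)
      exact Hlt.of_rw (skip2 b c (allf_of_sy_nil h7 h9) _ _) (hlt_of_stop (Stop.s2 m b c) _ _)

theorem sy_zip {μ : List Bool} {b : Bool} (hμ : μ.length = (prodc v0 b).length) :
    sy (List.zipWith (fun n c => ((n, c) : Cell)) μ (prodc v0 b)) = rule [false] v0 b ∧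
    alls (List.zipWith (fun n c => ((n, c) : Cell)) μ (prodc v0 b)) := by
  set B : List Cell := List.zipWith (fun n c => ((n, c) : Cell)) μ (prodc v0 b) with hB
  have hcB : B.map Prod.snd = prodc v0 b := by
    have : ∀ (μ : List Bool) (l : List Ct), μ.length = l.length →
        (List.zipWith (fun n c => ((n, c) : Cell)) μ l).map Prod.snd = l := by
      intro μ
      induction μ with
      | nil =>
        intro l h
        have : l = [] := List.length_eq_zero_iff.1 h.symm
        rw [this]; rfl
      | cons n μ ih =>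
        intro l h
        cases l with
        | nil => simp at h
        | cons c l =>
          have := ih l (by simpa using h)
          rw [List.zipWith_cons_cons, List.map_cons, this]
    exact this μ _ hμ
  constructor
  · have h1 : sy B = (B.map Prod.snd).filterMap Option.join := by
      rw [sy, List.filterMap_map]; rfl
    rw [h1, hcB, prodc, List.filterMap_append, List.filterMap_map]
    simp [Function.comp_def]
  · intro x hx
    have h1 : x.2 ∈ B.map Prod.snd := List.mem_map_of_mem hx
    rw [hcB, prodc, List.mem_append] at h1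
    rcases h1 with h1 | h1
    · obtain ⟨c, _, h2⟩ := List.mem_map.1 h1
      rw [← h2]; rfl
    · rw [List.mem_singleton] at h1
      rw [h1]; rfl

/-- one step of the tag system -/
theorem rw_step {p q : List Cell} (hp : alls p) (hq : allb q) {b c e : Bool} {rest : List Bool}
    (h : sy p = b :: c :: e :: rest) (hlen : (prodc v0 b).length + 1 ≤ q.length) :
    ∃ p' q', alls p' ∧ allb q' ∧ q' ≠ [] ∧ sy p' = rest ++ rule [false] v0 b ∧
      Rw v0 (wd S [] (p ++ q)) (wd S [] (p' ++ q')) := by
  obtain ⟨a1, m1, p1, rfl, g1, g2, g3⟩ := decomp hp h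
  obtain ⟨a2, m2, p2, rfl, g4, g5, g6⟩ := decomp g2 g3
  obtain ⟨a3, m3, p3, rfl, g7, g8, g9⟩ := decomp g5 g6
  -- the left part after deletion
  set U : List Cell := a1 ++ [(m1, some none)] ++ a2 ++ [(m2, some none)] ++ a3 ++
    [(m3, some none)] with hU
  have hUf : allf U := by
    rw [hU, allf_append, allf_append, allf_append, allf_append, allf_append]
    exact ⟨⟨⟨⟨⟨g1, allf_single m1⟩, g4⟩, allf_single m2⟩, g7⟩, allf_single m3⟩
  have hUs : alls U := fun x hx => by rw [hUf x hx]; rfl
  have hUn : sy U = [] := by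
    rw [sy, List.filterMap_eq_nil_iff]
    intro x hx
    rw [hUf x hx]; rfl
  -- deletion
  have e1 : Rw v0 (wd S [] (a1 ++ (m1, some (some b)) :: (a2 ++ (m2, some (some c)) ::
      (a3 ++ (m3, some (some e)) :: p3)) ++ q)) (wd (Sym.R b) U (p3 ++ q)) := by
    refine (Rw.left Rule.sd _).trans ?_
    rw [List.append_assoc a1, List.cons_append]
    refine (skip0 g1 [] _).trans ((Rw.move (Rule.d0 m1 b) _ _).trans ?_)
    rw [List.append_assoc a2, List.cons_append]
    refine (skip1 b g4 _ _).trans ((Rw.move (Rule.d1 m2 b c) _ _).trans ?_)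
    rw [List.append_assoc a3, List.cons_append]
    refine (skip2 b c g7 _ _).trans ((Rw.move (Rule.d2 m3 b c e) _ _).trans ?_)
    rw [List.nil_append]
    exact Rw.refl _
  -- return to the left end
  have e2 : Rw v0 (wd (Sym.R b) U (p3 ++ q)) (wd (Sym.R b) [] (U ++ (p3 ++ q))) := by
    have := Rw.backs (v0 := v0) (h := Sym.R b) (P := fun x => x.2 = some none) (fun x hx => by
      obtain ⟨m, d⟩ := x
      dsimp only at hx
      subst hx
      exact Rule.fr m b) U hUf [] (p3 ++ q)
    rwa [List.nil_append] at this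
  -- to the first blank cell
  have e3 : Rw v0 (wd (P b) [] (U ++ (p3 ++ q))) (wd (P b) (U ++ p3) q) := by
    have := Rw.moves (v0 := v0) (h := P b) (P := fun x => x.2.isSome = true) (fun x hx => by
      obtain ⟨m, d⟩ := x
      cases d with
      | none => simp at hx
      | some d => exact Rule.pc m b d) (U ++ p3) ((alls_append _ _).2 ⟨hUs, g8⟩) [] q
    rwa [List.nil_append, List.append_assoc] at this
  -- writing
  obtain ⟨q1, m, q2, hq1, rfl⟩ : ∃ (q1 : List Cell) (m : Bool) (q2 : List Cell),
      q1.length = (prodc v0 b).length ∧ q = q1 ++ (m, none) :: q2 := by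
    have h1 : q = q.take (prodc v0 b).length ++ q.drop (prodc v0 b).length :=
      (List.take_append_drop _ _).symm
    cases h2 : q.drop (prodc v0 b).length with
    | nil =>
      rw [List.drop_eq_nil_iff] at h2
      omega
    | cons x q2 =>
      obtain ⟨m, d⟩ := x
      have h3 : ((m, d) : Cell) ∈ q := by
        rw [h1, h2]; simp
      have h4 := hq _ h3
      dsimp only at h4
      subst h4
      refine ⟨q.take (prodc v0 b).length, m, q2, ?_, ?_⟩
      · rw [List.length_take]; omega
      · rw [← h2]; exact h1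
  have hq1b : q1 = (mkr q1).map fun n => ((n, none) : Cell) := by
    rw [mkr, List.map_map]
    symm
    conv_rhs => rw [← List.map_id q1]
    refine List.map_congr_left fun x hx => ?_
    have := hq x (List.mem_append_left _ hx)
    obtain ⟨m, d⟩ := x
    dsimp only at this
    subst this
    rfl
  have hμ : (mkr q1).length = (prodc v0 b).length := by rw [mkr, List.length_map, hq1]
  obtain ⟨hz1, hz2⟩ := sy_zip (v0 := v0) (b := b) hμ
  set Z : List Cell := List.zipWith (fun n c => ((n, c) : Cell)) (mkr q1) (prodc v0 b) with hZ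
  have e4 : Rw v0 (wd (P b) (U ++ p3) (q1 ++ (m, none) :: q2))
      (wd K (U ++ p3 ++ Z) ((m, none) :: q2)) := by
    have hr := Rule.wr (v := v0) m b (mkr q1) hμ
    have e1 : ([] : List Cell).map C ++ [P b] ++ (q1 ++ [(m, none)]).map C =
        [P b] ++ ((mkr q1).map fun n => C (n, none)) ++ [C (m, none)] := by
      conv_lhs => rw [hq1b]
      simp [List.map_map, Function.comp_def]
    have e2 : Z.map C ++ [K] ++ ([(m, none)] : List Cell).map C =
        (List.zipWith (fun n c => C (n, c)) (mkr q1) (prodc v0 b)) ++ [K, C (m, none)] := by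
      rw [hZ, List.map_zipWith]
      simp
    rw [← e1, ← e2] at hr
    have := Rw.cells hr (U ++ p3) q2
    simpa using this
  -- back to the left end
  have e5 : Rw v0 (wd K (U ++ p3 ++ Z) ((m, none) :: q2))
      (wd K [] (U ++ p3 ++ Z ++ (m, none) :: q2)) := by
    have := Rw.backs (v0 := v0) (h := K) (P := fun _ => True) (fun x _ => Rule.ck x)
      (U ++ p3 ++ Z) (fun _ _ => trivial) [] ((m, none) :: q2)
    rwa [List.nil_append] at this
  refine ⟨U ++ p3 ++ Z, (m, none) :: q2, ?_, ?_, by simp, ?_, ?_⟩
  · rw [alls_append, alls_append]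
    exact ⟨⟨hUs, g8⟩, hz2⟩
  · exact fun x hx => hq x (List.mem_append_right _ hx)
  · rw [sy_append, sy_append, hUn, hz1, g9, List.nil_append]
  · exact e1.trans (e2.trans ((Rw.left (Rule.rp b) _).trans (e3.trans (e4.trans (e5.trans
      (Rw.left Rule.ks _))))))

/-- **the simulation** -/
theorem hlt_of_halts {w : List Bool} (h : Halts 3 [false] v0 w) :
    ∀ p q : List Cell, alls p → allb q → q ≠ [] → sy p = w → Hlt v0 (wd S [] (p ++ q)) := by
  obtain ⟨T, hT, hlen⟩ := h
  unfold Reach at hT
  induction hT using Relation.ReflTransGen.head_induction_on with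
  | refl =>
    intro p q hp hq hne hs
    exact hlt_short hp hq hne (by rw [hs]; exact hlen)
  | @head w w' hst _ ih =>
    intro p q hp hq hne hs
    by_cases hw : w.length < 3
    · exact hlt_short hp hq hne (by rw [hs]; exact hw)
    · obtain ⟨b, c, e, rest, rfl⟩ : ∃ b c e rest, w = b :: c :: e :: rest := by
        match w, hw with
        | [], hw => simp at hw
        | [_], hw => simp at hw
        | [_, _], hw => simp at hw
        | b :: c :: e :: rest, _ => exact ⟨b, c, e, rest, rfl⟩
      rw [tagStep_three, Option.some.injEq] at hst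
      subst hst
      obtain ⟨p1, q1, h1, h2, h3, h4, h5⟩ := rw_grows (v0 := v0) ((prodc v0 b).length + 1) hp hq hne
      obtain ⟨p2, q2, g1, g2, g3, g4, g5⟩ := rw_step (v0 := v0) h1 h2 (by rw [h4, hs]) h3
      exact Hlt.of_rw (h5.trans g5) (ih p2 q2 g1 g2 g3 g4)

end

end Pool.Agent.Lib.MP_b02441_al.U
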