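import Pool.Agent.Lib.MP_b02441_al.U.Toep
import Pool.Agent.Lib.MP_b40757_lc.Defs

/-!
# The rewriting system of a binary tag system (for MP_b02441_al, undecidability)
-/

set_option autoImplicit false
set_option linter.unusedVariables false

namespace Pool.Agent.Lib.MP_b02441_al.U

open Pool.Agent.Lib.MP_b40757_lc (rule tagStep Reach Halts)

/-- contents of a cell: `none` is blank, `some none` is a filler, `some (some b)` is a symbol -/
abbrev Ct : Type := Option (Option Bool)

/-- a cell: marker and contents -/
abbrev Cell : Type := Bool × Ct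

/-- symbols of the rewriting system -/
inductive Sym : Type
  | X | LL | RR | S | G | K | D0
  | D1 (b : Bool)
  | D2 (b c : Bool)
  | R (b : Bool)
  | P (b : Bool)
  | C (x : Cell)
deriving DecidableEq, Fintype

open Sym

/-- contents of the cells which are added to a cell -/
def fill (c : Ct) : Ct := c.map fun _ => none

/-- the contents which are written for the production of `b` -/
def prodc (v : List Bool) (b : Bool) : List Ct :=
  (rule [false] v b).map (fun c => some (some c)) ++ [some none]

/-- the rules -/
inductive Rule (v : List Bool) : List Sym → List Sym → Prop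
  | sg : Rule v [LL, S] [LL, G]
  | gx (x : Cell) : Rule v [G, C x] [C x, C (false, fill x.2), C (true, fill x.2), G]
  | gk : Rule v [G, RR] [K, RR]
  | ck (x : Cell) : Rule v [C x, K] [K, C x]
  | ks : Rule v [LL, K] [LL, S]
  | sd : Rule v [LL, S] [LL, D0]
  | f0 (m : Bool) : Rule v [D0, C (m, some none)] [C (m, some none), D0]
  | f1 (m b : Bool) : Rule v [D1 b, C (m, some none)] [C (m, some none), D1 b]
  | f2 (m b c : Bool) : Rule v [D2 b c, C (m, some none)] [C (m, some none), D2 b c]
  | d0 (m b : Bool) : Rule v [D0, C (m, some (some b))] [C (m, some none), D1 b]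
  | d1 (m b c : Bool) : Rule v [D1 b, C (m, some (some c))] [C (m, some none), D2 b c]
  | d2 (m b c e : Bool) : Rule v [D2 b c, C (m, some (some e))] [C (m, some none), R b]
  | fr (m b : Bool) : Rule v [C (m, some none), R b] [R b, C (m, some none)]
  | rp (b : Bool) : Rule v [LL, R b] [LL, P b]
  | pc (m b : Bool) (x : Option Bool) : Rule v [P b, C (m, some x)] [C (m, some x), P b]
  | wr (m b : Bool) (μ : List Bool) (h : μ.length = (prodc v b).length) :
      Rule v ([P b] ++ (μ.map fun n => C (n, none)) ++ [C (m, none)])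
        ((List.zipWith (fun n c => C (n, c)) μ (prodc v b)) ++ [K, C (m, none)])

/-- the halting words -/
inductive Stop : List Sym → Prop
  | s0 (m : Bool) : Stop [D0, C (m, none)]
  | s1 (m b : Bool) : Stop [D1 b, C (m, none)]
  | s2 (m b c : Bool) : Stop [D2 b c, C (m, none)]

/-- head symbols -/
def isHead : Sym → Bool
  | X => false
  | LL => false
  | RR => false
  | C _ => false
  | _ => true

/-- a configuration -/
def wd (h : Sym) (u v : List Cell) : List Sym := ([X, LL] ++ u.map C) ++ h :: (v.map C ++ [RR, X])

/-- the symbols on the tape -/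
def sy (u : List Cell) : List Bool := u.filterMap fun x => x.2.join

/-- markers -/
def mkr (u : List Cell) : List Bool := u.map Prod.fst

/-- all blank cells are on the right -/
def Sh (u : List Cell) : Prop := u.Pairwise fun x y => y.2.isSome = true → x.2.isSome = true

/-- all cells contain fillers -/
def allf (u : List Cell) : Prop := ∀ x ∈ u, x.2 = some none

/-- no blank cells -/
def alls (u : List Cell) : Prop := ∀ x ∈ u, x.2.isSome = true

/-- condition on the markers -/
def Mk (h : Sym) (u v : List Cell) : Prop :=
  (h ≠ G ∧ mkr u ++ mkr v = seg 0 (u.length + v.length)) ∨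
  (h = G ∧ mkr u = seg 0 u.length ∧
    (v = [] ∨ ∃ M, u.length = 3 * M ∧ mkr v = seg M v.length))

/-- the tag system does not halt -/
def NH (v0 : List Bool) (w : List Bool) : Prop := ¬ Halts 3 [false] v0 w

/-- condition on the contents -/
def Q (v0 : List Bool) : Sym → List Cell → List Cell → Prop
  | S, u, v => NH v0 (sy u ++ sy v)
  | G, u, v => NH v0 (sy u ++ sy v)
  | K, u, v => NH v0 (sy u ++ sy v)
  | D0, u, v => allf u ∧ NH v0 (sy v)
  | D1 b, u, v => allf u ∧ NH v0 (b :: sy v)
  | D2 b c, u, v => allf u ∧ NH v0 (b :: c :: sy v)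
  | R b, u, v => allf u ∧ NH v0 (sy v ++ rule [false] v0 b)
  | P b, u, v => alls u ∧ NH v0 (sy u ++ sy v ++ rule [false] v0 b)
  | _, _, _ => False

/-- the invariant -/
def Inv (v0 : List Bool) (h : Sym) (u v : List Cell) : Prop :=
  isHead h = true ∧ Sh (u ++ v) ∧ Mk h u v ∧ Q v0 h u v

/-- the set of good words -/
def GS (v0 : List Bool) : Set (List Sym) := {z | ∃ h u v, z = wd h u v ∧ Inv v0 h u v}

/-! ### the tag system -/

theorem tagStep_three (v0 : List Bool) (b c e : Bool) (w : List Bool) :
    tagStep 3 [false] v0 (b :: c :: e :: w) = some (w ++ rule [false] v0 b) := by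
  simp [tagStep]

theorem nh_step (v0 : List Bool) (b c e : Bool) (w : List Bool) :
    NH v0 (b :: c :: e :: w) ↔ NH v0 (w ++ rule [false] v0 b) := by
  unfold NH
  rw [not_iff_not]
  have h1 := tagStep_three v0 b c e w
  constructor
  · rintro ⟨T, h, hT⟩
    rcases Relation.ReflTransGen.cases_head h with h2 | ⟨y, h2, h3⟩
    · rw [← h2] at hT
      simp at hT
      omega
    · rw [h1, Option.some.injEq] at h2
      subst h2
      exact ⟨T, h3, hT⟩
  · rintro ⟨T, h, hT⟩
    exact ⟨T, Relation.ReflTransGen.head h1 h, hT⟩

theorem not_nh_of_short (v0 : List Bool) {w : List Bool} (h : w.length < 3) : ¬ NH v0 w := by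
  intro h1
  exact h1 ⟨w, Relation.ReflTransGen.refl, h⟩

/-! ### decomposition of words -/

theorem split_head {A B A' B' : List Sym} {h h' : Sym} (hh : isHead h = true)
    (hh' : isHead h' = true) (hA : ∀ x ∈ A', isHead x = false) (hB : ∀ x ∈ B', isHead x = false)
    (e : A ++ h :: B = A' ++ h' :: B') : A = A' ∧ h = h' ∧ B = B' := by
  rcases List.append_eq_append_iff.1 e with ⟨t, h1, h2⟩ | ⟨t, h1, h2⟩
  · cases t with
    | nil =>
      rw [List.append_nil] at h1
      rw [List.nil_append, List.cons.injEq] at h2
      exact ⟨h1.symm, h2.1, h2.2⟩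
    | cons x t =>
      exfalso
      rw [List.cons_append, List.cons.injEq] at h2
      have : isHead h = false := hA h (by rw [h1, h2.1]; simp)
      rw [this] at hh
      exact Bool.noConfusion hh
  · cases t with
    | nil =>
      rw [List.append_nil] at h1
      rw [List.nil_append, List.cons.injEq] at h2
      exact ⟨h1, h2.1.symm, h2.2.symm⟩
    | cons x t =>
      exfalso
      rw [List.cons_append, List.cons.injEq] at h2
      have : isHead h = false := hB h (by rw [h2.2]; simp)
      rw [this] at hh
      exact Bool.noConfusion hh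

theorem head_left {u : List Cell} : ∀ x ∈ ([X, LL] ++ u.map C : List Sym), isHead x = false := by
  intro x hx
  simp only [List.mem_append, List.mem_cons, List.not_mem_nil, or_false, List.mem_map] at hx
  rcases hx with (rfl | rfl) | ⟨y, _, rfl⟩ <;> rfl

theorem head_right {v : List Cell} : ∀ x ∈ (v.map C ++ [RR, X] : List Sym), isHead x = false := by
  intro x hx
  simp only [List.mem_append, List.mem_cons, List.not_mem_nil, or_false, List.mem_map] at hx
  rcases hx with ⟨y, _, rfl⟩ | (rfl | rfl) <;> rfl

theorem left_cells {a u' : List Cell} {α : List Sym} (e : α ++ a.map C = [X, LL] ++ u'.map C) :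
    ∃ u, α = [X, LL] ++ u.map C ∧ u' = u ++ a := by
  rcases List.append_eq_append_iff.1 e with ⟨t, h1, h2⟩ | ⟨t, h1, h2⟩
  · -- `[X, LL] = α ++ t`, `a.map C = t ++ ..`
    cases t with
    | nil =>
      rw [List.append_nil] at h1
      rw [List.nil_append] at h2
      refine ⟨[], by rw [← h1]; rfl, ?_⟩
      have : Function.Injective C := fun x y h => by injection h
      exact (List.map_injective_iff.2 this h2).symm
    | cons x t =>
      exfalso
      have h3 : x ∈ ([X, LL] : List Sym) := by rw [h1]; simp
      have h4 : x ∈ a.map C := by rw [h2]; simp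
      obtain ⟨y, _, rfl⟩ := List.mem_map.1 h4
      simp at h3
  · obtain ⟨u, a', e1, e2, e3⟩ := List.map_eq_append_iff.1 h2
    have hC : Function.Injective C := fun x y h => by injection h
    have h3 : a' = a := List.map_injective_iff.2 hC e3
    exact ⟨u, by rw [h1, ← e2], by rw [e1, h3]⟩

theorem right_cells {b v' : List Cell} {β : List Sym} (e : b.map C ++ β = v'.map C ++ [RR, X]) :
    ∃ v, β = v.map C ++ [RR, X] ∧ v' = b ++ v := by
  have hC : Function.Injective C := fun x y h => by injection h
  rcases List.append_eq_append_iff.1 e with ⟨t, h1, h2⟩ | ⟨t, h1, h2⟩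
  · obtain ⟨b', v, e1, e2, e3⟩ := List.map_eq_append_iff.1 h1
    have h3 : b' = b := List.map_injective_iff.2 hC e2
    exact ⟨v, by rw [h2, ← e3], by rw [e1, h3]⟩
  · cases t with
    | nil =>
      rw [List.append_nil] at h1
      rw [List.nil_append] at h2
      refine ⟨[], by rw [← h2]; rfl, ?_⟩
      rw [List.append_nil]
      exact (List.map_injective_iff.2 hC h1).symm
    | cons x t =>
      exfalso
      have h3 : x ∈ b.map C := by rw [h1]; simp
      have h4 : x ∈ ([RR, X] : List Sym) := by rw [h2]; simp
      obtain ⟨y, _, rfl⟩ := List.mem_map.1 h3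
      simp at h4

section

variable {v0 : List Bool}

/-- good words with a given pattern around the head -/
theorem good_iff {h : Sym} (hh : isHead h = true) (a b : List Cell) (α β : List Sym) :
    α ++ (a.map C ++ [h] ++ b.map C) ++ β ∈ GS v0 ↔
      ∃ u v, α = [X, LL] ++ u.map C ∧ β = v.map C ++ [RR, X] ∧ Inv v0 h (u ++ a) (b ++ v) := by
  constructor
  · rintro ⟨h', u', v', e, hI⟩
    have e' : (α ++ a.map C) ++ h :: (b.map C ++ β) =
        ([X, LL] ++ u'.map C) ++ h' :: (v'.map C ++ [RR, X]) := by
      rw [wd] at e
      rw [← e]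
      simp
    obtain ⟨e1, rfl, e2⟩ := split_head hh hI.1 head_left head_right e'
    obtain ⟨u, e3, rfl⟩ := left_cells e1
    obtain ⟨v, e4, rfl⟩ := right_cells e2
    exact ⟨u, v, e3, e4, hI⟩
  · rintro ⟨u, v, rfl, rfl, hI⟩
    refine ⟨h, _, _, ?_, hI⟩
    rw [wd]
    simp

theorem good_LE {h : Sym} (hh : isHead h = true) (α β : List Sym) :
    α ++ [LL, h] ++ β ∈ GS v0 ↔
      ∃ v, α = [X] ∧ β = v.map C ++ [RR, X] ∧ Inv v0 h [] v := by
  constructor
  · rintro ⟨h', u', v', e, hI⟩
    have e' : (α ++ [LL]) ++ h :: β =
        ([X, LL] ++ u'.map C) ++ h' :: (v'.map C ++ [RR, X]) := by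
      rw [wd] at e
      rw [← e]
      simp
    obtain ⟨e1, rfl, e2⟩ := split_head hh hI.1 head_left head_right e'
    rcases List.eq_nil_or_concat u' with rfl | ⟨u, x, rfl⟩
    · refine ⟨v', ?_, e2, hI⟩
      have : α ++ [LL] = [X] ++ [LL] := e1
      exact List.append_cancel_right this
    · exfalso
      rw [List.concat_eq_append, List.map_append, ← List.append_assoc] at e1
      have := (List.append_inj' e1 rfl).2
      simp at this
  · rintro ⟨v, rfl, rfl, hI⟩
    exact ⟨h, [], v, by rw [wd]; simp, hI⟩

theorem good_RE {h : Sym} (hh : isHead h = true) (α β : List Sym) :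
    α ++ [h, RR] ++ β ∈ GS v0 ↔
      ∃ u, α = [X, LL] ++ u.map C ∧ β = [X] ∧ Inv v0 h u [] := by
  constructor
  · rintro ⟨h', u', v', e, hI⟩
    have e' : α ++ h :: (RR :: β) =
        ([X, LL] ++ u'.map C) ++ h' :: (v'.map C ++ [RR, X]) := by
      rw [wd] at e
      rw [← e]
      simp
    obtain ⟨e1, rfl, e2⟩ := split_head hh hI.1 head_left head_right e'
    cases v' with
    | nil =>
      refine ⟨u', e1, ?_, hI⟩
      rw [List.map_nil, List.nil_append, List.cons.injEq] at e2
      exact e2.2
    | cons x v =>
      exfalso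
      rw [List.map_cons, List.cons_append, List.cons.injEq] at e2
      exact Sym.noConfusion e2.1
  · rintro ⟨u, rfl, rfl, hI⟩
    exact ⟨h, u, [], by rw [wd]; simp, hI⟩

/-! ### the invariant under the rules -/

theorem sy_append (u v : List Cell) : sy (u ++ v) = sy u ++ sy v := by
  simp [sy]

theorem sy_nil : sy [] = [] := rfl

theorem sy_filler (m : Bool) : sy [(m, some none)] = [] := rfl

theorem sy_blank (m : Bool) : sy [(m, none)] = [] := rfl

theorem sy_symbol (m b : Bool) : sy [(m, some (some b))] = [b] := rfl

theorem sy_cons_filler (m : Bool) (u : List Cell) : sy ((m, some none) :: u) = sy u := rfl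

theorem sy_cons_blank (m : Bool) (u : List Cell) : sy ((m, none) :: u) = sy u := rfl

theorem sy_cons_symbol (m b : Bool) (u : List Cell) : sy ((m, some (some b)) :: u) = b :: sy u := rfl

theorem sy_fill (m : Bool) (c : Ct) : sy [(m, fill c)] = [] := by
  cases c <;> rfl

theorem isSome_fill (c : Ct) : (fill c).isSome = c.isSome := by
  cases c <;> rfl

/-- the shape depends only on the blank cells -/
theorem Sh_map (u : List Cell) :
    Sh u ↔ (u.map fun x => x.2.isSome).Pairwise fun a b => b = true → a = true := by
  rw [Sh, List.pairwise_map]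

theorem Sh_congr {u v : List Cell} (h : (u.map fun x => x.2.isSome) = v.map fun x => x.2.isSome) :
    Sh u ↔ Sh v := by
  rw [Sh_map, Sh_map, h]

theorem mkr_append (u v : List Cell) : mkr (u ++ v) = mkr u ++ mkr v := by simp [mkr]

theorem allf_append (u v : List Cell) : allf (u ++ v) ↔ allf u ∧ allf v := by
  simp only [allf, List.mem_append]
  constructor
  · exact fun h => ⟨fun x hx => h x (Or.inl hx), fun x hx => h x (Or.inr hx)⟩
  · rintro ⟨h1, h2⟩ x (hx | hx)
    · exact h1 x hx
    · exact h2 x hx

theorem alls_append (u v : List Cell) : alls (u ++ v) ↔ alls u ∧ alls v := by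
  simp only [alls, List.mem_append]
  constructor
  · exact fun h => ⟨fun x hx => h x (Or.inl hx), fun x hx => h x (Or.inr hx)⟩
  · rintro ⟨h1, h2⟩ x (hx | hx)
    · exact h1 x hx
    · exact h2 x hx

theorem allf_single (m : Bool) : allf [(m, some none)] := by
  intro x hx
  rw [List.mem_singleton] at hx
  rw [hx]

theorem alls_single (m : Bool) (c : Option Bool) : alls [(m, some c)] := by
  intro x hx
  rw [List.mem_singleton] at hx
  rw [hx]; rfl

/-- moving the head over one cell whose contents may change -/
theorem inv_move {h h' : Sym} (hh : isHead h = true) (hh' : isHead h' = true) (hG : h ≠ G)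
    (hG' : h' ≠ G) {x x' : Cell} (hm : x.1 = x'.1) (hs : x.2.isSome = x'.2.isSome)
    {u v : List Cell} (hQ : Q v0 h u (x :: v) ↔ Q v0 h' (u ++ [x']) v) :
    Inv v0 h u (x :: v) ↔ Inv v0 h' (u ++ [x']) v := by
  unfold Inv
  rw [hh, hh', hQ]
  have h1 : Sh (u ++ x :: v) ↔ Sh (u ++ [x'] ++ v) := by
    refine Sh_congr ?_
    simp [hs]
  have h2 : Mk h u (x :: v) ↔ Mk h' (u ++ [x']) v := by
    unfold Mk
    have e1 : mkr (x :: v) = x.1 :: mkr v := rfl
    have e2 : mkr (u ++ [x']) = mkr u ++ [x'.1] := by rw [mkr_append]; rfl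
    have e3 : (u ++ [x']).length + v.length = u.length + (x :: v).length := by
      simp only [List.length_append, List.length_cons, List.length_nil]; omega
    rw [e3, e2, e1, hm]
    simp [hG, hG']
  rw [h1, h2]

/-- changing the state at the left end -/
theorem inv_LE {h h' : Sym} (hh : isHead h = true) (hh' : isHead h' = true) {v : List Cell}
    (hQ : Q v0 h [] v ↔ Q v0 h' [] v) : Inv v0 h [] v ↔ Inv v0 h' [] v := by
  unfold Inv
  rw [hh, hh', hQ]
  have h2 : ∀ h : Sym, Mk h [] v ↔ mkr v = seg 0 v.length := by
    intro h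
    unfold Mk
    by_cases hG : h = G
    · subst hG
      simp only [ne_eq, not_true_eq_false, false_and, false_or, true_and, List.length_nil]
      constructor
      · rintro ⟨-, rfl | ⟨M, hM, h1⟩⟩
        · rfl
        · have : M = 0 := by omega
          rw [this] at h1
          exact h1
      · intro h1
        exact ⟨rfl, Or.inr ⟨0, rfl, h1⟩⟩
    · simp only [ne_eq, hG, not_false_eq_true, true_and, false_and, or_false, List.length_nil,
        Nat.zero_add]
      exact Iff.rfl
  rw [h2, h2]

theorem inv_RE {u : List Cell} : Inv v0 G u [] ↔ Inv v0 K u [] := by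
  unfold Inv
  have h2 : Mk G u [] ↔ Mk K u [] := by
    unfold Mk
    simp [mkr]
  rw [h2]
  exact Iff.rfl

theorem inv_gx (x : Cell) (u v : List Cell) :
    Inv v0 G u (x :: v) ↔ Inv v0 G (u ++ [x, (false, fill x.2), (true, fill x.2)]) v := by
  unfold Inv
  have h1 : Sh (u ++ x :: v) ↔ Sh (u ++ [x, (false, fill x.2), (true, fill x.2)] ++ v) := by
    simp only [Sh, List.pairwise_append, List.pairwise_cons, List.mem_append, List.mem_cons,
      List.not_mem_nil, or_false, isSome_fill, List.Pairwise.nil, and_true, forall_eq_or_imp,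
      false_imp_iff, implies_true, forall_eq, or_imp, forall_and, imp_self, true_and]
    tauto
  have h2 : Mk G u (x :: v) ↔ Mk G (u ++ [x, (false, fill x.2), (true, fill x.2)]) v := by
    unfold Mk
    have e1 : mkr (x :: v) = x.1 :: mkr v := rfl
    have e2 : mkr (u ++ [x, (false, fill x.2), (true, fill x.2)]) =
        mkr u ++ [x.1, false, true] := by rw [mkr_append]; rfl
    have e3 : (u ++ [x, (false, fill x.2), (true, fill x.2)]).length = u.length + 3 := by
      rw [List.length_append]; rfl
    have e4 : seg 0 (u.length + 3) = seg 0 u.length ++ [tt u.length, tt (u.length + 1),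
        tt (u.length + 2)] := by
      rw [seg_add]
      simp [seg, List.range_succ]
    rw [e1, e2, e3, e4]
    simp only [ne_eq, not_true_eq_false, false_and, false_or, true_and, List.length_cons,
      reduceCtorEq]
    constructor
    · rintro ⟨h1, M, h2, h3⟩
      rw [seg_succ', List.cons.injEq] at h3
      obtain ⟨h3, h4⟩ := h3
      refine ⟨?_, Or.inr ⟨M + 1, by omega, h4⟩⟩
      rw [h1, h3, h2, tt_mul, tt_one, tt_two]
    · rintro ⟨h1, h2⟩
      have h3 := List.append_inj h1 (by rw [mkr, List.length_map, length_seg])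
      obtain ⟨h3, h4⟩ := h3
      simp only [List.cons.injEq, and_true] at h4
      obtain ⟨h4, h5, h6⟩ := h4
      have h7 : u.length % 3 = 0 := by
        by_contra h8
        have h9 : u.length % 3 = 1 ∨ u.length % 3 = 2 := by omega
        rcases h9 with h9 | h9
        · have := tt_mod_two (n := u.length + 1) (by omega)
          rw [this] at h5
          exact Bool.noConfusion h5
        · have := tt_mod_one (n := u.length + 2) (by omega)
          rw [this] at h6
          exact Bool.noConfusion h6
      obtain ⟨M, hM⟩ : ∃ M, u.length = 3 * M := ⟨u.length / 3, by omega⟩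
      refine ⟨h3, M, hM, ?_⟩
      rw [seg_succ', h4, hM, tt_mul]
      congr 1
      rcases h2 with rfl | ⟨M', hM', h2⟩
      · rfl
      · have : M' = M + 1 := by omega
        rw [← this, h2]
  have h3 : Q v0 G u (x :: v) ↔ Q v0 G (u ++ [x, (false, fill x.2), (true, fill x.2)]) v := by
    change NH v0 (sy u ++ sy (x :: v)) ↔ NH v0 (sy (u ++ [x, (false, fill x.2),
      (true, fill x.2)]) ++ sy v)
    have e1 : sy (x :: v) = sy [x] ++ sy v := sy_append [x] v
    have e2 : sy [x, (false, fill x.2), (true, fill x.2)] = sy [x] := by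
      have h5 := sy_append [x] ([(false, fill x.2)] ++ [(true, fill x.2)])
      have h6 : sy ([(false, fill x.2)] ++ [(true, fill x.2)]) = [] := by
        rw [sy_append, sy_fill, sy_fill]; rfl
      rw [h6, List.append_nil] at h5
      exact h5
    rw [e1, sy_append, e2, List.append_assoc]
  rw [h1, h2, h3]

theorem inv_wr (m b : Bool) (μ : List Bool) (hμ : μ.length = (prodc v0 b).length)
    (u v : List Cell) :
    Inv v0 (P b) u ((μ.map fun n => ((n, none) : Cell)) ++ (m, none) :: v) ↔
      Inv v0 K (u ++ List.zipWith (fun n c => ((n, c) : Cell)) μ (prodc v0 b)) ((m, none) :: v) := by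
  -- facts on the written cells
  set A : List Cell := μ.map fun n => ((n, none) : Cell) with hA
  set B : List Cell := List.zipWith (fun n c => ((n, c) : Cell)) μ (prodc v0 b) with hB
  have hlA : A.length = μ.length := by rw [hA, List.length_map]
  have hlB : B.length = μ.length := by rw [hB, List.length_zipWith]; omega
  have hmA : mkr A = μ := by rw [mkr, hA, List.map_map]; simp [Function.comp_def]
  have hmB : mkr B = μ := by
    have : ∀ (μ : List Bool) (l : List Ct), μ.length = l.length →
        mkr (List.zipWith (fun n c => ((n, c) : Cell)) μ l) = μ := by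
      intro μ
      induction μ with
      | nil => intro l h; rfl
      | cons n μ ih =>
        intro l h
        cases l with
        | nil => simp at h
        | cons c l =>
          have := ih l (by simpa using h)
          rw [List.zipWith_cons_cons]
          change n :: mkr _ = _
          rw [this]
    exact this μ _ hμ
  have hcB : B.map Prod.snd = prodc v0 b := by
    have : ∀ (μ : List Bool) (l : List Ct), μ.length = l.length →
        (List.zipWith (fun n c => ((n, c) : Cell)) μ l).map Prod.snd = l := by
      intro μ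
      induction μ with
      | nil =>
        intro l h
        have : l = [] := List.length_eq_zero_iff.1 h.symm
        rw [this]; rfl
      | cons n μ ih =>
        intro l h
        cases l with
        | nil => simp at h
        | cons c l =>
          have := ih l (by simpa using h)
          rw [List.zipWith_cons_cons, List.map_cons, this]
    exact this μ _ hμ
  have hsA : sy A = [] := by
    rw [sy, List.filterMap_eq_nil_iff]
    intro x hx
    rw [hA, List.mem_map] at hx
    obtain ⟨n, _, rfl⟩ := hx
    rfl
  have hsB : sy B = rule [false] v0 b := by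
    have h1 : sy B = (B.map Prod.snd).filterMap Option.join := by
      rw [sy, List.filterMap_map]; rfl
    rw [h1, hcB, prodc, List.filterMap_append, List.filterMap_map]
    simp [Function.comp_def]
  have hBs : ∀ x ∈ B, x.2.isSome = true := by
    intro x hx
    have h1 : x.2 ∈ B.map Prod.snd := List.mem_map_of_mem hx
    rw [hcB, prodc, List.mem_append] at h1
    rcases h1 with h1 | h1
    · obtain ⟨c, _, h2⟩ := List.mem_map.1 h1
      rw [← h2]; rfl
    · rw [List.mem_singleton] at h1
      rw [h1]; rfl
  have hBne : B ≠ [] := by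
    intro h0
    rw [h0] at hcB
    simp [prodc] at hcB
  have hAs : ∀ x ∈ A, x.2.isSome = false := by
    intro x hx
    rw [hA, List.mem_map] at hx
    obtain ⟨n, _, rfl⟩ := hx
    rfl
  unfold Inv
  have h2 : Mk (P b) u (A ++ (m, none) :: v) ↔ Mk K (u ++ B) ((m, none) :: v) := by
    unfold Mk
    have e1 : mkr (A ++ (m, none) :: v) = μ ++ mkr ((m, none) :: v) := by rw [mkr_append, hmA]
    have e2 : mkr (u ++ B) = mkr u ++ μ := by rw [mkr_append, hmB]
    have e3 : (u ++ B).length + ((m, none) :: v : List Cell).length =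
        u.length + (A ++ (m, none) :: v).length := by
      rw [List.length_append, List.length_append, hlA, hlB]; omega
    rw [e3, e2, e1, List.append_assoc]
    simp
  rw [h2]
  constructor
  · rintro ⟨-, hS, hM, hQ⟩
    obtain ⟨hQ1, hQ2⟩ := (hQ : alls u ∧ NH v0 _)
    refine ⟨rfl, ?_, hM, ?_⟩
    · simp only [Sh, List.pairwise_append, List.mem_append, List.pairwise_cons, List.mem_cons] at hS ⊢
      obtain ⟨hS1, ⟨hS2, ⟨hS3, hS4⟩, hS5⟩, hS6⟩ := hS
      refine ⟨⟨hS1, ?_, fun x hx y hy _ => hQ1 x hx⟩, ⟨hS3, hS4⟩, ?_⟩
      · exact List.pairwise_of_forall_mem_list fun x hx y hy _ => hBs x hx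
      · rintro x (hx | hx) y hy _
        · exact hQ1 x hx
        · exact hBs x hx
    · change NH v0 (sy (u ++ B) ++ sy ((m, none) :: v))
      rw [sy_append, hsB, sy_cons_blank]
      rw [sy_append, hsA, sy_cons_blank, List.nil_append] at hQ2
      -- `v` is blank
      have hv : sy v = [] := by
        simp only [Sh, List.pairwise_append, List.pairwise_cons] at hS
        obtain ⟨hS1, ⟨hS2, ⟨hS3, hS4⟩, hS5⟩, hS6⟩ := hS
        rw [sy, List.filterMap_eq_nil_iff]
        intro x hx
        have := hS3 x hx
        simp only [Option.isSome_none, Bool.false_eq_true, imp_false, Bool.not_eq_true] at this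
        cases h : x.2 with
        | none => rfl
        | some c => rw [h] at this; simp at this
      rw [hv, List.append_nil] at hQ2 ⊢
      exact hQ2
  · rintro ⟨-, hS, hM, hQ⟩
    have hQ' : NH v0 (sy (u ++ B) ++ sy ((m, none) :: v)) := hQ
    simp only [Sh, List.pairwise_append, List.mem_append, List.pairwise_cons, List.mem_cons] at hS
    obtain ⟨⟨hS1, hS2, hS3⟩, ⟨hS4, hS5⟩, hS6⟩ := hS
    have hu : alls u := by
      intro x hx
      obtain ⟨y, hy⟩ := List.exists_mem_of_ne_nil B hBne
      exact hS3 x hx y hy (hBs y hy)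
    have hvb : ∀ x ∈ v, x.2.isSome = false := by
      intro x hx
      have := hS4 x hx
      simpa using this
    have hv : sy v = [] := by
      rw [sy, List.filterMap_eq_nil_iff]
      intro x hx
      have := hvb x hx
      cases h : x.2 with
      | none => rfl
      | some c => rw [h] at this; simp at this
    refine ⟨rfl, ?_, hM, hu, ?_⟩
    · simp only [Sh, List.pairwise_append, List.mem_append, List.pairwise_cons, List.mem_cons]
      refine ⟨hS1, ⟨?_, ⟨hS4, hS5⟩, ?_⟩, fun x hx y hy _ => hu x hx⟩
      · exact List.pairwise_of_forall_mem_list fun x hx y hy h => by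
          rw [hAs y hy] at h; exact Bool.noConfusion h
      · rintro x hx y (rfl | hy) h
        · simp at h
        · rw [hvb y hy] at h; exact Bool.noConfusion h
    · rw [sy_append, hsA, sy_cons_blank, List.nil_append, hv, List.append_nil]
      rw [sy_append, hsB, sy_cons_blank, hv, List.append_nil] at hQ'
      exact hQ'

theorem Q_ck (x : Cell) (u v : List Cell) : Q v0 K u (x :: v) ↔ Q v0 K (u ++ [x]) v := by
  change NH v0 (sy u ++ sy (x :: v)) ↔ NH v0 (sy (u ++ [x]) ++ sy v)
  have e1 : sy (x :: v) = sy [x] ++ sy v := sy_append [x] v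
  rw [e1, sy_append, List.append_assoc]

/-- **the good words are closed under the rules** -/
theorem closed_rule {l r : List Sym} (h : Rule v0 l r) (α β : List Sym) :
    α ++ l ++ β ∈ GS v0 ↔ α ++ r ++ β ∈ GS v0 := by
  -- general form
  have key : ∀ {h h' : Sym} (hh : isHead h = true) (hh' : isHead h' = true) (a b a' b' : List Cell),
      (∀ u v, Inv v0 h (u ++ a) (b ++ v) ↔ Inv v0 h' (u ++ a') (b' ++ v)) →
      (α ++ (a.map C ++ [h] ++ b.map C) ++ β ∈ GS v0 ↔
        α ++ (a'.map C ++ [h'] ++ b'.map C) ++ β ∈ GS v0) := by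
    intro h h' hh hh' a b a' b' hI
    rw [good_iff hh, good_iff hh']
    exact exists_congr fun u => exists_congr fun v => and_congr Iff.rfl (and_congr Iff.rfl (hI u v))
  have keyL : ∀ {h h' : Sym} (hh : isHead h = true) (hh' : isHead h' = true),
      (∀ v, Q v0 h [] v ↔ Q v0 h' [] v) →
      (α ++ [LL, h] ++ β ∈ GS v0 ↔ α ++ [LL, h'] ++ β ∈ GS v0) := by
    intro h h' hh hh' hQ
    rw [good_LE hh, good_LE hh']
    exact exists_congr fun v => and_congr Iff.rfl (and_congr Iff.rfl (inv_LE hh hh' (hQ v)))
  -- moving over one cell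
  have keyM : ∀ {h h' : Sym} (hh : isHead h = true) (hh' : isHead h' = true) (hG : h ≠ G)
      (hG' : h' ≠ G) (x x' : Cell) (hm : x.1 = x'.1) (hs : x.2.isSome = x'.2.isSome),
      (∀ u v, Q v0 h u (x :: v) ↔ Q v0 h' (u ++ [x']) v) →
      (α ++ [h, C x] ++ β ∈ GS v0 ↔ α ++ [C x', h'] ++ β ∈ GS v0) := by
    intro h h' hh hh' hG hG' x x' hm hs hQ
    refine key hh hh' [] [x] [x'] [] fun u v => ?_
    rw [List.append_nil]
    exact inv_move hh hh' hG hG' hm hs (hQ u v)
  have ea : ∀ u : List Cell, ∀ m : Bool, (allf (u ++ [(m, some none)]) ↔ allf u) := fun u m => by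
    rw [allf_append]; exact ⟨fun h => h.1, fun h => ⟨h, allf_single m⟩⟩
  cases h with
  | sg => exact keyL rfl rfl fun v => Iff.rfl
  | gx x =>
    refine key rfl rfl [] [x] [x, (false, fill x.2), (true, fill x.2)] [] fun u v => ?_
    rw [List.append_nil]
    exact inv_gx x u v
  | gk =>
    rw [good_RE rfl, good_RE rfl]
    exact exists_congr fun u => and_congr Iff.rfl (and_congr Iff.rfl inv_RE)
  | ck x =>
    exact (keyM rfl rfl (by simp) (by simp) x x rfl rfl (Q_ck x)).symm
  | ks => exact keyL rfl rfl fun v => Iff.rfl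
  | sd =>
    refine keyL rfl rfl fun v => ?_
    change NH v0 (sy [] ++ sy v) ↔ allf [] ∧ NH v0 (sy v)
    rw [sy_nil, List.nil_append]
    exact ⟨fun h => ⟨fun x hx => absurd hx List.not_mem_nil, h⟩, fun h => h.2⟩
  | f0 m =>
    refine keyM rfl rfl (by simp) (by simp) _ _ rfl rfl fun u v => ?_
    exact and_congr (ea u m).symm Iff.rfl
  | f1 m b =>
    refine keyM rfl rfl (by simp) (by simp) _ _ rfl rfl fun u v => ?_
    exact and_congr (ea u m).symm Iff.rfl
  | f2 m b c =>
    refine keyM rfl rfl (by simp) (by simp) _ _ rfl rfl fun u v => ?_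
    exact and_congr (ea u m).symm Iff.rfl
  | d0 m b =>
    refine keyM rfl rfl (by simp) (by simp) (m, some (some b)) (m, some none) rfl rfl fun u v => ?_
    exact and_congr (ea u m).symm Iff.rfl
  | d1 m b c =>
    refine keyM rfl rfl (by simp) (by simp) (m, some (some c)) (m, some none) rfl rfl fun u v => ?_
    exact and_congr (ea u m).symm Iff.rfl
  | d2 m b c e =>
    refine keyM rfl rfl (by simp) (by simp) (m, some (some e)) (m, some none) rfl rfl fun u v => ?_
    refine and_congr (ea u m).symm ?_
    exact nh_step v0 b c e (sy v)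
  | fr m b =>
    refine (keyM rfl rfl (by simp) (by simp) (m, some none) (m, some none) rfl rfl
      fun u v => ?_).symm
    exact and_congr (ea u m).symm Iff.rfl
  | rp b =>
    refine keyL rfl rfl fun v => ?_
    change allf [] ∧ NH v0 (sy v ++ _) ↔ alls [] ∧ NH v0 (sy [] ++ sy v ++ _)
    rw [sy_nil, List.nil_append]
    exact and_congr ⟨fun h x hx => absurd hx List.not_mem_nil,
      fun h x hx => absurd hx List.not_mem_nil⟩ Iff.rfl
  | pc m b x =>
    refine keyM rfl rfl (by simp) (by simp) (m, some x) (m, some x) rfl rfl fun u v => ?_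
    change alls u ∧ NH v0 (sy u ++ sy ((m, some x) :: v) ++ _) ↔
      alls (u ++ [(m, some x)]) ∧ NH v0 (sy (u ++ [(m, some x)]) ++ sy v ++ _)
    have e1 : sy ((m, some x) :: v) = sy [(m, some x)] ++ sy v := sy_append [(m, some x)] v
    rw [alls_append, e1, sy_append, List.append_assoc (sy u) _ (sy v)]
    exact and_congr ⟨fun h => ⟨h, alls_single m x⟩, fun h => h.1⟩ Iff.rfl
  | wr m b μ hμ =>
    have h1 := key (h := P b) (h' := K) rfl rfl [] ((μ.map fun n => ((n, none) : Cell)) ++
      [(m, none)]) (List.zipWith (fun n c => ((n, c) : Cell)) μ (prodc v0 b)) [(m, none)]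
      fun u v => by
        rw [List.append_nil, List.append_assoc]
        exact inv_wr m b μ hμ u v
    have e1 : ([] : List Cell).map C ++ [P b] ++ ((μ.map fun n => ((n, none) : Cell)) ++
        [(m, none)]).map C = [P b] ++ (μ.map fun n => C (n, none)) ++ [C (m, none)] := by
      simp [List.map_map, Function.comp_def]
    have e2 : (List.zipWith (fun n c => ((n, c) : Cell)) μ (prodc v0 b)).map C ++ [K] ++
        ([(m, none)] : List Cell).map C =
        (List.zipWith (fun n c => C (n, c)) μ (prodc v0 b)) ++ [K, C (m, none)] := by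
      rw [List.map_zipWith]
      simp
    rw [e1, e2] at h1
    exact h1

/-- **good words do not contain halting words** -/
theorem no_stop {h : List Sym} (hs : Stop h) (α β : List Sym) : α ++ h ++ β ∉ GS v0 := by
  have key : ∀ {h : Sym} (hh : isHead h = true) (m : Bool),
      (∀ u v, sy v = [] → ¬ Q v0 h u ((m, none) :: v)) → α ++ [h, C (m, none)] ++ β ∉ GS v0 := by
    intro h hh m hQ hmem
    have h1 := (good_iff (v0 := v0) hh [] [(m, none)] α β).1 hmem
    obtain ⟨u, v, -, -, hI⟩ := h1
    rw [List.append_nil] at hI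
    refine hQ u v ?_ hI.2.2.2
    have hS := hI.2.1
    simp only [Sh, List.singleton_append, List.pairwise_append, List.pairwise_cons] at hS
    rw [sy, List.filterMap_eq_nil_iff]
    intro x hx
    have := hS.2.1.1 x hx
    simp only [Option.isSome_none, Bool.false_eq_true, imp_false, Bool.not_eq_true] at this
    cases h : x.2 with
    | none => rfl
    | some c => rw [h] at this; simp at this
  cases hs with
  | s0 m =>
    refine key rfl m fun u v hv hQ => ?_
    have h1 : NH v0 (sy v) := hQ.2
    rw [hv] at h1
    exact not_nh_of_short v0 (by simp) h1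
  | s1 m b =>
    refine key rfl m fun u v hv hQ => ?_
    have h1 : NH v0 (b :: sy v) := hQ.2
    rw [hv] at h1
    exact not_nh_of_short v0 (by simp) h1
  | s2 m b c =>
    refine key rfl m fun u v hv hQ => ?_
    have h1 : NH v0 (b :: c :: sy v) := hQ.2
    rw [hv] at h1
    exact not_nh_of_short v0 (by simp) h1

/-! ### cube-free words -/

theorem not_mem_of_count {α : Type} [DecidableEq α] {a b c : List α} {x : α}
    (h : (a ++ (b ++ b ++ b) ++ c).count x ≤ 2) : x ∉ b := by
  intro hx
  have h1 : 1 ≤ b.count x := List.one_le_count_iff.2 hx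
  simp only [List.count_append] at h
  omega

theorem in_side {α : Type} {A B a w c : List α} {x : α} (hx : x ∉ w)
    (h : A ++ x :: B = a ++ w ++ c) : (∃ c', A = a ++ w ++ c') ∨ ∃ a', B = a' ++ w ++ c := by
  rcases List.append_eq_append_iff.1 h with ⟨t, h1, h2⟩ | ⟨t, h1, h2⟩
  · -- `a ++ w = A ++ t`
    cases t with
    | nil => exact Or.inl ⟨[], by rw [h1]; simp⟩
    | cons y t =>
      rw [List.cons_append, List.cons.injEq] at h2
      obtain ⟨rfl, h2⟩ := h2
      rcases List.append_eq_append_iff.1 h1 with ⟨s, h3, h4⟩ | ⟨s, h3, h4⟩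
      · exfalso
        apply hx
        rw [h4]; simp
      · cases s with
        | nil =>
          rw [List.nil_append] at h4
          exfalso
          apply hx
          rw [← h4]; simp
        | cons z s =>
          rw [List.cons_append, List.cons.injEq] at h4
          exact Or.inr ⟨s, by rw [h2, h4.2]⟩
  · exact Or.inl ⟨t, h1⟩

theorem cubeFree_wd {h : Sym} {u v : List Cell} (hh : isHead h = true) (hu : CubeFree u)
    (hv : CubeFree v) : CubeFree (wd h u v) := by
  have hCnt : ∀ (u : List Cell) (x : Sym), (∀ c, x ≠ C c) → (u.map C).count x = 0 := by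
    intro u x hx
    rw [List.count_eq_zero]
    intro h1
    obtain ⟨y, _, hy⟩ := List.mem_map.1 h1
    exact hx y hy.symm
  have hcount : ∀ x : Sym, (∀ c, x ≠ C c) → (wd h u v).count x ≤ 2 := by
    intro x hx
    rw [wd]
    simp only [List.count_append, List.count_cons, hCnt u x hx, hCnt v x hx, List.count_nil,
      beq_iff_eq]
    have k1 : h ≠ X := by rintro rfl; exact Bool.noConfusion hh
    have k2 : h ≠ LL := by rintro rfl; exact Bool.noConfusion hh
    have k3 : h ≠ RR := by rintro rfl; exact Bool.noConfusion hh
    by_cases c1 : X = x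
    · have c2 : LL ≠ x := by rw [← c1]; simp
      have c3 : RR ≠ x := by rw [← c1]; simp
      have c4 : h ≠ x := by rw [← c1]; exact k1
      simp only [c1, c2, c3, c4, if_true, if_false]
      omega
    · by_cases c2 : LL = x
      · have c3 : RR ≠ x := by rw [← c2]; simp
        have c4 : h ≠ x := by rw [← c2]; exact k2
        simp only [c1, c2, c3, c4, if_true, if_false]
        omega
      · by_cases c3 : RR = x
        · have c4 : h ≠ x := by rw [← c3]; exact k3
          simp only [c1, c2, c3, c4, if_true, if_false]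
          omega
        · simp only [c1, c2, c3, if_false]
          split_ifs <;> omega
  intro a b c e
  have hb : ∀ x ∈ b, ∃ y, x = C y := by
    intro x hx
    by_contra hne
    push Not at hne
    exact not_mem_of_count (x := x) (by rw [← e]; exact hcount x hne) hx
  have hcells : ∀ {w : List Sym}, (∀ x ∈ w, ∃ y, x = C y) → ∀ x ∈ w, ∀ s : Sym, (∀ c, s ≠ C c) →
      x ≠ s := by
    intro w hw x hx s hs hxs
    obtain ⟨y, rfl⟩ := hw x hx
    exact hs y hxs.symm
  have hnot : ∀ s : Sym, (∀ c, s ≠ C c) → s ∉ b ++ b ++ b := by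
    intro s hs hmem
    have : s ∈ b := by simpa using hmem
    obtain ⟨y, rfl⟩ := hb s this
    exact hs y rfl
  have hhC : ∀ c, h ≠ C c := by
    rintro c rfl
    exact Bool.noConfusion hh
  by_contra hne
  -- the cube lies in one of the two sides
  have hlist : ∀ (w : List Cell), CubeFree w → ∀ a c : List Sym, w.map C ≠ a ++ (b ++ b ++ b) ++ c := by
    intro w hw a c e1
    exact hne ((CubeFree.map (fun x y h => by injection h) hw) a b c e1)
  rw [wd] at e
  rcases in_side (hnot h hhC) e with ⟨c', e1⟩ | ⟨a', e1⟩
  · have e2 : [X] ++ LL :: u.map C = a ++ (b ++ b ++ b) ++ c' := by rw [← e1]; rfl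
    rcases in_side (hnot LL (by simp)) e2 with ⟨c'', e3⟩ | ⟨a'', e3⟩
    · have e4 : [] ++ X :: [] = a ++ (b ++ b ++ b) ++ c'' := e3
      rcases in_side (hnot X (by simp)) e4 with ⟨c3, e5⟩ | ⟨a3, e5⟩
      · have := congrArg List.length e5
        simp only [List.length_append, List.length_nil] at this
        exact hne (List.length_eq_zero_iff.1 (by omega))
      · have := congrArg List.length e5
        simp only [List.length_append, List.length_nil] at this
        exact hne (List.length_eq_zero_iff.1 (by omega))
    · exact hlist u hu _ _ e3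
  · rcases in_side (hnot RR (by simp)) e1 with ⟨c'', e3⟩ | ⟨a'', e3⟩
    · exact hlist v hv _ _ e3
    · have e4 : [] ++ X :: [] = a'' ++ (b ++ b ++ b) ++ c := e3
      rcases in_side (hnot X (by simp)) e4 with ⟨c3, e5⟩ | ⟨a3, e5⟩
      · have := congrArg List.length e5
        simp only [List.length_append, List.length_nil] at this
        exact hne (List.length_eq_zero_iff.1 (by omega))
      · have := congrArg List.length e5
        simp only [List.length_append, List.length_nil] at this
        exact hne (List.length_eq_zero_iff.1 (by omega))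

theorem cubeFree_good {z : List Sym} (hz : z ∈ GS v0) : CubeFree z := by
  obtain ⟨h, u, v, rfl, hh, -, hM, -⟩ := hz
  have h1 : CubeFree (mkr u) ∧ CubeFree (mkr v) := by
    rcases hM with ⟨-, hM⟩ | ⟨-, hM, hM2⟩
    · have := cubeFree_seg 0 (u.length + v.length)
      rw [← hM] at this
      exact ⟨this.left, this.right⟩
    · refine ⟨by rw [hM]; exact cubeFree_seg _ _, ?_⟩
      rcases hM2 with rfl | ⟨M, -, hM2⟩
      · exact cubeFree_seg 0 0
      · rw [hM2]; exact cubeFree_seg _ _
  exact cubeFree_wd hh h1.1.of_map h1.2.of_map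

end

end Pool.Agent.Lib.MP_b02441_al.U
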