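import Pool.Agent.Lib.MP_b02441_al.ZeroC
import Pool.Agent.Lib.MP_b02441_al.U.Blk

/-!
# The separated case (for MP_b02441_al, undecidability)
-/

set_option autoImplicit false
set_option linter.unusedVariables false

namespace Pool.Agent.Lib.MP_b02441_al.U

open Pool.Agent.Lib.MP_b02441_al

/-! ### sets of words closed under the identities -/

/-- the syntactic congruence of a set of words -/
def synCon (O : Set (List ℕ)) : Con Word where
  r u v := ∀ p q : List ℕ, p ++ toL u ++ q ∈ O ↔ p ++ toL v ++ q ∈ O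
  iseqv := ⟨fun _ _ _ => Iff.rfl, fun h p q => (h p q).symm, fun h h' p q => (h p q).trans (h' p q)⟩
  mul' := by
    intro u v u' v' h h' p q
    rw [toL_mul, toL_mul]
    have h1 := h p (toL u' ++ q)
    have h2 := h' (p ++ toL v) q
    simp only [List.append_assoc] at h1 h2 ⊢
    exact h1.trans h2

theorem mem_of_closed {E : Set (Word × Word)} {O : Set (List ℕ)}
    (h : ∀ e ∈ E, ∀ s : ℕ → List ℕ, (∀ x, s x ≠ []) → ∀ p q : List ℕ,
      (p ++ (toL e.1).flatMap s ++ q ∈ O ↔ p ++ (toL e.2).flatMap s ++ q ∈ O)) :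
    Mem E (synCon O).Quotient := by
  intro e he φ
  have hsurj : ∀ x : (synCon O).Quotient, ∃ v : Word, (v : (synCon O).Quotient) = x := by
    intro x
    induction x using Con.induction_on with
    | H v => exact ⟨v, rfl⟩
  choose f hf using fun i : ℕ => hsurj (φ (FreeSemigroup.of i))
  have hφ : ∀ v : Word, φ v = ((FreeSemigroup.lift f v : Word) : (synCon O).Quotient) := by
    intro v
    induction v using FreeSemigroup.recOnMul with
    | ih1 x => rw [FreeSemigroup.lift_of]; exact (hf x).symm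
    | ih2 x y hx hy => rw [map_mul, map_mul, hx, hy, Con.coe_mul]
  rw [hφ, hφ]
  refine (Con.eq _).2 fun p q => ?_
  rw [toL_lift, toL_lift]
  exact h e he _ (fun x => toL_ne _) p q

/-- the canonical map -/
def mk (c : Con Word) : Word →ₙ* c.Quotient where
  toFun w := (w : c.Quotient)
  map_mul' _ _ := rfl

theorem holds_closed {E : Set (Word × Word)} {O : Set (List ℕ)}
    (h : ∀ e ∈ E, ∀ s : ℕ → List ℕ, (∀ x, s x ≠ []) → ∀ p q : List ℕ,
      (p ++ (toL e.1).flatMap s ++ q ∈ O ↔ p ++ (toL e.2).flatMap s ++ q ∈ O))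
    {u v : Word} (huv : Holds E u v) : toL u ∈ O ↔ toL v ∈ O := by
  have h1 := huv _ (mem_of_closed h) (mk (synCon O))
  have h2 := (Con.eq (synCon O)).1 h1
  simpa using h2 [] []

/-! ### the varieties -/

/-- the word with given letters -/
def toW (l : List ℕ) : Word := ⟨l.headD 0, l.tail⟩

theorem toL_toW {l : List ℕ} (h : l ≠ []) : toL (toW l) = l := by
  cases l with
  | nil => exact absurd rfl h
  | cons x l => rfl

/-- a flanked word -/
def fl (J : ℕ) (l : List ℕ) : List ℕ := blk lt false ([J] ++ l ++ [J])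

/-- the identities of a machine -/
def IE (J : ℕ) (R : Set (List ℕ × List ℕ)) : Set (Word × Word) :=
  (fun p => (toW (fl J p.1), toW (fl J p.2))) '' R

/-- the zero words of a machine -/
def HZ (J : ℕ) (H : Set (List ℕ)) : Set Word := (fun h => toW (fl J h)) '' H

/-- the substitution of the first letter by a product -/
def σ1 : Bool → List ℕ
  | false => [0, 2]
  | true => [1]

/-- the substitution of both letters by the same letter -/
def σ3 : Bool → List ℕ := fun _ => [0]

/-- the variety -/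
def VA (J : ℕ) (R : Set (List ℕ × List ℕ)) (H : Set (List ℕ)) (z0 : List ℕ) : Set (Word × Word) :=
  withZeros (IE J R) (HZ J H ∪ {toW (blk σ1 false z0), toW (blk σ3 false z0)})

theorem blk_ne {σ : Bool → List ℕ} (hσ : ∀ b, σ b ≠ []) {s : Bool} {z : List ℕ}
    (hz : ∀ n ∈ z, 1 ≤ n) (h : z ≠ []) : blk σ s z ≠ [] := by
  cases z with
  | nil => exact absurd rfl h
  | cons n z =>
    obtain ⟨k, rfl⟩ : ∃ k, n = k + 1 := ⟨n - 1, by have := hz n List.mem_cons_self; omega⟩
    intro h0
    rw [blk, rep_succ, List.append_assoc] at h0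
    exact hσ s (List.append_eq_nil_iff.1 h0).1

theorem lt_ne (b : Bool) : lt b ≠ [] := by simp [lt]

theorem fl_ne {J : ℕ} (hJ : 4 ≤ J) {l : List ℕ} (hl : ∀ n ∈ l, J ≤ n) : fl J l ≠ [] := by
  refine blk_ne lt_ne (fun n hn => ?_) (by simp)
  simp only [List.mem_append, List.mem_singleton] at hn
  rcases hn with (h | h) | h
  · omega
  · have := hl n h; omega
  · omega

theorem blk_xor (e s : Bool) (z : List ℕ) : blk (fun b => lt (xor b e)) s z = blk lt (xor s e) z := by
  cases e
  · simp only [Bool.xor_false]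
  · have : (fun b => lt (xor b true)) = fun b => lt (!b) := by
      funext b; simp
    rw [this, blk_swap]
    simp

section

variable {J : ℕ} {G : Set (List ℕ)}

/-- the set of words -/
def OO (G : Set (List ℕ)) : Set (List ℕ) := {w | ∃ z ∈ G, w = blk lt false z}

theorem lt_flatMap (s : ℕ → List ℕ) (b : Bool) : (lt b).flatMap s = s b.toNat := by
  simp [lt]

theorem closed_one (hJ : 4 ≤ J) (hG : ∀ z ∈ G, ∀ n ∈ z, J ≤ n ∧ n < 2 * J)
    (hc : ∀ z ∈ G, CubeFree z) {l r : List ℕ} (hl : l ≠ []) (hl2 : ∀ n ∈ l, J ≤ n)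
    (hlr : l.length % 2 = r.length % 2)
    (hcl : ∀ α β : List ℕ, α ≠ [] → β ≠ [] → α ++ l ++ β ∈ G → α ++ r ++ β ∈ G)
    {s : ℕ → List ℕ} (hs : ∀ x, s x ≠ []) {p q : List ℕ}
    (h : p ++ (fl J l).flatMap s ++ q ∈ OO G) : p ++ (fl J r).flatMap s ++ q ∈ OO G := by
  obtain ⟨z, hz, hw⟩ := h
  rw [fl, blk_flatMap] at hw
  obtain ⟨n, l', rfl⟩ : ∃ n l', l = n :: l' := by
    cases l with
    | nil => exact absurd rfl hl
    | cons n l' => exact ⟨n, l', rfl⟩
  obtain ⟨e, he⟩ := letters_of_match (J := J) hJ (hG z hz) (hc z hz) (s := false) (s' := false)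
    (σ := fun b => (lt b).flatMap s) (fun b => by rw [lt_flatMap]; exact hs _)
    (n1 := J) (n2 := n) (r := l' ++ [J]) le_rfl (hl2 n List.mem_cons_self) hw.symm
  rw [blk_congr he, blk_xor, Bool.false_xor] at hw
  obtain ⟨α, β, hα, hβ, ez, e1, e2, e3⟩ := match_flanked hJ (hG z hz) hl hl2 hw.symm
  have h1 : α ++ r ++ β ∈ G := hcl α β hα hβ (by rw [← ez]; exact hz)
  refine ⟨_, h1, ?_⟩
  rw [fl, blk_flatMap, blk_congr he, blk_xor, Bool.false_xor]
  exact replace_flanked hlr e1 e2 e3

theorem no_zero (hJ : 4 ≤ J) (hG : ∀ z ∈ G, ∀ n ∈ z, J ≤ n ∧ n < 2 * J)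
    (hc : ∀ z ∈ G, CubeFree z) {h : List ℕ} (hh : h ≠ []) (hh2 : ∀ n ∈ h, J ≤ n)
    (hcl : ∀ α β : List ℕ, α ≠ [] → β ≠ [] → α ++ h ++ β ∉ G)
    {s : ℕ → List ℕ} (hs : ∀ x, s x ≠ []) {p q : List ℕ} :
    p ++ (fl J h).flatMap s ++ q ∉ OO G := by
  intro h1
  obtain ⟨z, hz, hw⟩ := h1
  rw [fl, blk_flatMap] at hw
  obtain ⟨n, l', rfl⟩ : ∃ n l', h = n :: l' := by
    cases h with
    | nil => exact absurd rfl hh
    | cons n l' => exact ⟨n, l', rfl⟩
  obtain ⟨e, he⟩ := letters_of_match (J := J) hJ (hG z hz) (hc z hz) (s := false) (s' := false)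
    (σ := fun b => (lt b).flatMap s) (fun b => by rw [lt_flatMap]; exact hs _)
    (n1 := J) (n2 := n) (r := l' ++ [J]) le_rfl (hh2 n List.mem_cons_self) hw.symm
  rw [blk_congr he, blk_xor, Bool.false_xor] at hw
  obtain ⟨α, β, hα, hβ, ez, e1, e2, e3⟩ := match_flanked hJ (hG z hz) hh hh2 hw.symm
  exact hcl α β hα hβ (by rw [← ez]; exact hz)

theorem no_sub (hJ : 4 ≤ J) (hG : ∀ z ∈ G, ∀ n ∈ z, J ≤ n ∧ n < 2 * J)
    (hc : ∀ z ∈ G, CubeFree z) {n1 n2 : ℕ} {r : List ℕ} (hn1 : J ≤ n1) (hn2 : J ≤ n2)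
    {σ : Bool → List ℕ} (hσ : ∀ b, σ b ≠ [])
    (hbad : 2 ≤ (σ false).length ∨ σ false = σ true) {p q : List ℕ} :
    p ++ blk σ false (n1 :: n2 :: r) ++ q ∉ OO G := by
  rintro ⟨z, hz, hw⟩
  obtain ⟨e, he⟩ := letters_of_match (J := J) hJ (hG z hz) (hc z hz) (s := false) (s' := false)
    (σ := σ) hσ hn1 hn2 hw.symm
  rcases hbad with h | h
  · rw [he] at h
    simp [lt] at h
  · rw [he, he] at h
    revert h
    cases e <;> simp [lt]

theorem closed_all (hJ : 4 ≤ J) {R : Set (List ℕ × List ℕ)} {H : Set (List ℕ)} {z0 : List ℕ}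
    (hG : ∀ z ∈ G, ∀ n ∈ z, J ≤ n ∧ n < 2 * J) (hc : ∀ z ∈ G, CubeFree z)
    (hR : ∀ p ∈ R, p.1 ≠ [] ∧ p.2 ≠ [] ∧ p.1.length % 2 = p.2.length % 2 ∧
      (∀ n ∈ p.1, J ≤ n) ∧ ∀ n ∈ p.2, J ≤ n)
    (hcl : ∀ p ∈ R, ∀ α β : List ℕ, α ≠ [] → β ≠ [] → (α ++ p.1 ++ β ∈ G ↔ α ++ p.2 ++ β ∈ G))
    (hH : ∀ h ∈ H, h ≠ [] ∧ (∀ n ∈ h, J ≤ n) ∧ ∀ α β : List ℕ, α ≠ [] → β ≠ [] →
      α ++ h ++ β ∉ G)
    {n1 n2 : ℕ} {r : List ℕ} (hz0 : z0 = n1 :: n2 :: r) (hn : ∀ n ∈ z0, J ≤ n) :
    ∀ e ∈ VA J R H z0, ∀ s : ℕ → List ℕ, (∀ x, s x ≠ []) → ∀ p q : List ℕ,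
      (p ++ (toL e.1).flatMap s ++ q ∈ OO G ↔ p ++ (toL e.2).flatMap s ++ q ∈ OO G) := by
  have hn1 : J ≤ n1 := hn n1 (by rw [hz0]; simp)
  have hn2 : J ≤ n2 := hn n2 (by rw [hz0]; simp)
  have hn' : ∀ n ∈ z0, 1 ≤ n := fun n h => by have := hn n h; omega
  have hz0' : z0 ≠ [] := by rw [hz0]; simp
  rintro e (he | ⟨w, hw, y, hy, he⟩) s hs p q
  · obtain ⟨⟨l, r'⟩, hp, rfl⟩ := he
    obtain ⟨h1, h2, h3, h4, h5⟩ := hR _ hp
    dsimp only at h1 h2 h3 h4 h5 ⊢
    rw [toL_toW (fl_ne hJ h4), toL_toW (fl_ne hJ h5)]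
    constructor
    · exact closed_one hJ hG hc h1 h4 h3 (fun α β hα hβ => (hcl _ hp α β hα hβ).1) hs
    · exact closed_one hJ hG hc h2 h5 h3.symm (fun α β hα hβ => (hcl _ hp α β hα hβ).2) hs
  · have key : ∀ p q, p ++ (toL w).flatMap s ++ q ∉ OO G := by
      intro p q
      rcases hw with ⟨h, hh, rfl⟩ | rfl | rfl
      · obtain ⟨h1, h2, h3⟩ := hH h hh
        dsimp only
        rw [toL_toW (fl_ne hJ h2)]
        exact no_zero hJ hG hc h1 h2 h3 hs
      · rw [toL_toW (blk_ne (fun b => by cases b <;> simp [σ1]) hn' hz0'), blk_flatMap, hz0]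
        refine no_sub hJ hG hc hn1 hn2 (fun b => ?_) (Or.inl ?_)
        · cases b <;> simp [σ1, hs]
        · simp only [σ1, List.flatMap_cons, List.flatMap_nil, List.append_nil, List.length_append]
          have h1 : 0 < (s 0).length := List.length_pos_iff.2 (hs 0)
          have h2 : 0 < (s 2).length := List.length_pos_iff.2 (hs 2)
          omega
      · rw [toL_toW (blk_ne (fun b => by simp [σ3]) hn' hz0'), blk_flatMap, hz0]
        refine no_sub hJ hG hc hn1 hn2 (fun b => ?_) (Or.inr ?_)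
        · simp [σ3, hs]
        · simp [σ3]
    rcases he with rfl | rfl
    · rw [toL_mul, List.flatMap_append, toL_of]
      have h1 := key p ((([y] : List ℕ).flatMap s) ++ q)
      simp only [List.append_assoc] at h1 ⊢
      have h2 := key p q
      simp only [List.append_assoc] at h2
      exact ⟨fun h => absurd h h1, fun h => absurd h h2⟩
    · rw [toL_mul, List.flatMap_append, toL_of]
      have h1 := key (p ++ (([y] : List ℕ).flatMap s)) q
      simp only [List.append_assoc] at h1 ⊢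
      have h2 := key p q
      simp only [List.append_assoc] at h2
      exact ⟨fun h => absurd h h1, fun h => absurd h h2⟩

end

/-- **the separated case** -/
theorem separated_A {J : ℕ} (hJ : 4 ≤ J) {R : Set (List ℕ × List ℕ)} {H : Set (List ℕ)}
    {z0 : List ℕ} {G : Set (List ℕ)} (h0 : z0 ∈ G)
    (hG : ∀ z ∈ G, ∀ n ∈ z, J ≤ n ∧ n < 2 * J) (hc : ∀ z ∈ G, CubeFree z)
    (hR : ∀ p ∈ R, p.1 ≠ [] ∧ p.2 ≠ [] ∧ p.1.length % 2 = p.2.length % 2 ∧
      (∀ n ∈ p.1, J ≤ n) ∧ ∀ n ∈ p.2, J ≤ n)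
    (hcl : ∀ p ∈ R, ∀ α β : List ℕ, α ≠ [] → β ≠ [] → (α ++ p.1 ++ β ∈ G ↔ α ++ p.2 ++ β ∈ G))
    (hH : ∀ h ∈ H, h ≠ [] ∧ (∀ n ∈ h, J ≤ n) ∧ ∀ α β : List ℕ, α ≠ [] → β ≠ [] →
      α ++ h ++ β ∉ G)
    (hz0 : ∃ n1 n2 r, z0 = n1 :: n2 :: r) : Separated (VA J R H z0) := by
  obtain ⟨n1, n2, r, hz0⟩ := hz0
  have hn : ∀ n ∈ z0, J ≤ n := fun n hn => (hG z0 h0 n hn).1
  have hn1 : J ≤ n1 := hn n1 (by rw [hz0]; simp)
  have hn2 : J ≤ n2 := hn n2 (by rw [hz0]; simp)
  have hn' : ∀ n ∈ z0, 1 ≤ n := fun n h => by have := hn n h; omega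
  have hz0' : z0 ≠ [] := by rw [hz0]; simp
  have hclosed := closed_all hJ hG hc hR hcl hH hz0 hn
  have hE := RE_fic (VA J R H z0)
  -- related nonempty lists
  have hrel : ∀ u v : List ℕ, u ≠ [] → v ≠ [] → RE (VA J R H z0) u v →
      (u ∈ OO G ↔ v ∈ OO G) := by
    intro u v hu hv h
    have h1 : Holds (VA J R H z0) (toW u) (toW v) := by
      rw [← RE_toL, toL_toW hu, toL_toW hv]; exact h
    have := holds_closed hclosed h1
    rwa [toL_toW hu, toL_toW hv] at this
  -- all instances of the zero words are related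
  have hL1 : blk σ1 false z0 ≠ [] := blk_ne (fun b => by cases b <;> simp [σ1]) hn' hz0'
  have hL3 : blk σ3 false z0 ≠ [] := blk_ne (fun b => by simp [σ3]) hn' hz0'
  have hzero : ∀ X ∈ ({blk σ1 false z0, blk σ3 false z0} : Set (List ℕ)),
      ∀ Y ∈ ({blk σ1 false z0, blk σ3 false z0} : Set (List ℕ)), ∀ s t : ℕ → List ℕ,
      (∀ x, s x ≠ []) → (∀ x, t x ≠ []) → RE (VA J R H z0) (X.flatMap s) (Y.flatMap t) := by
    intro X hX Y hY s t hs ht S _ hS f
    have hmem : ∀ X ∈ ({blk σ1 false z0, blk σ3 false z0} : Set (List ℕ)),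
        toW X ∈ HZ J H ∪ {toW (blk σ1 false z0), toW (blk σ3 false z0)} ∧ toL (toW X) = X := by
      rintro X (rfl | rfl)
      · exact ⟨Or.inr (Or.inl rfl), toL_toW hL1⟩
      · exact ⟨Or.inr (Or.inr rfl), toL_toW hL3⟩
    choose g hg using fun x => ev_exists f (hs x)
    choose k hk using fun x => ev_exists f (ht x)
    rw [ev_flatMap f g s fun x _ => hg x, ev_flatMap f k t fun x _ => hk x]
    obtain ⟨hX1, hX2⟩ := hmem X hX
    obtain ⟨hY1, hY2⟩ := hmem Y hY
    obtain ⟨z, hz1, hz2⟩ := exists_zero hX1 hS (FreeSemigroup.lift g)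
    obtain ⟨z', hz1', hz2'⟩ := exists_zero hY1 hS (FreeSemigroup.lift k)
    have hzz : z = z' := by
      rw [← (hz2 z').1, (hz2' z).2]
    rw [← hX2, ← hY2, ev_lift, ev_lift, hz1, hz1', hzz]
  rw [separated_iff]
  intro n hn0 hiso
  obtain ⟨s, hs1, hs2, hs3⟩ := isoL_of_isoH hn0 hiso (blk σ3 false z0) hL3 (by
    intro x hx
    have : x ∈ blk σ3 false z0 → x = 0 := by
      have h1 : ∀ (z : List ℕ) (b : Bool), x ∈ blk σ3 b z → x = 0 := by
        intro z
        induction z with
        | nil => intro b h; simp [blk] at h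
        | cons n z ih =>
          intro b h
          rw [blk, List.mem_append] at h
          rcases h with h | h
          · have h2 : rep n (σ3 b) = List.replicate n 0 := by rw [σ3, rep_singleton]
            rw [h2] at h
            exact (List.mem_replicate.1 h).2
          · exact ih _ h
      exact h1 z0 false
    rw [this hx]; omega)
  -- two letters with a bad substitution
  have hbad : ∀ i j : ℕ, i ≤ n → j ≤ n → i ≠ j → ¬ (2 ≤ (s i).length ∨ s i = s j) := by
    intro i j hi hj hij hb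
    set τ : Bool → List ℕ := fun b => if b then [j] else [i] with hτ
    have hτne : ∀ b, τ b ≠ [] := fun b => by cases b <;> simp [hτ]
    have hU' : blk τ false z0 ≠ [] := blk_ne hτne hn' hz0'
    have hUle : ∀ x ∈ blk τ false z0, x ≤ n := by
      have h1 : ∀ (x : ℕ) (z : List ℕ) (b : Bool), x ∈ blk τ b z → x ≤ n := by
        intro x z
        induction z with
        | nil => intro b h; simp [blk] at h
        | cons n' z ih =>
          intro b h
          rw [blk, List.mem_append] at h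
          rcases h with h | h
          · cases b
            · have h2 : rep n' (τ false) = List.replicate n' i := by
                rw [hτ]; exact rep_singleton _ _
              rw [h2] at h
              rw [(List.mem_replicate.1 h).2]; exact hi
            · have h2 : rep n' (τ true) = List.replicate n' j := by
                rw [hτ]; exact rep_singleton _ _
              rw [h2] at h
              rw [(List.mem_replicate.1 h).2]; exact hj
          · exact ih _ h
      exact fun x hx => h1 x z0 false hx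
    have hR' : RE (VA J R H z0) ((blk τ false z0).flatMap s) ((blk σ3 false z0).flatMap s) := by
      rcases hb with hb | hb
      · -- the first letter goes to a product
        obtain ⟨a, t, ht⟩ : ∃ a t, s i = a :: t := by
          cases h : s i with
          | nil => rw [h] at hb; simp at hb
          | cons a t => exact ⟨a, t, rfl⟩
        have htne : t ≠ [] := by
          rintro rfl
          rw [ht] at hb; simp at hb
        have e1 : (blk τ false z0).flatMap s = (blk σ1 false z0).flatMap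
            (fun x => if x = 0 then [a] else if x = 1 then s j else t) := by
          rw [blk_flatMap, blk_flatMap]
          refine blk_congr (fun b => ?_) _ _
          cases b
          · simp [hτ, σ1, ht]
          · simp [hτ, σ1]
        rw [e1]
        refine hzero _ (Or.inl rfl) _ (Or.inr rfl) _ _ (fun x => ?_) hs1
        split_ifs
        · simp
        · exact hs1 j
        · exact htne
      · have e1 : (blk τ false z0).flatMap s = (blk σ3 false z0).flatMap (fun _ => s i) := by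
          rw [blk_flatMap, blk_flatMap]
          refine blk_congr (fun b => ?_) _ _
          cases b
          · simp [hτ, σ3]
          · simp [hτ, σ3, hb]
        rw [e1]
        exact hzero _ (Or.inr rfl) _ (Or.inr rfl) _ _ (fun _ => hs1 i) hs1
    have h1 := hs3 _ hU' hUle hR'
    -- rename the letters
    have h2 := hE.sub (fun x => if x = i then [0] else [1]) (fun x => by split_ifs <;> simp) h1
    have e1 : (blk τ false z0).flatMap (fun x => if x = i then [0] else [1]) =
        blk lt false z0 := by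
      rw [blk_flatMap]
      refine blk_congr (fun b => ?_) _ _
      cases b
      · simp [hτ, lt]
      · simp [hτ, lt, hij.symm]
    rw [e1] at h2
    have h3 := (hrel _ _ (blk_ne lt_ne hn' hz0')
      (flatMap_ne_nil (fun x => by split_ifs <;> simp) hL3) h2).1 ⟨z0, h0, rfl⟩
    rw [blk_flatMap, hz0] at h3
    have h4 := no_sub (J := J) (G := G) hJ hG hc hn1 hn2 (r := r) (p := []) (q := [])
      (σ := fun b => (σ3 b).flatMap fun x => if x = i then [0] else [1])
      (fun b => by simp only [σ3]; by_cases h : 0 = i <;> simp [h]) (Or.inr (by simp [σ3]))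
    rw [List.nil_append, List.append_nil] at h4
    exact h4 h3
  -- pigeonhole
  have h3 : ∀ i, ∃ b, i ≤ n → s i = [b] := by
    intro i
    by_cases hi : i ≤ n
    · cases hs : s i with
      | nil => exact absurd hs (hs1 i)
      | cons a t =>
        refine ⟨a, fun _ => ?_⟩
        by_cases ht : t = []
        · rw [ht]
        · exfalso
          obtain ⟨j, hj, hij⟩ : ∃ j ≤ n, i ≠ j := by
            by_cases h0 : i = 0
            · exact ⟨1, hn0, by omega⟩
            · exact ⟨0, by omega, h0⟩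
          refine hbad i j hi hj hij (Or.inl ?_)
          rw [hs, List.length_cons]
          have : 0 < t.length := List.length_pos_iff.2 ht
          omega
    · exact ⟨0, fun h => absurd h hi⟩
  choose b hb using h3
  have hbn : ∀ i, i ≤ n → b i < n := by
    intro i hi
    refine hs2 i hi (b i) ?_
    rw [hb i hi]
    exact List.mem_singleton_self _
  obtain ⟨i, j, hij, hbij⟩ := Fintype.exists_ne_map_eq_of_card_lt
    (fun i : Fin (n + 1) => (⟨b i.val, hbn i.val (Nat.lt_succ_iff.1 i.isLt)⟩ : Fin n))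
    (by simp)
  have hi := Nat.lt_succ_iff.1 i.isLt
  have hj := Nat.lt_succ_iff.1 j.isLt
  have hne : i.val ≠ j.val := fun h => hij (Fin.ext h)
  have hb' : b i.val = b j.val := congrArg Fin.val hbij
  refine hbad i.val j.val hi hj hne (Or.inr ?_)
  rw [hb _ hi, hb _ hj, hb']

end Pool.Agent.Lib.MP_b02441_al.U
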