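import Pool.Agent.Lib.MP_b02441_al.U.SpecC
import Pool.Agent.Lib.MP_b40757_lc.Main

/-!
# Halting of programs as halting of one binary tag system (for MP_b02441_al)

`src`: for one binary tag system with deletion number `3` there is a computable map from programs
to words such that the system halts on the word of `c` if and only if `c` halts on the input `0`.
The proof is that of `main` in `Pool/Agent/Lib/MP_b40757_lc/Main.lean`.
-/

set_option autoImplicit false

namespace Pool.Agent.Lib.MP_b02441_al.U

open Relation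
open Pool.Agent.Lib.MP_b40757_lc

private theorem Src_rep_primrec (c2 : List Bool) :
    Primrec fun x : ℕ => (List.replicate x c2).flatten := by
  have h : Primrec fun x : ℕ => Nat.rec (motive := fun _ => List Bool) []
      (fun _ l => c2 ++ l) x :=
    Primrec.nat_rec₁ (f := fun _ l => c2 ++ l) []
      (Primrec.list_append.comp (Primrec.const c2) Primrec.snd)
  refine h.of_eq fun x => ?_
  induction x with
  | zero => rfl
  | succ x ih =>
    rw [List.replicate_succ, List.flatten_cons, ← ih]

private theorem Src_word {ν : ℕ} {Q : Type} (M : BM Q) (enc : Sy Q → List Bool) (q₀ : Q) :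
    ∃ c1 c2 c3 : List Bool, ∀ x, (word1 ν M (q₀, start x)).flatMap enc =
      c1 ++ (List.replicate x c2).flatten ++ c3 := by
  let g : Lt → List Bool := fun y =>
    (List.replicate (mult ν (M.k q₀) y) (Sum.inl (q₀, y) : Sy Q)).flatMap enc
  refine ⟨g Lt.H, g (Lt.A 0), g (Lt.B 0) ++ g (Lt.B 1) ++ g (Lt.B 2) ++ g (Lt.B 3), fun x => ?_⟩
  have h1 : lw (start x) = Lt.H :: (List.replicate x (Lt.A 0) ++
      [Lt.B 0, Lt.B 1, Lt.B 2, Lt.B 3]) := by
    simp [lw, List.finRange_succ, start]
  have h2 : (word1 ν M (q₀, start x)).flatMap enc = (lw (start x)).flatMap g := by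
    rw [word1, List.flatMap_assoc]
  have h3 : ∀ n : ℕ, (List.replicate n (Lt.A 0)).flatMap g = (List.replicate n (g (Lt.A 0))).flatten := by
    intro n
    induction n with
    | zero => rfl
    | succ n ih =>
      rw [List.replicate_succ, List.flatMap_cons, ih, List.replicate_succ, List.flatten_cons]
  rw [h2, h1, List.flatMap_cons, List.flatMap_append, h3]
  simp [List.flatMap_cons, List.append_assoc]

/-- the machine of `source`, with its halting problem in terms of programs -/
private theorem Src_source (ν : ℕ) (hν : 2 ≤ ν) :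
    ∃ (Q : Type) (_ : Fintype Q) (M : BM Q) (q₀ : Q) (f : ℕ → ℕ) (Inv : Q × (Fin 4 → ℕ) → Prop),
      (∀ q b i, 1 ≤ M.mul q b i) ∧ (∀ n, Inv (q₀, start (f n))) ∧
      (∀ c c', Inv c → M.step ν c = some c' → Inv c') ∧
      (∀ c, Inv c → c.2 (M.k c.1) % ν ≤ 1) ∧ Primrec f ∧
      ∀ n, M.Halts ν (q₀, start (f n)) ↔ (Nat.Partrec.Code.eval
        (Denumerable.ofNat Nat.Partrec.Code n) 0).Dom := by
  have hre : REPred fun n : ℕ => (Nat.Partrec.Code.eval (Denumerable.ofNat Nat.Partrec.Code n)
      0).Dom := (Nat.Partrec.Code.eval_part.comp (Computable.ofNat _)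
        (Computable.const 0)).dom_re
  have h1 : Partrec (fun n => (Part.assert ((Nat.Partrec.Code.eval
      (Denumerable.ofNat Nat.Partrec.Code n) 0).Dom) fun _ => Part.some ()).map fun _ => 0 :
      ℕ →. ℕ) := Partrec.map hre (Computable.const 0).to₂
  obtain ⟨c, hc⟩ := Turing.ToPartrec.Code.exists_code (Nat.Partrec'.part_iff₁.2 h1)
  obtain ⟨Q, hQ, M, q₀, f, Inv, h2, h3, h4, h5, h6, h7⟩ := Source.reduction ν hν c
  refine ⟨Q, hQ, M, q₀, f, Inv, h2, h3, h4, h5, h6, ?_⟩
  intro n
  rw [h7 n]
  have h9 := hc (n ::ᵥ List.Vector.nil)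
  have h10 : (n ::ᵥ List.Vector.nil : List.Vector ℕ 1).1 = [n] := rfl
  rw [h10] at h9
  rw [h9]
  simp [Part.assert]

/-- **one binary tag system with deletion number `3` simulates all programs** -/
theorem src : S_src := by
  obtain ⟨Q, hQ, M, q₀, f, Inv, hmul, hinv, h1, h2, hf, hnc⟩ := Src_source 3 (by norm_num)
  have : Nonempty (Sy Q) := ⟨Sum.inl (q₀, Lt.H)⟩
  obtain ⟨v, Enc, enc, hs⟩ := exists_system 3 (by norm_num) (Sy Q) (bprod 3 M) btl
  set wd : ℕ → List Bool := fun n => (word1 3 M (q₀, start (f n))).flatMap enc with hwd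
  have hcomp : Computable wd := by
    obtain ⟨c1, c2, c3, hc⟩ := Src_word (ν := 3) M enc q₀
    have : Primrec fun n => c1 ++ (List.replicate (f n) c2).flatten ++ c3 :=
      Primrec.list_append.comp
        (Primrec.list_append.comp (Primrec.const c1) ((Src_rep_primrec c2).comp hf))
        (Primrec.const c3)
    exact (this.of_eq fun n => (hc (f n)).symm).to_comp
  have hH : ∀ n, Halts 3 [false] v (wd n) ↔ M.Halts 3 (q₀, start (f n)) := fun n =>
    halts_iff (le_refl 3) hmul hs Inv h1 h2 _ (hinv n)
  refine ⟨v, fun c => wd (Encodable.encode c), hcomp.comp Computable.encode, fun c => ?_⟩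
  rw [hH, hnc, Denumerable.ofNat_encode]

end Pool.Agent.Lib.MP_b02441_al.U
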