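import Pool.Agent.Lib.MP_b02441_al.U.Blk

/-!
# A cube-free Toeplitz sequence (for MP_b02441_al, undecidability)
-/

set_option autoImplicit false
set_option linter.unusedVariables false

namespace Pool.Agent.Lib.MP_b02441_al.U

/-- the Toeplitz sequence `t (3 i) = t i`, `t (3 i + 1) = 0`, `t (3 i + 2) = 1` -/
def tt (n : ℕ) : Bool :=
  if n = 0 then false else if n % 3 = 0 then tt (n / 3) else decide (n % 3 = 2)
termination_by n
decreasing_by omega

theorem tt_zero : tt 0 = false := by rw [tt]; simp

theorem tt_mul (n : ℕ) : tt (3 * n) = tt n := by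
  rcases Nat.eq_zero_or_pos n with rfl | h
  · rfl
  · rw [tt]
    rw [if_neg (by omega), if_pos (by omega)]
    congr 1
    omega

theorem tt_one (n : ℕ) : tt (3 * n + 1) = false := by
  rw [tt, if_neg (by omega), if_neg (by omega)]
  simp

theorem tt_two (n : ℕ) : tt (3 * n + 2) = true := by
  rw [tt, if_neg (by omega), if_neg (by omega)]
  simp

theorem tt_mod_one {n : ℕ} (h : n % 3 = 1) : tt n = false := by
  obtain ⟨k, rfl⟩ : ∃ k, n = 3 * k + 1 := ⟨n / 3, by omega⟩
  exact tt_one k

theorem tt_mod_two {n : ℕ} (h : n % 3 = 2) : tt n = true := by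
  obtain ⟨k, rfl⟩ : ∃ k, n = 3 * k + 2 := ⟨n / 3, by omega⟩
  exact tt_two k

theorem no_cube_tt : ∀ (P : ℕ), 1 ≤ P → ∀ a : ℕ, ¬ ∀ i < 2 * P, tt (a + i) = tt (a + i + P) := by
  intro P
  induction P using Nat.strong_induction_on with
  | _ P ih =>
    intro hP a h
    by_cases h3 : P % 3 = 0
    · obtain ⟨Q, rfl⟩ : ∃ Q, P = 3 * Q := ⟨P / 3, by omega⟩
      refine ih Q (by omega) (by omega) ((a + 2) / 3) fun i hi => ?_
      have h1 := h (3 * ((a + 2) / 3 + i) - a) (by omega)
      have e1 : a + (3 * ((a + 2) / 3 + i) - a) = 3 * ((a + 2) / 3 + i) := by omega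
      rw [e1] at h1
      have e2 : 3 * ((a + 2) / 3 + i) + 3 * Q = 3 * ((a + 2) / 3 + i + Q) := by ring
      rw [e2, tt_mul, tt_mul] at h1
      exact h1
    · have h1 := h 0 (by omega)
      have h2 := h P (by omega)
      rw [Nat.add_zero] at h1
      have key : (a % 3 = 1 ∨ (a + P) % 3 = 1 ∨ (a + P + P) % 3 = 1) ∧
          (a % 3 = 2 ∨ (a + P) % 3 = 2 ∨ (a + P + P) % 3 = 2) := by
        have c1 : a % 3 = 0 ∨ a % 3 = 1 ∨ a % 3 = 2 := by omega
        have c2 : P % 3 = 1 ∨ P % 3 = 2 := by omega
        rcases c1 with c1 | c1 | c1 <;> rcases c2 with c2 | c2 <;> constructor <;> omega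
      obtain ⟨k1, k2⟩ := key
      rcases k1 with k1 | k1 | k1 <;> rcases k2 with k2 | k2 | k2 <;>
        first
        | omega
        | (have g1 := tt_mod_one k1
           have g2 := tt_mod_two k2
           simp_all)

/-- a factor of the sequence -/
def seg (a n : ℕ) : List Bool := (List.range n).map fun i => tt (a + i)

theorem length_seg (a n : ℕ) : (seg a n).length = n := by simp [seg]

theorem seg_zero (a : ℕ) : seg a 0 = [] := rfl

theorem seg_succ (a n : ℕ) : seg a (n + 1) = seg a n ++ [tt (a + n)] := by
  simp [seg, List.range_succ]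

theorem seg_succ' (a n : ℕ) : seg a (n + 1) = tt a :: seg (a + 1) n := by
  rw [seg, List.range_succ_eq_map, List.map_cons, List.map_map, Nat.add_zero]
  congr 1
  rw [seg]
  refine List.map_congr_left fun i _ => ?_
  simp only [Function.comp]
  congr 1
  omega

theorem seg_add (a m n : ℕ) : seg a (m + n) = seg a m ++ seg (a + m) n := by
  induction n with
  | zero => simp [seg_zero]
  | succ n ih => rw [← Nat.add_assoc, seg_succ, ih, seg_succ, List.append_assoc, Nat.add_assoc]

theorem getElem?_seg {a n k : ℕ} (h : k < n) : (seg a n)[k]? = some (tt (a + k)) := by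
  rw [seg, List.getElem?_map, List.getElem?_range h]
  rfl

theorem cubeFree_seg (a n : ℕ) : CubeFree (seg a n) := by
  intro x b y h
  by_contra hb
  have hlen := congrArg List.length h
  simp only [length_seg, List.length_append] at hlen
  have hb' : 1 ≤ b.length := List.length_pos_iff.2 hb
  refine no_cube_tt b.length hb' (a + x.length) fun i hi => ?_
  have h1 : (seg a n)[x.length + i]? = (b ++ b ++ b)[i]? := by
    rw [h, List.append_assoc, List.getElem?_append_right (by omega), Nat.add_sub_cancel_left,
      List.getElem?_append_left (by simp only [List.length_append]; omega)]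
  have h2 : (seg a n)[x.length + i + b.length]? = (b ++ b ++ b)[i + b.length]? := by
    rw [h, List.append_assoc, List.getElem?_append_right (by omega)]
    have e : x.length + i + b.length - x.length = i + b.length := by omega
    rw [e, List.getElem?_append_left (by simp only [List.length_append]; omega)]
  have h3 : (b ++ b ++ b)[i + b.length]? = (b ++ b ++ b)[i]? := by
    have e1 : (b ++ b ++ b)[i + b.length]? = (b ++ b)[i]? := by
      rw [List.append_assoc, List.getElem?_append_right (by omega), Nat.add_sub_cancel]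
    have e2 : (b ++ b ++ b)[i]? = (b ++ b)[i]? :=
      List.getElem?_append_left (by rw [List.length_append]; omega)
    rw [e1, e2]
  rw [getElem?_seg (by omega)] at h1 h2
  rw [h3, ← h1] at h2
  have h4 := Option.some.inj h2
  rw [Nat.add_assoc a, Nat.add_assoc a, Nat.add_assoc]
  rw [← Nat.add_assoc x.length]
  exact h4.symm

theorem CubeFree.factor {α : Type} {x y l : List α} (h : CubeFree (x ++ l ++ y)) : CubeFree l := by
  intro a b c hl
  refine h (x ++ a) b (c ++ y) ?_
  rw [hl]
  simp

theorem CubeFree.left {α : Type} {l y : List α} (h : CubeFree (l ++ y)) : CubeFree l :=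
  CubeFree.factor (x := []) (y := y) (by simpa using h)

theorem CubeFree.right {α : Type} {x l : List α} (h : CubeFree (x ++ l)) : CubeFree l :=
  CubeFree.factor (x := x) (y := []) (by simpa using h)

theorem CubeFree.of_map {α β : Type} {f : α → β} {l : List α} (h : CubeFree (l.map f)) :
    CubeFree l := by
  intro a b c hl
  have := h (a.map f) (b.map f) (c.map f) (by rw [hl]; simp)
  exact List.map_eq_nil_iff.1 this

theorem CubeFree.map {α β : Type} {f : α → β} (hf : Function.Injective f) {l : List α}
    (h : CubeFree l) : CubeFree (l.map f) := by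
  intro a b c hl
  obtain ⟨l1, c', e1, e2, e3⟩ := List.map_eq_append_iff.1 hl
  obtain ⟨a', l2, e4, e5, e6⟩ := List.map_eq_append_iff.1 e2
  obtain ⟨l3, b3, e7, e8, e9⟩ := List.map_eq_append_iff.1 e6
  obtain ⟨b1, b2, e10, e11, e12⟩ := List.map_eq_append_iff.1 e8
  have h1 : b1 = b2 := List.map_injective_iff.2 hf (by rw [e11, e12])
  have h2 : b2 = b3 := List.map_injective_iff.2 hf (by rw [e12, e9])
  subst h1 h2
  have h3 := h a' b1 c' (by rw [e1, e4, e7, e10])
  rw [← e11, h3]; rfl

end Pool.Agent.Lib.MP_b02441_al.U
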